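import Mathlib.NumberTheory.ArithmeticFunction.VonMangoldt

/-!
The singular series and the error term of the Hardy-Littlewood formula for prime pairs.
-/

open Finset

namespace Pool.Agent.MP_678834_nt

/-- The twin prime constant. -/
noncomputable def twinConst : ℝ :=
  ∏' p : {p : ℕ // p.Prime ∧ 2 < p}, (1 - 1 / (((p.1 : ℕ) : ℝ) - 1) ^ 2)

/-- The singular series of prime pairs with difference `d`. -/
noncomputable def sing (d : ℕ) : ℝ :=
  if Even d then
    2 * twinConst * ∏ p ∈ d.primeFactors.filter (fun p : ℕ => 2 < p), (((p : ℝ) - 1) / ((p : ℝ) - 2))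
  else 0

/-- The error term in the Hardy-Littlewood formula, with von Mangoldt weights. -/
noncomputable def pairErr (N d : ℕ) : ℝ :=
  (∑ n ∈ Ioc d N, ArithmeticFunction.vonMangoldt n * ArithmeticFunction.vonMangoldt (n - d)) -
    sing d * ((N : ℝ) - d)

end Pool.Agent.MP_678834_nt
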