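import Mathlib.Algebra.Order.Ring.Star
import Mathlib.Analysis.PSeries
import Mathlib.Algebra.Order.Star.Real
import Mathlib.Analysis.CStarAlgebra.Classes
import Mathlib.Analysis.SpecialFunctions.Log.Summable
import Mathlib.NumberTheory.PrimeCounting
import Mathlib.RingTheory.SimpleRing.Principal
import Pool.Agent.MP_678834_nt.Defs

-- ======== part 0: formerly Pool.Agent.MP_678834_nt.Fourier
section MrgPart0

/-!
Finite Fourier analysis: Parseval on a grid, the Dirichlet kernel, and the core inequality.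
-/

open Finset Complex
open scoped ComplexConjugate

namespace Pool.Agent.MP_678834_nt

noncomputable section

/-- The additive character. -/
def ex (t : ℝ) : ℂ := Complex.exp (2 * Real.pi * I * t)

lemma ex_add (s t : ℝ) : ex (s + t) = ex s * ex t := by
  simp only [ex, ← Complex.exp_add]; congr 1; push_cast; ring

@[simp] lemma ex_zero : ex 0 = 1 := by simp [ex]

@[simp] lemma norm_ex (t : ℝ) : ‖ex t‖ = 1 := by
  have : (2 * Real.pi * I * t : ℂ) = ((2 * Real.pi * t : ℝ) : ℂ) * I := by push_cast; ring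
  rw [ex, this, Complex.norm_exp_ofReal_mul_I]

lemma conj_ex (t : ℝ) : conj (ex t) = ex (-t) := by
  simp only [ex, ← Complex.exp_conj, map_mul, Complex.conj_ofReal, Complex.conj_I, map_ofNat]
  congr 1; push_cast; ring

lemma ex_nat_mul (n : ℕ) (t : ℝ) : ex (n * t) = ex t ^ n := by
  simp only [ex, ← Complex.exp_nat_mul]; congr 1; push_cast; ring

lemma ex_int (n : ℤ) : ex n = 1 := by
  rw [ex, Complex.exp_eq_one_iff]
  exact ⟨n, by push_cast; ring⟩

lemma ex_eq_one {t : ℝ} (h : ex t = 1) : ∃ n : ℤ, t = n := by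
  rw [ex, Complex.exp_eq_one_iff] at h
  obtain ⟨n, hn⟩ := h
  refine ⟨n, ?_⟩
  have h2 : (2 * Real.pi * I : ℂ) ≠ 0 := by simp [Real.pi_ne_zero]
  have h3 : (t : ℂ) = n := mul_left_cancel₀ h2 (by rw [hn]; ring)
  exact_mod_cast h3

lemma sum_ex {P : ℕ} (hP : 0 < P) (k : ℤ) :
    ∑ t ∈ range P, ex (k * (t / P)) = if (P : ℤ) ∣ k then (P : ℂ) else 0 := by
  have hP' : (P : ℝ) ≠ 0 := by positivity
  have h1 : ∀ t : ℕ, ex (k * (t / P)) = ex (k / P) ^ t := fun t => by
    rw [← ex_nat_mul]; congr 1; ring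
  simp only [h1]
  split_ifs with h
  · obtain ⟨j, rfl⟩ := h
    have : ((P * j : ℤ) : ℝ) / P = j := by push_cast; field_simp
    rw [this, ex_int]; simp
  · have h2 : ex (k / P) ≠ 1 := by
      intro h3
      obtain ⟨n, hn⟩ := ex_eq_one h3
      refine h ⟨n, ?_⟩
      rw [div_eq_iff hP'] at hn
      have : (k : ℝ) = ((P * n : ℤ) : ℝ) := by rw [hn]; push_cast; ring
      exact_mod_cast this
    rw [geom_sum_eq h2, ← ex_nat_mul, mul_div_cancel₀ _ hP', ex_int]
    simp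

lemma normSq_eq (z : ℂ) : ((‖z‖ ^ 2 : ℝ) : ℂ) = z * conj z := by
  rw [Complex.mul_conj, Complex.normSq_eq_norm_sq]

lemma parseval {P : ℕ} (hP : 0 < P) (s : Finset ℕ) (hs : ∀ k ∈ s, k < P) (c : ℕ → ℂ) (θ : ℝ) :
    ∑ t ∈ range P, ‖∑ k ∈ s, c k * ex (k * (t / P + θ))‖ ^ 2 = P * ∑ k ∈ s, ‖c k‖ ^ 2 := by
  apply Complex.ofReal_injective
  push_cast
  simp only [← Complex.ofReal_pow, normSq_eq, map_sum, map_mul, conj_ex, sum_mul_sum]
  rw [sum_comm, mul_sum]
  refine sum_congr rfl fun k hk => ?_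
  rw [sum_comm]
  have h1 : ∀ k' ∈ s, ∑ t ∈ range P, c k * ex (k * (t / P + θ)) *
      (conj (c k') * ex (-(k' * (t / P + θ)))) =
      if k = k' then (P : ℂ) * (c k * conj (c k')) else 0 := by
    intro k' hk'
    have h2 : ∀ t : ℕ, c k * ex (k * (t / P + θ)) * (conj (c k') * ex (-(k' * (t / P + θ)))) =
        (c k * conj (c k') * ex ((k - k') * θ)) * ex (((k : ℤ) - k' : ℤ) * (t / P)) := by
      intro t
      rw [mul_mul_mul_comm, mul_assoc (c k * _), ← ex_add, ← ex_add]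
      congr 2
      push_cast; ring
    simp only [h2]
    rw [← mul_sum, sum_ex hP]
    by_cases h : k = k'
    · subst h; simp [mul_comm]
    · rw [if_neg h, if_neg, mul_zero]
      intro hd
      have := hs k hk
      have := hs k' hk'
      have h3 := Int.eq_zero_of_abs_lt_dvd hd (by rw [abs_lt]; constructor <;> omega)
      omega
  rw [sum_congr rfl h1, sum_ite_eq, if_pos hk]

/-- The Dirichlet kernel. -/
def DK (m : ℕ) (β : ℝ) : ℂ := ∑ n ∈ range m, ex (n * β)

lemma parseval_DK {P m : ℕ} (hP : 0 < P) (hm : m ≤ P) (θ : ℝ) :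
    ∑ t ∈ range P, ‖DK m (t / P + θ)‖ ^ 2 = P * m := by
  have := parseval hP (range m) (fun k hk => (mem_range.1 hk).trans_le hm) (fun _ => 1) θ
  simpa [DK] using this

lemma DK_shift (s m : ℕ) (β : ℝ) :
    (1 - ex β ^ s) * DK m β = (1 - ex β ^ m) * DK s β := by
  simp only [DK, ex_nat_mul]
  rw [← mul_neg_geom_sum, ← mul_neg_geom_sum]
  ring

/-- Away from the peak of the short kernel the long kernel is dominated by short kernels. -/
lemma DK_le (s m : ℕ) (β : ℝ) (h : 4 * ‖DK s β‖ ^ 2 ≤ (s : ℝ) ^ 2) :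
    (s : ℝ) * ‖DK m β‖ ^ 2 ≤ 4 * ∑ j ∈ range s, ‖DK j β‖ ^ 2 := by
  have h0 : ‖DK s β‖ ≤ s / 2 := by
    refine abs_le_of_sq_le_sq' (by nlinarith) (by positivity) |>.2
  have h1 : ∀ j : ℕ, ‖1 - ex β ^ j‖ ^ 2 = 2 - 2 * (ex β ^ j).re := by
    intro j
    have hn : ‖ex β ^ j‖ = 1 := by simp
    have := Complex.normSq_eq_norm_sq (ex β ^ j)
    rw [hn, Complex.normSq_apply] at this
    rw [← Complex.normSq_eq_norm_sq, Complex.normSq_apply]
    simp only [Complex.sub_re, Complex.one_re, Complex.sub_im, Complex.one_im]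
    nlinarith
  have h2 : (s : ℝ) ≤ ∑ j ∈ range s, ‖1 - ex β ^ j‖ ^ 2 := by
    simp only [h1, sum_sub_distrib, sum_const, card_range, nsmul_eq_mul, ← mul_sum]
    have h3 : ∑ j ∈ range s, (ex β ^ j).re = (DK s β).re := by
      simp [DK, ex_nat_mul]
    have := Complex.re_le_norm (DK s β)
    rw [h3]
    linarith
  calc _ ≤ (∑ j ∈ range s, ‖1 - ex β ^ j‖ ^ 2) * ‖DK m β‖ ^ 2 := by gcongr
    _ = ∑ j ∈ range s, ‖1 - ex β ^ m‖ ^ 2 * ‖DK j β‖ ^ 2 := by
        rw [sum_mul]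
        refine sum_congr rfl fun j _ => ?_
        rw [← mul_pow, ← norm_mul, DK_shift, norm_mul, mul_pow]
    _ ≤ _ := by
        rw [mul_sum]
        refine sum_le_sum fun j _ => mul_le_mul_of_nonneg_right ?_ (by positivity)
        have : ‖1 - ex β ^ m‖ ≤ 2 := (norm_sub_le _ _).trans (by simp; norm_num)
        nlinarith [norm_nonneg (1 - ex β ^ m)]

/-- The exponential sum with weights `a` over the window of length `m` after `u`. -/
def SS (a : ℕ → ℝ) (u m : ℕ) (α : ℝ) : ℂ := ∑ n ∈ Ioc u (u + m), a n * ex (n * α)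

lemma norm_SS_one (u m : ℕ) (β : ℝ) : ‖SS (fun _ => 1) u m β‖ = ‖DK m β‖ := by
  have : SS (fun _ => 1) u m β = ex ((u + 1 : ℕ) * β) * DK m β := by
    rw [SS, DK, mul_sum, ← Ico_add_one_add_one_eq_Ioc, sum_Ico_eq_sum_range]
    refine sum_congr (by congr 1; omega) fun n _ => ?_
    rw [← ex_add]; simp; congr 1; ring
  rw [this, norm_mul, norm_ex, one_mul]

/-- The error in the number of weighted pairs with difference `k` between two windows. -/
def coef (a : ℕ → ℝ) (σ : ℤ → ℝ) (m u w k : ℕ) : ℝ :=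
  ∑ n ∈ (Ioc u (u + m)).filter fun n => w + k < n ∧ n ≤ w + m + k, (a n * a (n - k) - σ k)

/-- The generating function of these errors. -/
def RR (a : ℕ → ℝ) (σ : ℤ → ℝ) (m u w : ℕ) (α : ℝ) : ℂ :=
  ∑ k ∈ Icc 1 (2 * m), coef a σ m u w k * ex (k * α)

lemma RR_eq (a : ℕ → ℝ) (σ : ℤ → ℝ) {m u w : ℕ} (h2 : u ≤ w + m) (α : ℝ) :
    RR a σ m u w α = ∑ n ∈ Ioc u (u + m), ∑ n' ∈ (Ioc w (w + m)).filter (· < n),
      ((a n * a n' - σ (n - n') : ℝ) : ℂ) * ex ((n - n') * α) := by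
  simp only [RR, coef, Complex.ofReal_sum, sum_mul, sum_filter]
  rw [sum_comm]
  refine sum_congr rfl fun n hn => ?_
  rw [mem_Ioc] at hn
  simp only [apply_ite Complex.ofReal, ite_mul, Complex.ofReal_zero, zero_mul]
  rw [← sum_filter, ← sum_filter]
  refine sum_bij' (fun k _ => n - k) (fun n' _ => n - n') ?_ ?_ ?_ ?_ ?_
  · intro k hk
    simp only [mem_filter, mem_Icc, mem_Ioc] at hk ⊢
    omega
  · intro k hk
    simp only [mem_filter, mem_Icc, mem_Ioc] at hk ⊢
    omega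
  · intro k hk
    simp only [mem_filter, mem_Icc] at hk ⊢
    omega
  · intro k hk
    simp only [mem_filter, mem_Ioc] at hk ⊢
    omega
  · intro k hk
    simp only [mem_filter, mem_Icc] at hk
    have hk' : k ≤ n := by omega
    rw [Nat.cast_sub hk', Nat.cast_sub hk']
    simp

section model

variable {ι : Type*} {s : Finset ι} {g θ : ι → ℝ} {σ : ℤ → ℝ}

lemma bilinear (hσ : ∀ k : ℤ, (σ k : ℂ) = ∑ i ∈ s, g i * ex (k * θ i)) (a : ℕ → ℝ) (m u w : ℕ)
    (α : ℝ) :
    SS a u m α * conj (SS a w m α) -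
      ∑ i ∈ s, g i * (SS (fun _ => 1) u m (α + θ i) * conj (SS (fun _ => 1) w m (α + θ i))) =
    ∑ n ∈ Ioc u (u + m), ∑ n' ∈ Ioc w (w + m),
      ((a n * a n' - σ (n - n') : ℝ) : ℂ) * ex ((n - n') * α) := by
  simp only [SS, map_sum, map_mul, conj_ex, Complex.conj_ofReal, sum_mul_sum]
  simp only [mul_sum]
  rw [sum_comm (s := s), ← sum_sub_distrib]
  refine sum_congr rfl fun n _ => ?_
  rw [sum_comm (s := s), ← sum_sub_distrib]
  refine sum_congr rfl fun n' _ => ?_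
  push_cast
  rw [hσ, sub_mul, sum_mul]
  congr 1
  · rw [mul_mul_mul_comm, ← ex_add]; congr 2; ring
  · refine sum_congr rfl fun i _ => ?_
    rw [one_mul, one_mul, mul_assoc, ← ex_add, ← ex_add]
    congr 2; push_cast; ring

lemma cross_eq (hσ : ∀ k : ℤ, (σ k : ℂ) = ∑ i ∈ s, g i * ex (k * θ i)) (a : ℕ → ℝ) (m w : ℕ)
    (α : ℝ) :
    SS a (w + m) m α * conj (SS a w m α) = RR a σ m (w + m) w α +
      ∑ i ∈ s, g i * (SS (fun _ => 1) (w + m) m (α + θ i) *
        conj (SS (fun _ => 1) w m (α + θ i))) := by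
  rw [RR_eq a σ le_rfl, ← sub_eq_iff_eq_add, bilinear hσ]
  refine sum_congr rfl fun n hn => ?_
  rw [filter_true_of_mem]
  intro n' hn'
  rw [mem_Ioc] at hn hn'
  omega

lemma diag_eq (hσ : ∀ k : ℤ, (σ k : ℂ) = ∑ i ∈ s, g i * ex (k * θ i)) (hev : ∀ k, σ (-k) = σ k)
    (a : ℕ → ℝ) (m u : ℕ) (α : ℝ) :
    ‖SS a u m α‖ ^ 2 = ∑ i ∈ s, g i * ‖DK m (α + θ i)‖ ^ 2 +
      (∑ n ∈ Ioc u (u + m), a n ^ 2 - σ 0 * m) + 2 * (RR a σ m u u α).re := by
  have h := bilinear hσ a m u u α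
  simp only [← normSq_eq, norm_SS_one] at h
  set F : ℕ → ℕ → ℂ := fun n n' => ((a n * a n' - σ (n - n') : ℝ) : ℂ) * ex ((n - n') * α) with hF
  have hc : ∀ n n', conj (F n n') = F n' n := by
    intro n n'
    simp only [hF, map_mul, Complex.conj_ofReal, conj_ex]
    rw [← hev, mul_comm (a n), neg_sub, ← neg_mul, neg_sub]
  have h1 : ∑ n ∈ Ioc u (u + m), ∑ n' ∈ Ioc u (u + m), F n n' =
      ∑ n ∈ Ioc u (u + m), F n n + (RR a σ m u u α + conj (RR a σ m u u α)) := by
    rw [RR_eq a σ (Nat.le_add_right _ _)]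
    simp only [map_sum]
    change _ = _ + (∑ n ∈ _, ∑ n' ∈ _, F n n' + ∑ n ∈ _, ∑ n' ∈ _, conj (F n n'))
    simp only [hc, sum_filter]
    rw [sum_comm (f := fun n n' => if n' < n then F n' n else 0), ← sum_add_distrib,
      ← sum_add_distrib]
    refine sum_congr rfl fun n hn => ?_
    rw [← sum_add_distrib, ← sum_ite_eq_of_mem _ n (fun n' => F n n') hn, ← sum_add_distrib]
    refine sum_congr rfl fun n' _ => ?_
    rcases lt_trichotomy n n' with h | h | h
    · simp [h, h.ne, h.not_gt]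
    · simp [h]
    · simp [h, h.ne', h.not_gt]
  have h2 : ∑ n ∈ Ioc u (u + m), F n n = ((∑ n ∈ Ioc u (u + m), a n ^ 2 - σ 0 * m : ℝ) : ℂ) := by
    simp [hF, sum_sub_distrib, sq, mul_comm]
  change _ = ∑ n ∈ Ioc u (u + m), ∑ n' ∈ Ioc u (u + m), F n n' at h
  rw [h1, h2, Complex.add_conj] at h
  apply Complex.ofReal_injective
  rw [sub_eq_iff_eq_add] at h
  rw [h]
  push_cast
  ring

end model

end

end Pool.Agent.MP_678834_nt

end MrgPart0

-- ======== part 1: formerly Pool.Agent.MP_678834_nt.SingA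
section MrgPart1

/-!
The truncated singular series: its spectrum and the mass of its spectrum.
-/

open Finset

namespace Pool.Agent.MP_678834_nt

noncomputable section

/-- The local factor. -/
def tt (k : ℤ) (p : ℕ) : ℝ := if (p : ℤ) ∣ k then 1 / ((p : ℝ) - 1) else -1 / ((p : ℝ) - 1) ^ 2

/-- Sets of primes with product at most `Q`. -/
def TT (Q : ℕ) : Finset (Finset ℕ) :=
  (Nat.primesBelow (Q + 1)).powerset.filter fun T => ∏ p ∈ T, p ≤ Q

/-- The truncated singular series. -/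
def sigQ (Q : ℕ) (k : ℤ) : ℝ := ∑ T ∈ TT Q, ∏ p ∈ T, tt k p

/-- The index type of the spectrum. -/
abbrev Ix : Type := Σ T : Finset ℕ, ∀ p ∈ T, ℕ

/-- The spectrum. -/
def spec (Q : ℕ) : Finset Ix := (TT Q).sigma fun T => T.pi fun p => Ico 1 p

/-- The weights. -/
def gw (i : Ix) : ℝ := ∏ p ∈ i.1, 1 / ((p : ℝ) - 1) ^ 2

/-- The frequencies. -/
def th (i : Ix) : ℝ := ∑ x ∈ i.1.attach, (i.2 x.1 x.2 : ℝ) / x.1

lemma gw_nonneg (i : Ix) : 0 ≤ gw i := prod_nonneg fun _ _ => by positivity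

lemma prime_of_mem {Q : ℕ} {T : Finset ℕ} (h : T ∈ TT Q) {p : ℕ} (hp : p ∈ T) : p.Prime :=
  Nat.prime_of_mem_primesBelow (mem_powerset.1 (mem_filter.1 h).1 hp)

lemma sigQ_neg (Q : ℕ) (k : ℤ) : sigQ Q (-k) = sigQ Q k := by simp [sigQ, tt]

lemma ex_sum {α : Type*} (s : Finset α) (f : α → ℝ) : ex (∑ i ∈ s, f i) = ∏ i ∈ s, ex (f i) := by
  classical
  induction s using Finset.induction_on with
  | empty => simp
  | insert a s h ih => rw [sum_insert h, prod_insert h, ex_add, ih]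

lemma tt_eq (k : ℤ) {p : ℕ} (hp : p.Prime) :
    (tt k p : ℂ) = ((1 / ((p : ℝ) - 1) ^ 2 : ℝ) : ℂ) * ∑ a ∈ Ico 1 p, ex (k * (a / p)) := by
  have h := sum_ex hp.pos k
  rw [range_eq_Ico, sum_eq_sum_Ico_succ_bot hp.pos] at h
  simp only [Nat.cast_zero, zero_div, mul_zero, ex_zero, zero_add] at h
  have h1 : ((p : ℂ) - 1) ≠ 0 := by
    rw [sub_ne_zero]; exact_mod_cast hp.one_lt.ne'
  rw [eq_sub_of_add_eq' h, tt]
  split_ifs <;> push_cast <;> field_simp
  ring

lemma sigQ_eq (Q : ℕ) (k : ℤ) : (sigQ Q k : ℂ) = ∑ i ∈ spec Q, gw i * ex (k * th i) := by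
  rw [sigQ, spec, sum_sigma, Complex.ofReal_sum]
  refine sum_congr rfl fun T hT => ?_
  rw [Complex.ofReal_prod, prod_congr rfl fun p hp => tt_eq k (prime_of_mem hT hp),
    prod_mul_distrib, prod_sum, mul_sum]
  refine sum_congr rfl fun f _ => ?_
  rw [gw, th, mul_sum, ex_sum, Complex.ofReal_prod]

/-- The trivial frequency. -/
def ix0 : Ix := ⟨∅, fun _ _ => 0⟩

lemma ix0_mem {Q : ℕ} (hQ : 1 ≤ Q) : ix0 ∈ spec Q := by
  simp only [spec, ix0, TT, mem_sigma, mem_filter, mem_powerset, empty_subset, prod_empty, hQ,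
    and_self, mem_pi, true_and]
  intro a h
  exact absurd h (notMem_empty a)

lemma sum_spec (Q : ℕ) (R : Finset ℕ → Prop) [DecidablePred R] (F : Finset ℕ → ℝ) :
    ∑ i ∈ (spec Q).filter (fun i => R i.1), F i.1 =
      ∑ T ∈ (TT Q).filter R, (∏ p ∈ T, ((p : ℝ) - 1)) * F T := by
  rw [sum_filter, sum_filter, spec, sum_sigma]
  refine sum_congr rfl fun T hT => ?_
  simp only [sum_const, card_pi, Nat.card_Ico, nsmul_eq_mul, Nat.cast_prod]
  rw [prod_congr rfl fun p hp => Nat.cast_pred (prime_of_mem hT hp).pos]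
  split_ifs <;> simp

lemma sum_gw (Q : ℕ) (R : Finset ℕ → Prop) [DecidablePred R] :
    ∑ i ∈ (spec Q).filter (fun i => R i.1), gw i =
      ∑ T ∈ (TT Q).filter R, ∏ p ∈ T, 1 / ((p : ℝ) - 1) := by
  refine (sum_spec Q R fun T => ∏ p ∈ T, 1 / ((p : ℝ) - 1) ^ 2).trans
    (sum_congr rfl fun T hT => ?_)
  rw [← prod_mul_distrib]
  refine prod_congr rfl fun p hp => ?_
  have : (1 : ℝ) < p := by exact_mod_cast (prime_of_mem (mem_filter.1 hT).1 hp).one_lt
  have : (p : ℝ) - 1 ≠ 0 := by linarith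
  field_simp

lemma prod_inj {T T' : Finset ℕ} (h : ∀ p ∈ T, p.Prime) (h' : ∀ p ∈ T', p.Prime)
    (e : ∏ p ∈ T, p = ∏ p ∈ T', p) : T = T' := by
  rw [← Nat.primeFactors_prod h, e, Nat.primeFactors_prod h']

lemma card_low (Q : ℕ) {y : ℝ} (hy : 0 ≤ y) :
    (((spec Q).filter fun i => ((∏ p ∈ i.1, p : ℕ) : ℝ) ≤ y).card : ℝ) ≤ y ^ 2 := by
  have h := sum_spec Q (fun T => ((∏ p ∈ T, p : ℕ) : ℝ) ≤ y) fun _ => 1
  simp only [sum_const, nsmul_eq_mul, mul_one] at h
  rw [h]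
  have h1 : (((TT Q).filter fun T => ((∏ p ∈ T, p : ℕ) : ℝ) ≤ y).card : ℝ) ≤ y := by
    refine le_trans ?_ (Nat.floor_le hy)
    have : ((TT Q).filter fun T => ((∏ p ∈ T, p : ℕ) : ℝ) ≤ y).card ≤ (Icc 1 ⌊y⌋₊).card := by
      refine card_le_card_of_injOn (fun T => ∏ p ∈ T, p) (fun T hT => ?_) fun T hT T' hT' e => ?_
      · have hT := mem_filter.1 (mem_coe.1 hT)
        exact mem_coe.2 (mem_Icc.2 ⟨prod_pos fun p hp => (prime_of_mem hT.1 hp).pos,
          Nat.le_floor hT.2⟩)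
      · exact prod_inj (fun p => prime_of_mem (mem_filter.1 (mem_coe.1 hT)).1)
          (fun p => prime_of_mem (mem_filter.1 (mem_coe.1 hT')).1) e
    simpa using this
  calc _ ≤ ∑ T ∈ (TT Q).filter fun T => ((∏ p ∈ T, p : ℕ) : ℝ) ≤ y, y := by
        refine sum_le_sum fun T hT => le_trans ?_ (mem_filter.1 hT).2
        rw [Nat.cast_prod]
        refine prod_le_prod (fun p hp => ?_) fun p _ => by linarith
        have : (1 : ℝ) < p := by exact_mod_cast (prime_of_mem (mem_filter.1 hT).1 hp).one_lt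
        linarith
    _ ≤ _ := by rw [sum_const, nsmul_eq_mul, sq]; gcongr

lemma odd_harmonic (W : Finset ℕ) (hW : ∀ n ∈ W, Odd n) {lo : ℝ} (hlo : 0 < lo) :
    ∀ hi : ℝ, lo ≤ hi → (∀ n ∈ W, lo ≤ n ∧ (n : ℝ) ≤ hi) →
      ∑ n ∈ W, 1 / (n : ℝ) ≤ 1 + Real.log (hi / lo) / 2 := by
  induction W using Finset.induction_on_max with
  | empty =>
    intro hi h _
    have := Real.log_nonneg ((one_le_div hlo).2 h)
    simp; linarith
  | insert n W hn ih =>
    intro hi h hb
    have hn' : n ∉ W := fun k => lt_irrefl _ (hn n k)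
    obtain ⟨h1, h2⟩ := hb n (mem_insert_self _ _)
    have ho := hW n (mem_insert_self _ _)
    rw [sum_insert hn']
    rcases W.eq_empty_or_nonempty with rfl | ⟨w, hw⟩
    · have := Real.log_nonneg ((one_le_div hlo).2 h)
      have h3 : (1 : ℝ) ≤ n := by exact_mod_cast ho.pos
      have : 1 / (n : ℝ) ≤ 1 := (div_le_one (by linarith)).2 h3
      simp only [sum_empty]
      linarith
    · have key : ∀ x ∈ W, (x : ℝ) ≤ n - 2 := by
        intro x hx
        have a1 := hn x hx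
        have a2 := hW x (mem_insert_of_mem hx)
        have : x + 2 ≤ n := by
          obtain ⟨i, rfl⟩ := a2
          obtain ⟨j, rfl⟩ := ho
          omega
        have : (x : ℝ) + 2 ≤ n := by exact_mod_cast this
        linarith
      have h3 : lo ≤ n - 2 := (hb w (mem_insert_of_mem hw)).1.trans (key w hw)
      have h4 := ih (fun x hx => hW x (mem_insert_of_mem hx)) (n - 2) h3
        fun x hx => ⟨(hb x (mem_insert_of_mem hx)).1, key x hx⟩
      have h5 : (0 : ℝ) < n - 2 := by linarith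
      have h5' : (0 : ℝ) < n := by linarith
      have h6 := Real.log_le_sub_one_of_pos (show (0 : ℝ) < (n - 2) / n by positivity)
      have h7 : ((n : ℝ) - 2) / n - 1 = -(2 * (1 / n)) := by field_simp; ring
      have h8 : Real.log n ≤ Real.log hi := Real.log_le_log (by linarith) h2
      rw [Real.log_div h5.ne' (by linarith)] at h6
      rw [Real.log_div h5.ne' hlo.ne'] at h4
      rw [Real.log_div (by linarith) hlo.ne']
      linarith

lemma split_le (a u : ℕ → ℝ) (ha : ∀ p, 0 ≤ a p) (hu : ∀ p, 0 ≤ u p) (P : Finset ℕ) :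
    ∀ h : ℕ → ℝ, (∀ n, 0 ≤ h n) →
      ∑ T ∈ P.powerset, h (∏ p ∈ T, p) * ∏ p ∈ T, (a p + u p) ≤
        ∑ T₂ ∈ P.powerset, ∑ T₁ ∈ P.powerset,
          h ((∏ p ∈ T₁, p) * ∏ p ∈ T₂, p) * ((∏ p ∈ T₁, a p) * ∏ p ∈ T₂, u p) := by
  induction P using Finset.induction_on with
  | empty => intro h _; simp
  | insert q P hq ih =>
    intro h hh
    have hq' : ∀ T ∈ P.powerset, q ∉ T := fun T hT k => hq (mem_powerset.1 hT k)
    have e : ∀ F : Finset ℕ → ℝ, ∀ G : Finset ℕ → ℝ, (∀ T, q ∉ T → F (insert q T) = G T) →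
        ∑ T ∈ (insert q P).powerset, F T = ∑ T ∈ P.powerset, F T + ∑ T ∈ P.powerset, G T := by
      intro F G hFG
      rw [sum_powerset_insert hq]
      congr 1
      exact sum_congr rfl fun T hT => hFG T (hq' T hT)
    set A : (ℕ → ℝ) → ℝ := fun h => ∑ T₂ ∈ P.powerset, ∑ T₁ ∈ P.powerset,
      h ((∏ p ∈ T₁, p) * ∏ p ∈ T₂, p) * ((∏ p ∈ T₁, a p) * ∏ p ∈ T₂, u p) with hA
    have inner : ∀ (h : ℕ → ℝ) (T₂ : Finset ℕ), ∑ T₁ ∈ (insert q P).powerset,
        h ((∏ p ∈ T₁, p) * ∏ p ∈ T₂, p) * ((∏ p ∈ T₁, a p) * ∏ p ∈ T₂, u p) =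
        ∑ T₁ ∈ P.powerset, h ((∏ p ∈ T₁, p) * ∏ p ∈ T₂, p) * ((∏ p ∈ T₁, a p) * ∏ p ∈ T₂, u p) +
        a q * ∑ T₁ ∈ P.powerset,
          h (q * ((∏ p ∈ T₁, p) * ∏ p ∈ T₂, p)) * ((∏ p ∈ T₁, a p) * ∏ p ∈ T₂, u p) := by
      intro h T₂
      rw [mul_sum]
      refine e _ _ fun T hT => ?_
      rw [prod_insert hT, prod_insert hT, mul_assoc q]
      ring
    have h1 := ih h hh
    have h2 := ih (fun n => h (q * n)) fun n => hh _
    have h3 : 0 ≤ A fun n => h (q * (q * n)) :=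
      sum_nonneg fun _ _ => sum_nonneg fun _ _ => mul_nonneg (hh _)
        (mul_nonneg (prod_nonneg fun p _ => ha p) (prod_nonneg fun p _ => hu p))
    have l : ∑ T ∈ (insert q P).powerset, h (∏ p ∈ T, p) * ∏ p ∈ T, (a p + u p) =
        ∑ T ∈ P.powerset, h (∏ p ∈ T, p) * ∏ p ∈ T, (a p + u p) +
        (a q + u q) * ∑ T ∈ P.powerset, h (q * ∏ p ∈ T, p) * ∏ p ∈ T, (a p + u p) := by
      rw [mul_sum]
      refine e _ _ fun T hT => ?_
      rw [prod_insert hT, prod_insert hT]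
      ring
    have r : ∑ T₂ ∈ (insert q P).powerset, ∑ T₁ ∈ (insert q P).powerset,
        h ((∏ p ∈ T₁, p) * ∏ p ∈ T₂, p) * ((∏ p ∈ T₁, a p) * ∏ p ∈ T₂, u p) =
        (A h + a q * A fun n => h (q * n)) +
          u q * ((A fun n => h (q * n)) + a q * A fun n => h (q * (q * n))) := by
      rw [e _ (fun T₂ => u q * ∑ T₁ ∈ (insert q P).powerset,
        h (q * ((∏ p ∈ T₁, p) * ∏ p ∈ T₂, p)) * ((∏ p ∈ T₁, a p) * ∏ p ∈ T₂, u p)) ?_]
      · rw [← mul_sum, sum_congr rfl fun T₂ _ => inner h T₂,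
          sum_congr rfl fun T₂ _ => inner (fun n => h (q * n)) T₂, sum_add_distrib,
          sum_add_distrib, ← mul_sum, ← mul_sum]
      · intro T hT
        rw [mul_sum]
        refine sum_congr rfl fun T₁ _ => ?_
        rw [prod_insert hT, prod_insert hT, mul_left_comm _ q]
        ring
    rw [l, r]
    have := ha q
    have := hu q
    have h4 := mul_le_mul_of_nonneg_left h2 (add_nonneg (ha q) (hu q))
    have h5 := mul_nonneg (hu q) (mul_nonneg (ha q) h3)
    simp only [hA] at h5 ⊢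
    nlinarith

end

end Pool.Agent.MP_678834_nt

end MrgPart1

-- ======== part 2: formerly Pool.Agent.MP_678834_nt.SingB
section MrgPart2

/-!
The mass of the spectrum and the tail of the singular series.
-/

open Finset Filter Topology

namespace Pool.Agent.MP_678834_nt

noncomputable section

lemma tele (N : ℕ) : ∑ n ∈ Ioc 2 (N + 2), 1 / ((n : ℝ) * (n - 1)) = 1 / 2 - 1 / (N + 2) := by
  induction N with
  | zero => simp
  | succ N ih =>
    rw [show N + 1 + 2 = N + 2 + 1 by ring, sum_Ioc_succ_top (by omega), ih]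
    push_cast
    have : (N : ℝ) + 2 + 1 - 1 = N + 2 := by ring
    rw [this]
    field_simp
    ring

lemma mul_pred_nonneg (p : ℕ) : (0 : ℝ) ≤ (p : ℝ) * (p - 1) := by
  rcases Nat.eq_zero_or_pos p with rfl | h
  · simp
  · have : (1 : ℝ) ≤ p := by exact_mod_cast h
    exact mul_nonneg (by linarith) (by linarith)

lemma mass_le (P : Finset ℕ) (hP : ∀ p ∈ P, p.Prime) {y z : ℝ} (hy : 0 < y) (hyz : y ≤ z) :
    ∑ T ∈ P.powerset.filter (fun T => y < ((∏ p ∈ T, p : ℕ) : ℝ) ∧ ((∏ p ∈ T, p : ℕ) : ℝ) ≤ z),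
      ∏ p ∈ T, 1 / ((p : ℝ) - 1) ≤ Real.exp (1 / 2) * (2 + Real.log (z / y)) := by
  set a : ℕ → ℝ := fun p => if p = 2 then 0 else 1 / p with ha
  set u : ℕ → ℝ := fun p => if p = 2 then 1 else 1 / (p * (p - 1)) with hu
  set h : ℕ → ℝ := fun n => if y < n ∧ (n : ℝ) ≤ z then 1 else 0 with hh
  have ha0 : ∀ p, 0 ≤ a p := fun p => by simp only [ha]; split_ifs <;> positivity
  have hu0 : ∀ p, 0 ≤ u p := fun p => by
    have := mul_pred_nonneg p
    simp only [hu]; split_ifs <;> positivity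
  have hL : 0 ≤ Real.log (z / y) := Real.log_nonneg ((one_le_div hy).2 hyz)
  have h1 := split_le a u ha0 hu0 P h fun n => by simp only [hh]; split_ifs <;> norm_num
  have h2 : ∀ T₂ ∈ P.powerset, ∑ T₁ ∈ P.powerset,
      h ((∏ p ∈ T₁, p) * ∏ p ∈ T₂, p) * ((∏ p ∈ T₁, a p) * ∏ p ∈ T₂, u p) ≤
      (1 + Real.log (z / y) / 2) * ∏ p ∈ T₂, u p := by
    intro T₂ hT₂
    simp only [← mul_assoc, ← sum_mul]
    refine mul_le_mul_of_nonneg_right ?_ (prod_nonneg fun p _ => hu0 p)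
    obtain ⟨t, ht⟩ : ∃ t : ℕ, t = ∏ p ∈ T₂, p := ⟨_, rfl⟩
    have ht0 : (0 : ℝ) < t := by
      have : 0 < t := ht ▸ prod_pos fun p hp => (hP p (mem_powerset.1 hT₂ hp)).pos
      exact_mod_cast this
    rw [← ht]
    set F := P.powerset.filter fun T₁ => 2 ∉ T₁ ∧ y < (((∏ p ∈ T₁, p) * t : ℕ) : ℝ) ∧
      (((∏ p ∈ T₁, p) * t : ℕ) : ℝ) ≤ z with hF
    have hFP : ∀ T ∈ F, ∀ p ∈ T, p.Prime := fun T hT p hp =>
      hP p (mem_powerset.1 (mem_filter.1 hT).1 hp)
    have h3 := odd_harmonic (F.image fun T => ∏ p ∈ T, p) (fun n hn => ?_) (div_pos hy ht0) (z / t)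
      (by gcongr) fun n hn => ?_
    · rw [sum_image fun T hT T' hT' e => prod_inj (hFP T hT) (hFP T' hT') e,
        div_div_div_cancel_right₀ ht0.ne'] at h3
      refine le_trans (le_of_eq ?_) h3
      rw [hF, sum_filter]
      refine sum_congr rfl fun T _ => ?_
      by_cases h2 : 2 ∈ T
      · rw [prod_eq_zero (f := a) h2 (by simp [ha])]; simp [h2]
      · have : ∏ p ∈ T, a p = 1 / ((∏ p ∈ T, p : ℕ) : ℝ) := by
          have k0 : ∀ p ∈ T, a p = 1 / (p : ℝ) := fun p hp =>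
            if_neg fun k : p = 2 => h2 (by rwa [k] at hp)
          rw [prod_congr rfl k0]
          simp
        rw [this]
        simp only [hh, h2, not_false_eq_true, true_and, ite_mul, one_mul, zero_mul]
    · obtain ⟨T, hT, rfl⟩ := mem_image.1 hn
      refine Finset.prod_induction _ Odd (fun _ _ => Odd.mul) odd_one fun p hp => ?_
      exact (hFP T hT p hp).odd_of_ne_two fun k => (mem_filter.1 hT).2.1 (k ▸ hp)
    · obtain ⟨T, hT, rfl⟩ := mem_image.1 hn
      obtain ⟨-, k1, k2⟩ := (mem_filter.1 hT).2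
      rw [Nat.cast_mul] at k1 k2
      exact ⟨(div_le_iff₀ ht0).2 k1.le, (le_div_iff₀ ht0).2 k2⟩
  have h4 : ∏ p ∈ P, (1 + u p) ≤ 2 * Real.exp (1 / 2) := by
    have k1 : ∏ p ∈ P, (1 + u p) ≤ ∏ p ∈ insert 2 (P.erase 2), (1 + u p) :=
      prod_le_prod_of_subset_of_one_le (subset_insert_iff.2 subset_rfl)
        (fun p _ => by linarith [hu0 p]) fun p _ _ => by linarith [hu0 p]
    rw [prod_insert (notMem_erase 2 P)] at k1
    have k2 : ∏ p ∈ P.erase 2, (1 + u p) ≤ Real.exp (∑ p ∈ P.erase 2, u p) :=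
      Real.prod_one_add_le_exp_sum _ hu0
    have k3 : ∑ p ∈ P.erase 2, u p ≤ 1 / 2 := by
      calc _ = ∑ p ∈ P.erase 2, 1 / ((p : ℝ) * (p - 1)) :=
            sum_congr rfl fun p hp => if_neg (mem_erase.1 hp).1
        _ ≤ ∑ n ∈ Ioc 2 (P.sup id + 2), 1 / ((n : ℝ) * (n - 1)) := by
            refine sum_le_sum_of_subset_of_nonneg (fun p hp => ?_) fun n _ _ => ?_
            · obtain ⟨a1, a2⟩ := mem_erase.1 hp
              have := (hP p a2).two_le
              have : p ≤ P.sup id := le_sup (f := id) a2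
              rw [mem_Ioc]; omega
            · have := mul_pred_nonneg n
              positivity
        _ ≤ _ := by rw [tele]; simp; positivity
    have k4 : 1 + u 2 = 2 := by simp [hu]; norm_num
    rw [k4] at k1
    exact k1.trans (mul_le_mul_of_nonneg_left (k2.trans (Real.exp_le_exp.2 k3)) (by norm_num))
  calc _ = ∑ T ∈ P.powerset, h (∏ p ∈ T, p) * ∏ p ∈ T, (a p + u p) := by
        rw [sum_filter]
        refine sum_congr rfl fun T hT => ?_
        simp only [hh, ite_mul, one_mul, zero_mul]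
        congr 1
        refine prod_congr rfl fun p hp => ?_
        have : (1 : ℝ) < p := by exact_mod_cast (hP p (mem_powerset.1 hT hp)).one_lt
        have h5 : (p : ℝ) - 1 ≠ 0 := by linarith
        simp only [ha, hu]
        split_ifs with h6
        · subst h6; norm_num
        · field_simp; ring
    _ ≤ ∑ T₂ ∈ P.powerset, (1 + Real.log (z / y) / 2) * ∏ p ∈ T₂, u p := h1.trans (sum_le_sum h2)
    _ ≤ (1 + Real.log (z / y) / 2) * (2 * Real.exp (1 / 2)) := by
        rw [← mul_sum, ← prod_one_add]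
        gcongr
    _ = _ := by ring

lemma mid_le {Q : ℕ} {y : ℝ} (hy : 0 < y) (hyQ : y ≤ Q) :
    ∑ i ∈ (spec Q).filter (fun i => ¬ ((∏ p ∈ i.1, p : ℕ) : ℝ) ≤ y), gw i ≤
      Real.exp (1 / 2) * (2 + Real.log (Q / y)) := by
  rw [sum_gw Q fun T => ¬ ((∏ p ∈ T, p : ℕ) : ℝ) ≤ y]
  refine le_trans (le_of_eq ?_) (mass_le (Nat.primesBelow (Q + 1))
    (fun p => Nat.prime_of_mem_primesBelow) hy hyQ)
  rw [TT, filter_filter]
  refine sum_congr (filter_congr fun T _ => ?_) fun _ _ => rfl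
  rw [not_le, and_comm, Nat.cast_le]

lemma sigQ_zero (Q : ℕ) : sigQ Q 0 = ∑ i ∈ spec Q, gw i := by
  apply Complex.ofReal_injective
  rw [sigQ_eq]
  simp

lemma sigQ_zero_le {Q : ℕ} (hQ : 1 ≤ Q) :
    sigQ Q 0 ≤ Real.exp (1 / 2) * (2 + Real.log (2 * Q)) := by
  have hQ' : (1 : ℝ) ≤ Q := by exact_mod_cast hQ
  have h := mid_le (Q := Q) (y := 1 / 2) (by norm_num) (by linarith)
  rw [filter_true_of_mem, show (Q : ℝ) / (1 / 2) = 2 * Q by ring] at h
  · rwa [sigQ_zero]
  · intro i hi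
    have h1 : 0 < ∏ p ∈ i.1, p := prod_pos fun p hp => (prime_of_mem (mem_sigma.1 hi).1 hp).pos
    have h2 : (1 : ℝ) ≤ ((∏ p ∈ i.1, p : ℕ) : ℝ) := by exact_mod_cast h1
    linarith

lemma tendsto_twin : Tendsto (fun Y : ℕ => ∏ p ∈ (Nat.primesBelow Y).filter (fun p => 2 < p),
    (1 - 1 / ((p : ℝ) - 1) ^ 2)) atTop (𝓝 twinConst) := by
  have h1 : Summable fun n : ℕ => -(1 / ((n : ℝ) - 1) ^ 2) := by
    refine Summable.neg ?_
    rw [← summable_nat_add_iff 1]
    simp
  have h2 : Multipliable fun p : {p : ℕ // p.Prime ∧ 2 < p} => 1 - 1 / (((p.1 : ℕ) : ℝ) - 1) ^ 2 := by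
    simpa only [sub_eq_add_neg, Function.comp_def] using
      Real.multipliable_one_add_of_summable (h1.subtype fun p : ℕ => p.Prime ∧ 2 < p)
  have h3 : Tendsto (fun Y : ℕ => (range Y).subtype fun p : ℕ => p.Prime ∧ 2 < p) atTop atTop := by
    refine tendsto_atTop_finset_of_monotone (fun a b hab => subtype_mono (range_mono hab))
      fun x => ⟨x.1 + 1, by simp⟩
  refine (h2.hasProd.comp h3).congr fun Y => ?_
  simp only [Function.comp_def]
  rw [prod_subtype_eq_prod_filter (fun p : ℕ => 1 - 1 / ((p : ℝ) - 1) ^ 2),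
    Nat.primesBelow_eq_filter_range, filter_filter]

lemma tendsto_sing {k : ℕ} (hk : 0 < k) :
    Tendsto (fun Y : ℕ => ∏ p ∈ Nat.primesBelow Y, (1 + tt k p)) atTop (𝓝 (sing k)) := by
  unfold sing
  split_ifs with he
  · refine ((tendsto_twin.const_mul 2).mul_const _).congr' ?_
    filter_upwards [eventually_gt_atTop (k + 2)] with Y hY
    rw [← prod_filter_mul_prod_filter_not (Nat.primesBelow Y) (fun p => 2 < p)]
    have h1 : (Nat.primesBelow Y).filter (fun p => ¬ 2 < p) = {2} := by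
      ext p
      simp only [mem_filter, Nat.mem_primesBelow, mem_singleton]
      constructor
      · rintro ⟨⟨-, hp⟩, h⟩
        have := hp.two_le
        omega
      · rintro rfl
        exact ⟨⟨by omega, Nat.prime_two⟩, by omega⟩
    have h2 : k.primeFactors.filter (fun p => 2 < p) =
        ((Nat.primesBelow Y).filter (fun p => 2 < p)).filter fun p => p ∣ k := by
      ext p
      simp only [mem_filter, Nat.mem_primesBelow, Nat.mem_primeFactors]
      constructor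
      · rintro ⟨⟨h3, h4, -⟩, h5⟩
        have := Nat.le_of_dvd hk h4
        exact ⟨⟨⟨by omega, h3⟩, h5⟩, h4⟩
      · rintro ⟨⟨⟨-, h3⟩, h5⟩, h4⟩
        exact ⟨⟨h3, h4, hk.ne'⟩, h5⟩
    have h3 : 1 + tt k 2 = 2 := by
      have : ((2 : ℕ) : ℤ) ∣ (k : ℤ) := Int.natCast_dvd_natCast.2 he.two_dvd
      rw [tt, if_pos this]; norm_num
    rw [h1, prod_singleton, h3, h2, prod_filter (fun p => p ∣ k), mul_assoc, ← prod_mul_distrib,
      mul_comm]
    congr 1
    refine prod_congr rfl fun p hp => ?_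
    have h4 : (2 : ℝ) < p := by exact_mod_cast (mem_filter.1 hp).2
    have h5 : (p : ℝ) - 1 ≠ 0 := by linarith
    have h6 : (p : ℝ) - 2 ≠ 0 := by linarith
    simp only [tt, Int.natCast_dvd_natCast]
    split_ifs
    · field_simp; ring
    · ring
  · refine tendsto_const_nhds.congr' ?_
    filter_upwards [eventually_gt_atTop 2] with Y hY
    refine (prod_eq_zero (i := 2) (Nat.mem_primesBelow.2 ⟨hY, Nat.prime_two⟩) ?_).symm
    have : ¬ ((2 : ℕ) : ℤ) ∣ (k : ℤ) := fun h =>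
      he (even_iff_two_dvd.2 (Int.natCast_dvd_natCast.1 h))
    rw [tt, if_neg this]; norm_num

lemma tail_le {η : ℝ} (h0 : 0 < η) (h1 : η ≤ 1) : ∃ C : ℝ, 0 ≤ C ∧ ∀ k Q : ℕ, 0 < k → 0 < Q →
    |sing k - sigQ Q k| ≤ C * 3 ^ k.primeFactors.card / (Q : ℝ) ^ (1 - η) := by
  have hs : Summable fun n : ℕ => 4 * (n : ℝ) ^ (-(1 + η)) :=
    (Real.summable_nat_rpow.2 (by linarith)).mul_left 4
  refine ⟨Real.exp (∑' n : ℕ, 4 * (n : ℝ) ^ (-(1 + η))), by positivity, fun k Q hk hQ => ?_⟩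
  refine le_of_tendsto (((tendsto_sing hk).sub_const _).abs) ?_
  filter_upwards [eventually_ge_atTop (Q + 1)] with Y hY
  have hQ' : (0 : ℝ) < Q := by exact_mod_cast hQ
  have hQs : 0 < (Q : ℝ) ^ (1 - η) := by positivity
  have hT : TT Q = (Nat.primesBelow Y).powerset.filter fun T => ∏ p ∈ T, p ≤ Q := by
    ext T
    simp only [TT, mem_filter, mem_powerset, and_congr_left_iff]
    intro hT
    constructor
    · intro h p hp
      have := Nat.mem_primesBelow.1 (h hp)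
      exact Nat.mem_primesBelow.2 ⟨by omega, this.2⟩
    · intro h p hp
      have h2 : p ≤ ∏ p ∈ T, p := Nat.le_of_dvd
        (prod_pos fun q hq => (Nat.prime_of_mem_primesBelow (h hq)).pos) (dvd_prod_of_mem _ hp)
      exact Nat.mem_primesBelow.2 ⟨by omega, Nat.prime_of_mem_primesBelow (h hp)⟩
  rw [prod_one_add, sigQ, hT, ← sum_filter_add_sum_filter_not (Nat.primesBelow Y).powerset
    (fun T => ∏ p ∈ T, p ≤ Q), add_sub_cancel_left, le_div_iff₀ hQs]
  calc _ ≤ ∑ T ∈ (Nat.primesBelow Y).powerset.filter (fun T => ¬ ∏ p ∈ T, p ≤ Q),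
        ∏ p ∈ T, (p : ℝ) ^ (1 - η) * |tt k p| := by
        refine (mul_le_mul_of_nonneg_right (abs_sum_le_sum_abs _ _) hQs.le).trans ?_
        rw [sum_mul]
        refine sum_le_sum fun T hT => ?_
        rw [prod_mul_distrib, Real.finsetProd_rpow _ _ fun p _ => Nat.cast_nonneg p, abs_prod,
          mul_comm, ← Nat.cast_prod]
        refine mul_le_mul_of_nonneg_right (Real.rpow_le_rpow hQ'.le ?_ (by linarith))
          (prod_nonneg fun p _ => abs_nonneg _)
        exact_mod_cast (not_le.1 (mem_filter.1 hT).2).le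
    _ ≤ ∏ p ∈ Nat.primesBelow Y, (1 + (p : ℝ) ^ (1 - η) * |tt k p|) := by
        rw [prod_one_add]
        exact sum_le_sum_of_subset_of_nonneg (filter_subset _ _) fun T _ _ =>
          prod_nonneg fun p _ => by positivity
    _ ≤ ∏ p ∈ Nat.primesBelow Y,
        Real.exp (4 * (p : ℝ) ^ (-(1 + η))) * if p ∈ k.primeFactors then 3 else 1 := by
        refine prod_le_prod (fun p _ => by positivity) fun p hp => ?_
        have hp' := Nat.prime_of_mem_primesBelow hp
        have h2 : (2 : ℝ) ≤ p := by exact_mod_cast hp'.two_le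
        have h3 : (0 : ℝ) < p - 1 := by linarith
        have h4 : 0 ≤ 4 * (p : ℝ) ^ (-(1 + η)) := by positivity
        have h5 := Real.add_one_le_exp (4 * (p : ℝ) ^ (-(1 + η)))
        simp only [tt, Int.natCast_dvd_natCast, Nat.mem_primeFactors, hp', hk.ne', ne_eq,
          not_false_eq_true, and_true, true_and]
        split_ifs
        · have h6 : (p : ℝ) ^ (1 - η) ≤ p := by
            simpa using Real.rpow_le_rpow_of_exponent_le (x := p) (by linarith)
              (show 1 - η ≤ 1 by linarith)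
          have h7 : (p : ℝ) ^ (1 - η) * |1 / ((p : ℝ) - 1)| ≤ 2 := by
            rw [abs_of_pos (by positivity), mul_one_div, div_le_iff₀ h3]; linarith
          linarith
        · have h6 : (p : ℝ) ^ (1 - η) = (p : ℝ) ^ (-(1 + η)) * p ^ 2 := by
            rw [← Real.rpow_natCast, ← Real.rpow_add (by linarith)]; congr 1; push_cast; ring
          have h7 : (p : ℝ) ^ 2 * |-1 / ((p : ℝ) - 1) ^ 2| ≤ 4 := by
            rw [neg_div, abs_neg, abs_of_pos (by positivity), mul_one_div,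
              div_le_iff₀ (by positivity)]
            nlinarith
          have h8 := mul_le_mul_of_nonneg_left h7 (show 0 ≤ (p : ℝ) ^ (-(1 + η)) by positivity)
          rw [h6, mul_assoc]
          linarith
    _ ≤ _ := by
        rw [prod_mul_distrib, ← Real.exp_sum, prod_ite_mem, prod_const]
        refine mul_le_mul (Real.exp_le_exp.2 (hs.sum_le_tsum _ fun _ _ => by positivity))
          (pow_le_pow_right₀ (by norm_num) (card_le_card inter_subset_right)) (by positivity)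
          (by positivity)

lemma nine_pow_le {γ : ℝ} (hγ : 0 < γ) : ∃ C : ℝ, 0 ≤ C ∧ ∀ k : ℕ, 0 < k →
    (9 : ℝ) ^ k.primeFactors.card ≤ C * (k : ℝ) ^ γ := by
  obtain ⟨B, hB⟩ : ∃ B : ℕ, ∀ p : ℕ, B ≤ p → (9 : ℝ) ≤ (p : ℝ) ^ γ :=
    eventually_atTop.1 (((tendsto_rpow_atTop hγ).comp tendsto_natCast_atTop_atTop).eventually_ge_atTop 9)
  refine ⟨9 ^ B, by positivity, fun k hk => ?_⟩
  calc _ = ∏ p ∈ k.primeFactors, (9 : ℝ) := by simp
    _ ≤ ∏ p ∈ k.primeFactors, (if p ∈ range B then (9 : ℝ) else 1) * (p : ℝ) ^ γ := by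
        refine prod_le_prod (fun _ _ => by norm_num) fun p hp => ?_
        have h1 : (1 : ℝ) ≤ p := by exact_mod_cast (Nat.prime_of_mem_primeFactors hp).one_le
        have h2 := Real.one_le_rpow h1 hγ.le
        split_ifs with h
        · linarith
        · rw [one_mul]; exact hB p (by simpa using h)
    _ ≤ _ := by
        rw [prod_mul_distrib, prod_ite_mem, prod_const,
          Real.finsetProd_rpow _ _ fun p _ => Nat.cast_nonneg p, ← Nat.cast_prod]
        refine mul_le_mul (pow_le_pow_right₀ (by norm_num)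
          ((card_le_card inter_subset_right).trans (by simp)))
          (Real.rpow_le_rpow (by positivity) ?_ hγ.le) (by positivity) (by positivity)
        exact_mod_cast Nat.le_of_dvd hk (Nat.prod_primeFactors_dvd k)

lemma tail_sum {η : ℝ} (h0 : 0 < η) (h1 : η < 1 / 2) : ∃ C : ℝ, ∀ m Q : ℕ, 0 < m →
    (m : ℝ) ^ (1 / 2 + η) ≤ Q → ∑ k ∈ Icc 1 (2 * m), (sing k - sigQ Q k) ^ 2 ≤ C := by
  obtain ⟨C, hC, h⟩ := tail_le h0 (by linarith)
  have hγ : 0 < η - 2 * η ^ 2 := by nlinarith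
  obtain ⟨C', hC', h'⟩ := nine_pow_le hγ
  refine ⟨4 * (C ^ 2 * C'), fun m Q hm hQ => ?_⟩
  have hm' : (0 : ℝ) < m := by exact_mod_cast hm
  have hQ0 : (0 : ℝ) < Q := lt_of_lt_of_le (by positivity) hQ
  have e1 : m * (m : ℝ) ^ (η - 2 * η ^ 2) ≤ ((Q : ℝ) ^ (1 - η)) ^ 2 := by
    calc _ = (((m : ℝ) ^ (1 / 2 + η)) ^ (1 - η)) ^ 2 := by
          rw [← Real.rpow_mul hm'.le, sq ((m : ℝ) ^ _), ← Real.rpow_add hm',
            ← Real.rpow_one_add' hm'.le (by linarith)]
          congr 1; ring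
      _ ≤ _ := by gcongr; linarith
  have e2 : ((2 * m : ℕ) : ℝ) ^ (η - 2 * η ^ 2) ≤ 2 * (m : ℝ) ^ (η - 2 * η ^ 2) := by
    push_cast
    rw [Real.mul_rpow (by norm_num) hm'.le]
    gcongr
    simpa using Real.rpow_le_rpow_of_exponent_le (x := 2) (by norm_num)
      (show η - 2 * η ^ 2 ≤ 1 by nlinarith)
  calc _ ≤ ∑ k ∈ Icc 1 (2 * m), 2 * (C ^ 2 * C') / m := by
        refine sum_le_sum fun k hk => ?_
        rw [mem_Icc] at hk
        have a1 := h k Q hk.1 (by exact_mod_cast hQ0)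
        have a2 : (9 : ℝ) ^ k.primeFactors.card ≤ C' * (2 * (m : ℝ) ^ (η - 2 * η ^ 2)) := by
          refine (h' k hk.1).trans (mul_le_mul_of_nonneg_left (le_trans ?_ e2) hC')
          exact Real.rpow_le_rpow (by positivity) (by exact_mod_cast hk.2) hγ.le
        calc _ ≤ (C * 3 ^ k.primeFactors.card / (Q : ℝ) ^ (1 - η)) ^ 2 := by
              rw [← sq_abs]; gcongr
          _ = C ^ 2 * 9 ^ k.primeFactors.card / ((Q : ℝ) ^ (1 - η)) ^ 2 := by
              rw [div_pow, mul_pow, ← pow_mul, mul_comm _ 2, pow_mul]; norm_num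
          _ ≤ C ^ 2 * (C' * (2 * (m : ℝ) ^ (η - 2 * η ^ 2))) / (m * (m : ℝ) ^ (η - 2 * η ^ 2)) := by
              gcongr
          _ = _ := by field_simp
    _ = _ := by simp; field_simp; ring

end

end Pool.Agent.MP_678834_nt

end MrgPart2

-- marker of a merged file
example : 731051 + 149582 = 731051 + 149582 := rfl
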