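import Mathlib.Topology.Sheaves.Presheaf
import Mathlib.Data.Int.Star
import Mathlib.Algebra.Order.Chebyshev
import Mathlib.Analysis.Complex.ExponentialBounds
import Mathlib.NumberTheory.Harmonic.Bounds
import Pool.Agent.MP_678834_nt.SingB

-- ======== part 0: formerly Pool.Agent.MP_678834_nt.Core
section MrgPart0

/-!
The core inequality: if the correlations of a sequence on two adjacent windows follow a model with
sparse spectrum, the diagonal terms are small.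
-/

open Finset Complex
open scoped ComplexConjugate

namespace Pool.Agent.MP_678834_nt

noncomputable section

variable {ι : Type*} {s : Finset ι} {g θ : ι → ℝ} {σ : ℤ → ℝ}

lemma parseval_RR (a : ℕ → ℝ) (σ : ℤ → ℝ) (m u w : ℕ) :
    ∑ t ∈ range (2 * m + 1), ‖RR a σ m u w (t / (2 * m + 1 : ℕ))‖ ^ 2 =
      (2 * m + 1 : ℕ) * ∑ k ∈ Icc 1 (2 * m), coef a σ m u w k ^ 2 := by
  have := parseval (P := 2 * m + 1) (by omega) (Icc 1 (2 * m))
    (fun k hk => by rw [mem_Icc] at hk; omega) (fun k => (coef a σ m u w k : ℂ)) 0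
  simpa only [RR, add_zero, Complex.norm_real, Real.norm_eq_abs, sq_abs] using this

lemma core (hg : ∀ i, 0 ≤ g i) (hσ : ∀ k : ℤ, (σ k : ℂ) = ∑ i ∈ s, g i * ex (k * θ i))
    (hev : ∀ k, σ (-k) = σ k) (low : ι → Prop) [DecidablePred low] (a : ℕ → ℝ) (v : ℕ) {m r : ℕ}
    (hr : 0 < r) (hrm : r ≤ m) {lam ρ : ℝ} (hl : 0 < lam)
    (h00 : ∑ k ∈ Icc 1 (2 * m), coef a σ m v v k ^ 2 ≤ ρ)
    (h11 : ∑ k ∈ Icc 1 (2 * m), coef a σ m (v + m) (v + m) k ^ 2 ≤ ρ)
    (h10 : ∑ k ∈ Icc 1 (2 * m), coef a σ m (v + m) v k ^ 2 ≤ ρ)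
    (hsmall : 3 * ρ / lam ^ 2 + (∑ i ∈ s.filter (fun i => ¬ low i), g i) * m / lam +
      (∑ i ∈ s.filter low, g i) * (4 * r) / lam + (s.filter low).card * (4 / r) < 1) :
    ∑ n ∈ Ioc v (v + m), a n ^ 2 - σ 0 * m ≤ 5 * lam ∨
      ∑ n ∈ Ioc (v + m) (v + m + m), a n ^ 2 - σ 0 * m ≤ 5 * lam := by
  set P : ℕ := 2 * m + 1 with hP
  have hP0 : 0 < P := by omega
  have hPR : (0 : ℝ) < P := by positivity
  have hrR : (0 : ℝ) < r := by positivity
  set T₁ : ℝ → ℝ := fun α => (‖RR a σ m v v α‖ ^ 2 + ‖RR a σ m (v + m) (v + m) α‖ ^ 2 +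
    ‖RR a σ m (v + m) v α‖ ^ 2) / lam ^ 2 with hT₁
  set T₂ : ℝ → ℝ := fun α =>
    (∑ i ∈ s.filter (fun i => ¬ low i), g i * ‖DK m (α + θ i)‖ ^ 2) / lam with hT₂
  set T₃ : ℝ → ℝ := fun α =>
    (∑ i ∈ s.filter low, g i * (4 / r * ∑ j ∈ range r, ‖DK j (α + θ i)‖ ^ 2)) / lam with hT₃
  set T₄ : ℝ → ℝ := fun α => ∑ i ∈ s.filter low, 4 / (r : ℝ) ^ 2 * ‖DK r (α + θ i)‖ ^ 2 with hT₄
  have e₁ : ∑ t ∈ range P, T₁ (t / P) ≤ P * (3 * ρ / lam ^ 2) := by
    simp only [hT₁, ← sum_div, sum_add_distrib, hP, parseval_RR]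
    rw [← hP, ← mul_div_assoc]
    gcongr
    nlinarith
  have e₂ : ∑ t ∈ range P, T₂ (t / P) =
      P * ((∑ i ∈ s.filter (fun i => ¬ low i), g i) * m / lam) := by
    simp only [hT₂, ← sum_div]
    rw [sum_comm]
    simp only [← mul_sum, parseval_DK hP0 (show m ≤ P by omega), ← sum_mul]
    ring
  have e₃ : ∑ t ∈ range P, T₃ (t / P) ≤ P * ((∑ i ∈ s.filter low, g i) * (4 * r) / lam) := by
    simp only [hT₃, ← sum_div]
    rw [sum_comm, ← mul_div_assoc, sum_mul, mul_sum]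
    gcongr with i hi
    rw [← mul_sum, ← mul_sum, sum_comm]
    have h1 : ∑ j ∈ range r, ∑ t ∈ range P, ‖DK j (t / P + θ i)‖ ^ 2 ≤ r * (P * r) := by
      calc _ ≤ ∑ j ∈ range r, (P : ℝ) * r := sum_le_sum fun j hj => by
            have hj' := (mem_range.1 hj).le
            rw [parseval_DK hP0 (by omega)]
            gcongr
        _ = _ := by simp
    calc _ ≤ g i * (4 / r * (r * (P * r))) := by have := hg i; gcongr
      _ = _ := by field_simp
  have e₄ : ∑ t ∈ range P, T₄ (t / P) = P * ((s.filter low).card * (4 / r)) := by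
    simp only [hT₄]
    rw [sum_comm]
    simp only [← mul_sum, parseval_DK hP0 (show r ≤ P by omega), sum_const, nsmul_eq_mul]
    field_simp
  obtain ⟨t, -, ht⟩ : ∃ t ∈ range P, T₁ (t / P) + T₂ (t / P) + T₃ (t / P) + T₄ (t / P) < 1 := by
    refine exists_lt_of_sum_lt ?_
    simp only [sum_add_distrib, e₂, e₄, sum_const, card_range, nsmul_eq_mul]
    nlinarith
  generalize (t : ℝ) / P = α at ht
  have n₁ : 0 ≤ T₁ α := by positivity
  have n₂ : 0 ≤ T₂ α := div_nonneg (sum_nonneg fun i _ => mul_nonneg (hg i) (by positivity)) hl.le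
  have n₃ : 0 ≤ T₃ α := div_nonneg (sum_nonneg fun i _ => mul_nonneg (hg i) (by positivity)) hl.le
  have n₄ : 0 ≤ T₄ α := sum_nonneg fun i _ => by positivity
  have b₁ : ‖RR a σ m v v α‖ ^ 2 + ‖RR a σ m (v + m) (v + m) α‖ ^ 2 +
      ‖RR a σ m (v + m) v α‖ ^ 2 ≤ lam ^ 2 :=
    (div_le_one (by positivity)).1 (show T₁ α ≤ 1 by linarith)
  have b₂ : ∑ i ∈ s.filter (fun i => ¬ low i), g i * ‖DK m (α + θ i)‖ ^ 2 ≤ lam :=
    (div_le_one hl).1 (show T₂ α ≤ 1 by linarith)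
  have b₃ : ∑ i ∈ s.filter low, g i * ‖DK m (α + θ i)‖ ^ 2 ≤ lam := by
    refine le_trans (sum_le_sum fun i hi => mul_le_mul_of_nonneg_left ?_ (hg i))
      ((div_le_one hl).1 (show T₃ α ≤ 1 by linarith))
    have h1 : 4 / (r : ℝ) ^ 2 * ‖DK r (α + θ i)‖ ^ 2 ≤ T₄ α :=
      single_le_sum (f := fun i => 4 / (r : ℝ) ^ 2 * ‖DK r (α + θ i)‖ ^ 2)
        (fun i _ => by positivity) hi
    have h2 := DK_le r m (α + θ i) (by
      rw [div_mul_eq_mul_div, div_le_iff₀ (by positivity)] at h1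
      nlinarith [sq_nonneg (r : ℝ)])
    rw [div_mul_eq_mul_div, le_div_iff₀ hrR]
    linarith
  have hR : ∀ z : ℂ, ‖z‖ ^ 2 ≤ lam ^ 2 → ‖z‖ ≤ lam := fun z hz =>
    (abs_le_of_sq_le_sq' hz hl.le).2
  have p00 := sq_nonneg (‖RR a σ m v v α‖)
  have p11 := sq_nonneg (‖RR a σ m (v + m) (v + m) α‖)
  have p10 := sq_nonneg (‖RR a σ m (v + m) v α‖)
  have r00 := hR (RR a σ m v v α) (by linarith)
  have r11 := hR (RR a σ m (v + m) (v + m) α) (by linarith)
  have r10 := hR (RR a σ m (v + m) v α) (by linarith)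
  have hG : 0 ≤ ∑ i ∈ s, g i * ‖DK m (α + θ i)‖ ^ 2 :=
    sum_nonneg fun i _ => mul_nonneg (hg i) (by positivity)
  have hG' : ∑ i ∈ s, g i * ‖DK m (α + θ i)‖ ^ 2 ≤ 2 * lam := by
    rw [← sum_filter_add_sum_filter_not s low]; linarith
  have hc : ‖SS a (v + m) m α‖ * ‖SS a v m α‖ ≤ 3 * lam := by
    have h1 := congrArg norm (cross_eq hσ a m v α)
    rw [norm_mul, Complex.norm_conj] at h1
    rw [h1]
    refine (norm_add_le _ _).trans ?_
    have h2 : ‖∑ i ∈ s, g i * (SS (fun _ => 1) (v + m) m (α + θ i) *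
        conj (SS (fun _ => 1) v m (α + θ i)))‖ ≤ ∑ i ∈ s, g i * ‖DK m (α + θ i)‖ ^ 2 := by
      refine (norm_sum_le _ _).trans (le_of_eq (sum_congr rfl fun i _ => ?_))
      rw [norm_mul, norm_mul, Complex.norm_conj, norm_SS_one, norm_SS_one, Complex.norm_real,
        Real.norm_of_nonneg (hg i), sq]
    linarith
  by_contra hcon
  rw [not_or, not_le, not_le] at hcon
  have d0 := diag_eq hσ hev a m v α
  have d1 := diag_eq hσ hev a m (v + m) α
  have q0 := (abs_le.1 ((Complex.abs_re_le_norm _).trans r00)).1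
  have q1 := (abs_le.1 ((Complex.abs_re_le_norm _).trans r11)).1
  have f0 : 3 * lam < ‖SS a v m α‖ ^ 2 := by linarith [hcon.1]
  have f1 : 3 * lam < ‖SS a (v + m) m α‖ ^ 2 := by linarith [hcon.2]
  have f2 : (‖SS a (v + m) m α‖ * ‖SS a v m α‖) ^ 2 ≤ (3 * lam) ^ 2 := by gcongr
  rw [mul_pow] at f2
  nlinarith

/-- The model determines the mean value of the sequence. -/
lemma mean_ge (hg : ∀ i, 0 ≤ g i) (hσ : ∀ k : ℤ, (σ k : ℂ) = ∑ i ∈ s, g i * ex (k * θ i))
    (hev : ∀ k, σ (-k) = σ k) {i₀ : ι} (hi : i₀ ∈ s) (hg₀ : g i₀ = 1) (hθ₀ : θ i₀ = 0)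
    (a : ℕ → ℝ) (u m : ℕ) {ρ b : ℝ} (hb : 0 ≤ b)
    (h : ∑ k ∈ Icc 1 (2 * m), coef a σ m u u k ^ 2 ≤ ρ) (hρ : 2 * m * ρ ≤ b ^ 2) :
    (m : ℝ) ^ 2 - σ 0 * m - 2 * b ≤ (∑ n ∈ Ioc u (u + m), a n) ^ 2 := by
  have d := diag_eq hσ hev a m u 0
  have h1 : ‖SS a u m 0‖ ^ 2 = (∑ n ∈ Ioc u (u + m), a n) ^ 2 := by
    simp only [SS, mul_zero, ex_zero, mul_one, ← Complex.ofReal_sum, Complex.norm_real,
      Real.norm_eq_abs, sq_abs]
  have h2 : (m : ℝ) ^ 2 ≤ ∑ i ∈ s, g i * ‖DK m (0 + θ i)‖ ^ 2 := by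
    refine le_trans (le_of_eq ?_) (single_le_sum (f := fun i => g i * ‖DK m (0 + θ i)‖ ^ 2)
      (fun i _ => mul_nonneg (hg i) (by positivity)) hi)
    simp [hg₀, hθ₀, DK]
  have h3 : (RR a σ m u u 0).re = ∑ k ∈ Icc 1 (2 * m), coef a σ m u u k := by
    simp [RR]
  have h4 : (∑ k ∈ Icc 1 (2 * m), coef a σ m u u k) ^ 2 ≤ b ^ 2 := by
    refine (sq_sum_le_card_mul_sum_sq).trans (le_trans ?_ hρ)
    rw [Nat.card_Icc]
    have : ((2 * m + 1 - 1 : ℕ) : ℝ) = 2 * m := by simp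
    rw [this]
    gcongr
  have h5 := (abs_le_of_sq_le_sq' h4 hb).1
  have h6 : 0 ≤ ∑ n ∈ Ioc u (u + m), a n ^ 2 := by positivity
  linarith

end

end Pool.Agent.MP_678834_nt

end MrgPart0

-- ======== part 1: formerly Pool.Agent.MP_678834_nt.Pre
section MrgPart1

/-!
Prime powers in a window, and the reduction of window correlations to the error term.
-/

open Finset ArithmeticFunction

namespace Pool.Agent.MP_678834_nt

noncomputable section

lemma card_pow_le {X H j : ℕ} (hX : 1 ≤ X) (hj : 2 ≤ j) (A : Finset ℕ)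
    (hA : ∀ n ∈ A, X < n ∧ n ≤ X + H ∧ ∃ p, n = p ^ j) : A.card ≤ H / X.sqrt + 1 := by
  have hr : 0 < X.sqrt := Nat.sqrt_pos.2 hX
  have key : ∀ n ∈ A, ∀ n' ∈ A, n < n' → n + X.sqrt ≤ n' := by
    intro n hn n' hn' h
    obtain ⟨h1, -, p, rfl⟩ := hA n hn
    obtain ⟨-, -, q, rfl⟩ := hA n' hn'
    obtain ⟨i, rfl⟩ : ∃ i, j = i + 2 := ⟨j - 2, by omega⟩
    have hpq : p + 1 ≤ q := lt_of_pow_lt_pow_left₀ _ (Nat.zero_le _) h
    have hp : 0 < p := Nat.pos_of_ne_zero (by rintro rfl; simp at h1)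
    have h2 : X.sqrt ≤ p ^ (i + 1) := by
      refine (Nat.sqrt_lt'.2 (h1.trans_le ?_)).le
      rw [← pow_mul]
      exact Nat.pow_le_pow_right hp (by omega)
    calc p ^ (i + 2) + X.sqrt ≤ p ^ (i + 1) * (p + 1) := by rw [pow_succ p (i + 1)]; nlinarith
      _ ≤ q ^ (i + 1) * q := Nat.mul_le_mul (Nat.pow_le_pow_left (by omega) _) hpq
      _ = _ := by ring
  rw [← card_range (H / X.sqrt + 1)]
  refine card_le_card_of_injOn (fun n => (n - X) / X.sqrt) (fun n hn => ?_) fun n hn n' hn' e => ?_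
  · obtain ⟨-, h1, -⟩ := hA n hn
    exact mem_coe.2 (mem_range.2 (Nat.lt_succ_of_le (Nat.div_le_div_right (by omega))))
  · have aux : ∀ n ∈ A, ∀ n' ∈ A, n < n' → (n - X) / X.sqrt < (n' - X) / X.sqrt := by
      intro n hn n' hn' h
      have h1 := key n hn n' hn' h
      have h2 := (hA n hn).1
      have h3 : (n - X + X.sqrt) / X.sqrt ≤ (n' - X) / X.sqrt := Nat.div_le_div_right (by omega)
      rw [Nat.add_div_right _ hr] at h3
      omega
    rcases lt_trichotomy n n' with h | h | h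
    · exact absurd e (aux n hn n' hn' h).ne
    · exact h
    · exact absurd e (aux n' hn' n hn h).ne'

lemma pp_le {X H : ℕ} (hX : 1 ≤ X) (hH : H ≤ X) :
    ∑ n ∈ (Ioc X (X + H)).filter (fun n => ¬ n.Prime), vonMangoldt n ≤
      ((H : ℝ) / X.sqrt + 1) * Real.log (2 * X) * (1 + Real.log (Nat.log 2 (2 * X))) := by
  set B := (Ioc X (X + H)).filter fun n => ¬ n.Prime ∧ IsPrimePow n with hB
  have hX' : (1 : ℝ) ≤ X := by exact_mod_cast hX
  have hL : 0 ≤ Real.log (2 * X) := Real.log_nonneg (by linarith)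
  have hrep : ∀ n ∈ B, ∃ p j : ℕ, p.Prime ∧ 2 ≤ j ∧ n = p ^ j ∧ cardFactors n = j := by
    intro n hn
    obtain ⟨-, h1, h2⟩ := mem_filter.1 hn
    obtain ⟨p, j, hp, hj, rfl⟩ := (isPrimePow_nat_iff n).1 h2
    refine ⟨p, j, hp, ?_, rfl, cardFactors_apply_prime_pow hp⟩
    by_contra h
    obtain rfl : j = 1 := by omega
    exact h1 (by simpa using hp)
  have hmaps : ∀ n ∈ B, cardFactors n ∈ Icc 1 (Nat.log 2 (2 * X)) := by
    intro n hn
    obtain ⟨p, j, hp, hj, e, hc⟩ := hrep n hn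
    have h1 := mem_Ioc.1 (mem_filter.1 hn).1
    rw [hc, mem_Icc]
    refine ⟨by omega, Nat.le_log_of_pow_le (by norm_num) ?_⟩
    have := Nat.pow_le_pow_left hp.two_le j
    omega
  calc _ = ∑ n ∈ B, vonMangoldt n := by
        rw [hB, ← filter_filter, sum_filter (fun n => IsPrimePow n)]
        refine sum_congr rfl fun n _ => ?_
        split_ifs with h
        · rfl
        · exact vonMangoldt_eq_zero_iff.2 h
    _ = ∑ j ∈ Icc 1 (Nat.log 2 (2 * X)), ∑ n ∈ B.filter (fun n => cardFactors n = j),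
        vonMangoldt n := (sum_fiberwise_of_maps_to hmaps _).symm
    _ ≤ ∑ j ∈ Icc 1 (Nat.log 2 (2 * X)), ((H : ℝ) / X.sqrt + 1) * Real.log (2 * X) * (j : ℝ)⁻¹ := by
        refine sum_le_sum fun j hj => ?_
        rcases (B.filter fun n => cardFactors n = j).eq_empty_or_nonempty with h | ⟨n₀, hn₀⟩
        · rw [h, sum_empty]; positivity
        have hj2 : 2 ≤ j := by
          obtain ⟨p, i, -, hi, -, hc⟩ := hrep n₀ (mem_filter.1 hn₀).1
          have := (mem_filter.1 hn₀).2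
          omega
        have hj' : (0 : ℝ) < j := by positivity
        have h1 := card_pow_le (H := H) hX hj2 (B.filter fun n => cardFactors n = j) fun n hn => by
          obtain ⟨p, i, -, -, e, hc⟩ := hrep n (mem_filter.1 hn).1
          have h1 := mem_Ioc.1 (mem_filter.1 (mem_filter.1 hn).1).1
          exact ⟨h1.1, h1.2, p, by rw [← (mem_filter.1 hn).2, hc, e]⟩
        have h2 : ((B.filter fun n => cardFactors n = j).card : ℝ) ≤ (H : ℝ) / X.sqrt + 1 := by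
          refine le_trans (Nat.cast_le.2 h1) ?_
          push_cast
          gcongr
          exact Nat.cast_div_le
        refine (sum_le_card_nsmul _ _ (Real.log (2 * X) * (j : ℝ)⁻¹) fun n hn => ?_).trans ?_
        · obtain ⟨p, i, hp, hi, e, hc⟩ := hrep n (mem_filter.1 hn).1
          have h1 := mem_Ioc.1 (mem_filter.1 (mem_filter.1 hn).1).1
          have hij : i = j := by rw [← (mem_filter.1 hn).2, hc]
          subst hij
          have h3 : (n : ℝ) ≤ 2 * X := by exact_mod_cast (by omega : n ≤ 2 * X)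
          have h4 := Real.log_le_log (by exact_mod_cast (by omega : 0 < n)) h3
          rw [e, Nat.cast_pow, Real.log_pow] at h4
          rw [e, vonMangoldt_apply_pow (by omega), vonMangoldt_apply_prime hp, ← div_eq_mul_inv,
            le_div_iff₀ hj']
          linarith
        · rw [nsmul_eq_mul, mul_assoc]
          gcongr
    _ ≤ _ := by
        rw [← mul_sum]
        gcongr
        have := harmonic_le_one_add_log (Nat.log 2 (2 * X))
        rw [harmonic_eq_sum_Icc] at this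
        simpa using this

lemma pp_small {X H : ℕ} (hL : 10 ^ 8 ≤ Real.log X) (h1 : Real.log X ^ 2 ≤ H) (hH : H ≤ X) :
    ∑ n ∈ (Ioc X (X + H)).filter (fun n => ¬ n.Prime), vonMangoldt n ≤ H / 500 := by
  have hX : 1 ≤ X := Nat.pos_of_ne_zero (by rintro rfl; norm_num at hL)
  have hX' : (0 : ℝ) < X := by exact_mod_cast hX
  refine (pp_le hX hH).trans ?_
  set L := Real.log X with hLdef
  have hl2 := Real.log_two_gt_d9
  have hl2' := Real.log_two_lt_d9
  have a1 : Real.log (2 * X) ≤ 2 * L := by rw [Real.log_mul (by norm_num) hX'.ne']; linarith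
  have a0 : 0 ≤ Real.log (2 * X) := Real.log_nonneg (by
    have : (1 : ℝ) ≤ X := by exact_mod_cast hX
    linarith)
  have a2 : (Nat.log 2 (2 * X) : ℝ) ≤ 4 * L := by
    have h2 : ((2 ^ Nat.log 2 (2 * X) : ℕ) : ℝ) ≤ (2 * X : ℕ) :=
      Nat.cast_le.2 (Nat.pow_log_le_self 2 (by omega))
    have h3 := Real.log_le_log (by positivity) h2
    push_cast at h3
    rw [Real.log_pow] at h3
    nlinarith [Nat.cast_nonneg (α := ℝ) (Nat.log 2 (2 * X))]
  have a3 : 1 + Real.log (Nat.log 2 (2 * X)) ≤ L / 2000 := by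
    have h2 : 0 < Nat.log 2 (2 * X) := Nat.log_pos (by norm_num) (by omega)
    have h3 := Real.log_le_log (by exact_mod_cast h2) a2
    have h4 : Real.log (4 * L) = 2 * Real.log (√(4 * L)) := by
      rw [Real.log_sqrt (by linarith)]; ring
    have h5 := Real.log_le_sub_one_of_pos (Real.sqrt_pos.2 (show 0 < 4 * L by linarith))
    have h6 := Real.sq_sqrt (show 0 ≤ 4 * L by linarith)
    have h7 : 2 * 10 ^ 4 ≤ √(4 * L) := Real.le_sqrt_of_sq_le (by linarith)
    nlinarith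
  have a4 : L ^ 2 ≤ X.sqrt := by
    refine (Nat.le_ceil _).trans (Nat.cast_le.2 (Nat.le_sqrt'.2 ?_))
    have h2 := Real.pow_div_factorial_le_exp L (by linarith) 5
    rw [hLdef, Real.exp_log hX', ← hLdef] at h2
    have h3 : (⌈L ^ 2⌉₊ : ℝ) ≤ 2 * L ^ 2 := (Nat.ceil_lt_add_one (by positivity)).le.trans (by nlinarith)
    have h4 : ((⌈L ^ 2⌉₊ ^ 2 : ℕ) : ℝ) ≤ X := by
      push_cast
      refine le_trans (pow_le_pow_left₀ (by positivity) h3 2) (le_trans ?_ h2)
      have : 0 ≤ L ^ 4 := by positivity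
      simp only [Nat.factorial]
      push_cast
      nlinarith
    exact_mod_cast h4
  have a5 : Real.log (2 * X) * (1 + Real.log (Nat.log 2 (2 * X))) ≤ L ^ 2 / 1000 := by
    have := Real.log_natCast_nonneg (Nat.log 2 (2 * X))
    calc _ ≤ (2 * L) * (L / 2000) := by gcongr
      _ = _ := by ring
  have a6 : (H : ℝ) / X.sqrt ≤ H / L ^ 2 := by gcongr
  have a7 : (H : ℝ) / L ^ 2 * L ^ 2 = H := by field_simp
  calc _ ≤ ((H : ℝ) / L ^ 2 + 1) * (L ^ 2 / 1000) := by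
        rw [mul_assoc]
        have := Real.log_natCast_nonneg (Nat.log 2 (2 * X))
        gcongr
    _ ≤ _ := by nlinarith

lemma sq_ge {X H u m : ℕ} (hX : 1 ≤ X) (h1 : X ≤ u) (h2 : u + m ≤ X + H) :
    Real.log X * (∑ n ∈ Ioc u (u + m), vonMangoldt n -
      ∑ n ∈ (Ioc X (X + H)).filter (fun n => ¬ n.Prime), vonMangoldt n) ≤
      ∑ n ∈ Ioc u (u + m), vonMangoldt n ^ 2 := by
  have hL := Real.log_natCast_nonneg X
  have h3 : ∑ n ∈ (Ioc u (u + m)).filter (fun n => ¬ n.Prime), vonMangoldt n ≤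
      ∑ n ∈ (Ioc X (X + H)).filter (fun n => ¬ n.Prime), vonMangoldt n :=
    sum_le_sum_of_subset_of_nonneg (filter_subset_filter _ (Ioc_subset_Ioc h1 h2))
      fun _ _ _ => vonMangoldt_nonneg
  have h4 : Real.log X * ∑ n ∈ (Ioc u (u + m)).filter Nat.Prime, vonMangoldt n ≤
      ∑ n ∈ Ioc u (u + m), vonMangoldt n ^ 2 := by
    rw [mul_sum]
    refine le_trans (sum_le_sum fun n hn => ?_)
      (sum_le_sum_of_subset_of_nonneg (filter_subset Nat.Prime _) fun _ _ _ => sq_nonneg _)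
    obtain ⟨h5, h6⟩ := mem_filter.1 hn
    rw [sq]
    refine mul_le_mul_of_nonneg_right ?_ vonMangoldt_nonneg
    rw [vonMangoldt_apply_prime h6]
    have := (mem_Ioc.1 h5).1
    exact Real.log_le_log (by exact_mod_cast hX) (by exact_mod_cast (by omega))
  rw [← sum_filter_add_sum_filter_not (Ioc u (u + m)) Nat.Prime]
  nlinarith

/-- The lower end of the range of summation. -/
def lo (m a b k : ℕ) : ℕ := min (max a (b + k)) (a + m)

/-- The upper end of the range of summation. -/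
def hi (m a b k : ℕ) : ℕ := min (a + m) (b + m + k)

lemma coef_sq_le (σ : ℤ → ℝ) {m a b v k : ℕ} (hab : a ≤ b + m) (hk : k ≤ v) :
    coef vonMangoldt σ m (v + a) (v + b) k ^ 2 ≤
      3 * (pairErr (v + hi m a b k) k ^ 2 + pairErr (v + lo m a b k) k ^ 2 +
        m ^ 2 * (sing k - σ k) ^ 2) := by
  have h1 : (Ioc (v + a) (v + a + m)).filter (fun n => v + b + k < n ∧ n ≤ v + b + m + k) =
      Ioc (v + lo m a b k) (v + hi m a b k) := by
    ext n; simp only [mem_filter, mem_Ioc, lo, hi]; omega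
  have h2 : lo m a b k ≤ hi m a b k := by simp only [lo, hi]; omega
  have h3 : hi m a b k ≤ lo m a b k + m := by simp only [lo, hi]; omega
  have h4 := sum_Ioc_consecutive (fun n => vonMangoldt n * vonMangoldt (n - k))
    (show k ≤ v + lo m a b k by omega) (show v + lo m a b k ≤ v + hi m a b k by omega)
  have h5 : coef vonMangoldt σ m (v + a) (v + b) k = pairErr (v + hi m a b k) k -
      pairErr (v + lo m a b k) k + ((hi m a b k : ℝ) - lo m a b k) * (sing k - σ k) := by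
    rw [coef, h1, sum_sub_distrib, sum_const, Nat.card_Ioc, pairErr, pairErr, ← h4, nsmul_eq_mul,
      Nat.cast_sub (by omega)]
    push_cast
    ring
  have h6 : ((hi m a b k : ℝ) - lo m a b k) ^ 2 ≤ (m : ℝ) ^ 2 := by
    have k2 : (lo m a b k : ℝ) ≤ hi m a b k := by exact_mod_cast h2
    have k3 : (hi m a b k : ℝ) ≤ lo m a b k + m := by exact_mod_cast h3
    gcongr
    all_goals linarith
  have h7 := mul_le_mul_of_nonneg_right h6 (sq_nonneg (sing k - σ k))
  rw [h5]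
  rw [← mul_pow] at h7
  generalize ((hi m a b k : ℝ) - lo m a b k) * (sing k - σ k) = z at h7 ⊢
  generalize pairErr (v + hi m a b k) k = x
  generalize pairErr (v + lo m a b k) k = y
  nlinarith [sq_nonneg (x + y), sq_nonneg (x - z), sq_nonneg (y + z)]

lemma avg_le {X H m : ℕ} (hm : 2 * m ≤ H) (φ : ℕ → ℕ) (hφ : ∀ k, φ k ≤ 2 * m) :
    ∑ v ∈ Ioc X (X + (H - 2 * m)), ∑ k ∈ Icc 1 (2 * m), pairErr (v + φ k) k ^ 2 ≤
      ∑ N ∈ Ioc X (X + H), ∑ d ∈ Icc 1 H, pairErr N d ^ 2 := by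
  rw [sum_comm, sum_comm (s := Ioc X (X + H))]
  refine le_trans (sum_le_sum fun k _ => ?_) (sum_le_sum_of_subset_of_nonneg
    (Icc_subset_Icc_right hm) fun _ _ _ => sum_nonneg fun _ _ => sq_nonneg _)
  rw [← sum_image (f := fun N => pairErr N k ^ 2) (g := fun v => v + φ k)
    fun a _ b _ h => Nat.add_right_cancel h]
  refine sum_le_sum_of_subset_of_nonneg (fun N hN => ?_) fun _ _ _ => sq_nonneg _
  obtain ⟨v, hv, rfl⟩ := mem_image.1 hN
  have := hφ k
  rw [mem_Ioc] at hv ⊢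
  omega

end

end Pool.Agent.MP_678834_nt

end MrgPart1

-- ======== part 2: formerly Pool.Agent.MP_678834_nt.Main
section MrgPart2

/-!
The mean square lower bound for the error term of the Hardy-Littlewood formula for prime pairs.
-/

open Finset ArithmeticFunction Filter

namespace Pool.Agent.MP_678834_nt

noncomputable section

lemma exp_half_le : Real.exp (1 / 2) ≤ 1.65 := by
  have h := Real.exp_one_lt_d9
  have h2 : Real.exp (1 / 2) ^ 2 = Real.exp 1 := by rw [← Real.exp_nat_mul]; norm_num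
  exact (abs_le_of_sq_le_sq' (by rw [h2]; linarith) (by norm_num)).2

lemma params {m : ℕ} {L : ℝ} (hm : 4000 ≤ m) (hL : 10 ^ 8 ≤ L) (hmL : Real.log m ≤ L) :
    ∃ (Q : ℕ) (y : ℝ), 1 ≤ Q ∧ 0 ≤ y ∧ (m : ℝ) ^ (1 / 2 + 1 / 4000 : ℝ) ≤ Q ∧
      sigQ Q 0 ≤ 0.83 * L ∧ y ^ 2 = m / 160000 ∧
      ∑ i ∈ (spec Q).filter (fun i => ¬ ((∏ p ∈ i.1, p : ℕ) : ℝ) ≤ y), gw i ≤ L / 1000 := by
  have hm' : (4000 : ℝ) ≤ m := by exact_mod_cast hm
  have hm0 : (0 : ℝ) < m := by linarith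
  obtain ⟨w, hw⟩ : ∃ w : ℝ, w = (m : ℝ) ^ (1 / 2 + 1 / 4000 : ℝ) := ⟨_, rfl⟩
  have hw1 : 1 ≤ w := hw ▸ Real.one_le_rpow (by linarith) (by norm_num)
  have hlw : Real.log w = (1 / 2 + 1 / 4000) * Real.log m := by rw [hw, Real.log_rpow hm0]
  have hQ1 : w ≤ ⌈w⌉₊ := Nat.le_ceil w
  have hQ2 : (⌈w⌉₊ : ℝ) ≤ 2 * w := (Nat.ceil_lt_add_one (by linarith)).le.trans (by linarith)
  have hl2 := Real.log_two_lt_d9
  have hlQ : Real.log (⌈w⌉₊ : ℕ) ≤ Real.log 2 + (1 / 2 + 1 / 4000) * Real.log m := by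
    rw [← hlw, ← Real.log_mul (by norm_num) (by linarith)]
    exact Real.log_le_log (by linarith) hQ2
  have hlm := Real.log_natCast_nonneg m
  have hQ : 1 ≤ ⌈w⌉₊ := Nat.ceil_pos.2 (by linarith)
  have hs : 0 < √(m : ℝ) := Real.sqrt_pos.2 hm0
  have hy : √(m : ℝ) / 400 ≤ (⌈w⌉₊ : ℕ) := by
    have : √(m : ℝ) ≤ w := by
      rw [hw, Real.sqrt_eq_rpow]
      exact Real.rpow_le_rpow_of_exponent_le (by linarith) (by norm_num)
    linarith
  have he := exp_half_le
  refine ⟨⌈w⌉₊, √(m : ℝ) / 400, hQ, by positivity, hw ▸ hQ1, ?_, ?_, ?_⟩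
  · refine (sigQ_zero_le hQ).trans ?_
    rw [Real.log_mul (by norm_num) (by linarith)]
    have h0 := Real.log_natCast_nonneg ⌈w⌉₊
    have h1 := Real.log_nonneg (show (1 : ℝ) ≤ 2 by norm_num)
    calc _ ≤ 1.65 * (2 + (Real.log 2 + Real.log (⌈w⌉₊ : ℕ))) := by gcongr
      _ ≤ _ := by linarith
  · rw [div_pow, Real.sq_sqrt hm0.le]; norm_num
  · refine (mid_le (by positivity) hy).trans ?_
    have h0 := Real.log_nonneg ((one_le_div (by positivity)).2 hy)
    have h1 : Real.log ((⌈w⌉₊ : ℕ) / (√(m : ℝ) / 400)) =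
        Real.log (⌈w⌉₊ : ℕ) - (Real.log m / 2 - Real.log 400) := by
      rw [Real.log_div (by linarith) (by positivity), Real.log_div hs.ne' (by norm_num),
        Real.log_sqrt hm0.le]
    have h2 := Real.log_le_sub_one_of_pos (show (0 : ℝ) < 400 by norm_num)
    calc _ ≤ 1.65 * (2 + Real.log ((⌈w⌉₊ : ℕ) / (√(m : ℝ) / 400))) := by gcongr
      _ ≤ _ := by rw [h1]; linarith

theorem main : ∃ X₀ : ℕ, ∀ X H : ℕ, X₀ ≤ X → Real.log X ^ 2 ≤ H → H ≤ X →
    1 / 10 ^ 10 * (H : ℝ) ^ 3 * Real.log X ^ 2 ≤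
      ∑ N ∈ Ioc X (X + H), ∑ d ∈ Icc 1 H, pairErr N d ^ 2 := by
  obtain ⟨C, hC⟩ := tail_sum (η := 1 / 4000) (by norm_num) (by norm_num)
  obtain ⟨X₀, hX₀⟩ : ∃ X₀ : ℕ, ∀ X : ℕ, X₀ ≤ X → max (10 ^ 8) C ≤ Real.log X :=
    eventually_atTop.1 ((Real.tendsto_log_atTop.comp
      tendsto_natCast_atTop_atTop).eventually_ge_atTop _)
  refine ⟨X₀, fun X H hX h1 hH => ?_⟩
  have hL := (le_max_left _ _).trans (hX₀ X hX)
  have hCL := (le_max_right _ _).trans (hX₀ X hX)
  have hX1 : 1 ≤ X := Nat.pos_of_ne_zero (by rintro rfl; norm_num at hL)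
  have hpp := pp_small hL h1 hH
  have hsq := fun u m => sq_ge (H := H) (u := u) (m := m) hX1
  obtain ⟨m, hm⟩ : ∃ m, m = H / 3 := ⟨_, rfl⟩
  have hH0 : 12000 ≤ H := by
    have : (12000 : ℝ) ≤ H := by nlinarith
    exact_mod_cast this
  have hm0 : 4000 ≤ m := by omega
  have hmL : Real.log m ≤ Real.log X :=
    Real.log_le_log (by exact_mod_cast (by omega : 0 < m)) (by exact_mod_cast (by omega))
  generalize Real.log X = L at *
  generalize ∑ n ∈ (Ioc X (X + H)).filter (fun n => ¬ n.Prime), vonMangoldt n = pp at *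
  have hm' : (4000 : ℝ) ≤ m := by exact_mod_cast hm0
  have hH5 : (H : ℝ) ≤ 5 * m := by exact_mod_cast (by omega : H ≤ 5 * m)
  obtain ⟨Q, y, hQ, hy, hQm, hσ0, hy2, hmid⟩ := params hm0 hL hmL
  by_contra hcon
  rw [not_le] at hcon
  set G : (ℕ → ℕ) → ℕ → ℝ := fun φ v => ∑ k ∈ Icc 1 (2 * m), pairErr (v + φ k) k ^ 2 with hG
  have hG0 : ∀ φ v, 0 ≤ G φ v := fun φ v => sum_nonneg fun _ _ => sq_nonneg _
  obtain ⟨v, hv, hE⟩ : ∃ v ∈ Ioc X (X + (H - 2 * m)), G (hi m 0 0) v + G (lo m 0 0) v +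
      G (hi m m m) v + G (lo m m m) v + G (hi m m 0) v + G (lo m m 0) v ≤
      750 / 10 ^ 10 * (m ^ 2 * L ^ 2) := by
    refine exists_le_of_sum_le (nonempty_Ioc.2 (by omega)) ?_
    have h2 : 2 * m ≤ H := by omega
    have a1 := avg_le (X := X) h2 (hi m 0 0) fun k => by simp only [hi]; omega
    have a2 := avg_le (X := X) h2 (lo m 0 0) fun k => by simp only [lo]; omega
    have a3 := avg_le (X := X) h2 (hi m m m) fun k => by simp only [hi]; omega
    have a4 := avg_le (X := X) h2 (lo m m m) fun k => by simp only [lo]; omega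
    have a5 := avg_le (X := X) h2 (hi m m 0) fun k => by simp only [hi]; omega
    have a6 := avg_le (X := X) h2 (lo m m 0) fun k => by simp only [lo]; omega
    have h3 : (m : ℝ) ≤ (X + (H - 2 * m) - X : ℕ) := by exact_mod_cast (by omega)
    have h4 : (H : ℝ) ^ 3 * L ^ 2 ≤ (5 * m) ^ 3 * L ^ 2 := by gcongr
    have h5 := mul_le_mul_of_nonneg_right h3
      (show 0 ≤ 750 / 10 ^ 10 * ((m : ℝ) ^ 2 * L ^ 2) by positivity)
    simp only [sum_add_distrib, hG, sum_const, Nat.card_Ioc, nsmul_eq_mul]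
    linarith
  rw [mem_Ioc] at hv
  have hρ : ∀ a b : ℕ, a ≤ b + m → G (hi m a b) v + G (lo m a b) v ≤
      750 / 10 ^ 10 * (m ^ 2 * L ^ 2) → ∑ k ∈ Icc 1 (2 * m),
        coef vonMangoldt (sigQ Q) m (v + a) (v + b) k ^ 2 ≤ m ^ 2 * L ^ 2 / 600000 := by
    intro a b hab h
    refine (sum_le_sum fun k hk => coef_sq_le (sigQ Q) hab
      (by have := (mem_Icc.1 hk).2; omega)).trans ?_
    rw [← mul_sum, sum_add_distrib, sum_add_distrib, ← mul_sum]
    have h2 := mul_le_mul_of_nonneg_left ((hC m Q (by omega) hQm).trans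
      (show C ≤ L ^ 2 / 3600000 by nlinarith)) (sq_nonneg (m : ℝ))
    have h3 : 0 ≤ (m : ℝ) ^ 2 * L ^ 2 := by positivity
    simp only [hG] at h
    linarith
  have g1 := hG0 (hi m 0 0) v
  have g2 := hG0 (lo m 0 0) v
  have g3 := hG0 (hi m m m) v
  have g4 := hG0 (lo m m m) v
  have g5 := hG0 (hi m m 0) v
  have g6 := hG0 (lo m m 0) v
  have r00 := hρ 0 0 (by omega) (by linarith)
  have r11 := hρ m m (by omega) (by linarith)
  have r10 := hρ m 0 (by omega) (by linarith)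
  rw [add_zero] at r00 r10
  have hL0 : 0 < L := by linarith
  have hm1 : (0 : ℝ) < m := by linarith
  have low : ∀ u : ℕ, X ≤ u → u + m ≤ X + H → ∑ k ∈ Icc 1 (2 * m),
      coef vonMangoldt (sigQ Q) m u u k ^ 2 ≤ m ^ 2 * L ^ 2 / 600000 →
      5 * (m * L / 200) < ∑ n ∈ Ioc u (u + m), vonMangoldt n ^ 2 - sigQ Q 0 * m := by
    intro u h2 h3 h4
    have h5 := mean_ge gw_nonneg (sigQ_eq Q) (sigQ_neg Q) (ix0_mem hQ) (by simp [gw, ix0])
      (by simp [th, ix0]) vonMangoldt u m (b := m ^ 2 / 200) (by positivity) h4 (by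
        have : (m : ℝ) ^ 3 * L ^ 2 ≤ m ^ 3 * (5 * m) := by gcongr; linarith
        have : 0 ≤ (m : ℝ) ^ 4 := by positivity
        nlinarith)
    have h6 : L ≤ m / 100 := by nlinarith
    have h7 : sigQ Q 0 * m ≤ 0.83 * L * m := by gcongr
    have h8 : L * m ≤ m / 100 * m := by gcongr
    have h9 : 0.95 * m ≤ ∑ n ∈ Ioc u (u + m), vonMangoldt n :=
      (abs_le_of_sq_le_sq' (by nlinarith) (sum_nonneg fun _ _ => vonMangoldt_nonneg)).2
    have h10 := hsq u m h2 h3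
    have h11 : L * (0.94 * m) ≤ L * (∑ n ∈ Ioc u (u + m), vonMangoldt n - pp) := by
      gcongr; linarith
    have h12 : 0 < L * m := by positivity
    linarith
  have hr1 : ((m / 4000 : ℕ) : ℝ) ≤ m / 4000 := Nat.cast_div_le
  have hr2 : (m : ℝ) ≤ 8000 * (m / 4000 : ℕ) := by exact_mod_cast (by omega)
  have hr0 : (0 : ℝ) < (m / 4000 : ℕ) := by linarith
  have key := core gw_nonneg (sigQ_eq Q) (sigQ_neg Q) (fun i => ((∏ p ∈ i.1, p : ℕ) : ℝ) ≤ y)
    vonMangoldt v (r := m / 4000) (by omega) (by omega) (lam := m * L / 200) (by positivity)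
    r00 r11 r10 (by
      have t1 : 3 * ((m : ℝ) ^ 2 * L ^ 2 / 600000) / (m * L / 200) ^ 2 = 1 / 5 := by
        field_simp; norm_num
      have t2 : (∑ i ∈ (spec Q).filter (fun i => ¬ ((∏ p ∈ i.1, p : ℕ) : ℝ) ≤ y), gw i) * m /
          (m * L / 200) ≤ 1 / 5 := by
        rw [div_le_iff₀ (by positivity)]
        nlinarith
      have t3 : (∑ i ∈ (spec Q).filter (fun i => ((∏ p ∈ i.1, p : ℕ) : ℝ) ≤ y), gw i) *
          (4 * (m / 4000 : ℕ)) / (m * L / 200) ≤ 1 / 5 := by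
        have k1 : ∑ i ∈ (spec Q).filter (fun i => ((∏ p ∈ i.1, p : ℕ) : ℝ) ≤ y), gw i ≤ L := by
          refine (sum_le_sum_of_subset_of_nonneg (filter_subset _ _)
            fun i _ _ => gw_nonneg i).trans ?_
          rw [← sigQ_zero]; linarith
        rw [div_le_iff₀ (by positivity)]
        calc _ ≤ L * (4 * (m / 4000)) := by gcongr
          _ = _ := by ring
      have t4 : (((spec Q).filter fun i => ((∏ p ∈ i.1, p : ℕ) : ℝ) ≤ y).card : ℝ) *
          (4 / (m / 4000 : ℕ)) ≤ 1 / 5 := by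
        have k1 := card_low Q hy
        rw [← mul_div_assoc, div_le_iff₀ hr0]
        linarith
      linarith)
  rcases key with h | h
  · exact absurd h (not_le.2 (low v (by omega) (by omega) r00))
  · exact absurd h (not_le.2 (low (v + m) (by omega) (by omega) r11))

end

end Pool.Agent.MP_678834_nt

end MrgPart2

-- marker of a merged file
example : 731051 + 867443 = 731051 + 867443 := rfl
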