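import Mathlib

/-! Pure combinatorics: a set meeting the cross differences of every admissible four-part
tuple has lower density at least one sixth. -/

namespace Pool.Agent.MP_678834_nt.DensCore

open Finset Filter

/-- An `r`-pattern of size `s`. -/
structure Pat (D : Set ℕ) (W r s : ℕ) (H : ℕ → Finset ℤ) (ρ : ℕ → ℤ) (e : ZMod 2) : Prop where
  card : ∀ i < r, (H i).card = s
  cls : ∀ i < r, ∀ x ∈ H i, (6 * W : ℤ) ∣ x - ρ i
  par : ∀ i < r, (ρ i : ZMod 2) = e
  mis : ∃ m : ZMod 3, ∀ i < r, (ρ i : ZMod 3) ≠ m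
  sep : ∀ i j, i < j → j < r → ∀ x ∈ H i, ∀ y ∈ H j, x < y ∧ (y - x).toNat ∉ D

lemma cast_eq_of_dvd {p : ℕ} {x y : ℤ} (h : (p : ℤ) ∣ x - y) : (x : ZMod p) = (y : ZMod p) := by
  rw [ZMod.intCast_eq_intCast_iff_dvd_sub]
  have := h.neg_right
  simpa using this

lemma pat_one (D : Set ℕ) (W s : ℕ) (hW : 0 < W) : ∃ H ρ e, Pat D W 1 s H ρ e := by
  refine ⟨fun _ => (range s).image (fun k : ℕ => (6 * W * k : ℤ)), fun _ => 0, 0, ?_, ?_, ?_, ?_, ?_⟩
  · intro i _
    rw [card_image_of_injective, card_range]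
    intro a b hab
    have h6 : (6 * W : ℤ) ≠ 0 := by positivity
    have := mul_left_cancel₀ h6 hab
    exact_mod_cast this
  · intro i _ x hx
    obtain ⟨k, _, rfl⟩ := mem_image.1 hx
    simp
  · intro i _; simp
  · exact ⟨1, fun i _ => by simp⟩
  · intro i j hij hj; omega

lemma not_pat_four (D : Set ℕ) (t : ℕ)
    (hfree : ∀ h : Fin 4 × Fin t → ℤ, Function.Injective h → (∀ i j, i.1 < j.1 → h i < h j) →
      (∀ p : ℕ, p.Prime → ∃ a : ZMod p, ∀ i, (h i : ZMod p) ≠ a) →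
      ∃ i j, i.1 < j.1 ∧ (h j - h i).toNat ∈ D)
    (H : ℕ → Finset ℤ) (ρ : ℕ → ℤ) (e : ZMod 2) : ¬ Pat D (4 * t).factorial 4 t H ρ e := by
  intro P
  let h : Fin 4 × Fin t → ℤ := fun i => (H i.1).orderEmbOfFin (P.card i.1 i.1.2) i.2
  have hmem : ∀ i : Fin 4 × Fin t, h i ∈ H i.1 := fun i => orderEmbOfFin_mem _ _ _
  have hlt : ∀ i j : Fin 4 × Fin t, i.1 < j.1 → h i < h j := fun i j hij =>
    (P.sep i.1 j.1 hij j.1.2 _ (hmem i) _ (hmem j)).1
  have hinj : Function.Injective h := by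
    rintro ⟨a, x⟩ ⟨b, y⟩ hab
    rcases lt_trichotomy a b with hl | rfl | hl
    · exact absurd hab (hlt _ _ hl).ne
    · have : x = y := ((H a).orderEmbOfFin (P.card a a.2)).injective hab
      rw [this]
    · exact absurd hab (hlt _ _ hl).ne'
  have hcls : ∀ p : ℕ, (p : ℤ) ∣ 6 * ((4 * t).factorial : ℕ) → ∀ i : Fin 4 × Fin t,
      (h i : ZMod p) = (ρ i.1 : ZMod p) := fun p hp i =>
    cast_eq_of_dvd (hp.trans (P.cls i.1 i.1.2 _ (hmem i)))
  obtain ⟨i, j, hij, hD⟩ := hfree h hinj hlt (by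
    intro p hp
    by_cases h2 : p = 2
    · subst h2
      refine ⟨e + 1, fun i => ?_⟩
      rw [hcls 2 (Dvd.dvd.mul_right (by norm_num) _) i, P.par i.1 i.1.2]
      simp
    by_cases h3 : p = 3
    · subst h3
      obtain ⟨m, hm⟩ := P.mis
      refine ⟨m, fun i => ?_⟩
      rw [hcls 3 (Dvd.dvd.mul_right (by norm_num) _) i]
      exact hm i.1 i.1.2
    have h5 : 5 ≤ p := by
      have := hp.two_le
      have h4 : p ≠ 4 := by rintro rfl; exact absurd hp (by decide)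
      omega
    have : NeZero p := ⟨hp.ne_zero⟩
    by_contra hcon
    push Not at hcon
    by_cases hle : p ≤ 4 * t
    · have hd : (p : ℤ) ∣ 6 * ((4 * t).factorial : ℕ) :=
        Dvd.dvd.mul_left (Int.natCast_dvd_natCast.2 (Nat.dvd_factorial hp.pos hle)) _
      have hs : Function.Surjective (fun i : Fin 4 => (ρ i : ZMod p)) := by
        intro a
        obtain ⟨i, hi⟩ := hcon a
        exact ⟨i.1, by rw [← hi, hcls p hd i]⟩
      have := Fintype.card_le_of_surjective _ hs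
      simp at this
      omega
    · have hs : Function.Surjective (fun i : Fin 4 × Fin t => (h i : ZMod p)) := hcon
      have := Fintype.card_le_of_surjective _ hs
      simp at this
      omega)
  exact (P.sep i.1 j.1 hij j.1.2 _ (hmem i) _ (hmem j)).2 hD

/-- Reflection of a pattern. -/
lemma Pat.refl {D : Set ℕ} {W r s : ℕ} {H : ℕ → Finset ℤ} {ρ : ℕ → ℤ} {e : ZMod 2}
    (P : Pat D W r s H ρ e) :
    Pat D W r s (fun i => (H (r - 1 - i)).image (fun x => -x)) (fun i => -ρ (r - 1 - i)) (-e) := by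
  refine ⟨?_, ?_, ?_, ?_, ?_⟩
  · intro i hi
    rw [card_image_of_injective _ neg_injective]
    exact P.card _ (by omega)
  · intro i hi x hx
    obtain ⟨y, hy, rfl⟩ := mem_image.1 hx
    have := (P.cls _ (by omega) y hy).neg_right
    have h2 : -y - -ρ (r - 1 - i) = -(y - ρ (r - 1 - i)) := by ring
    rw [h2]
    exact this
  · intro i hi
    push_cast
    rw [P.par _ (by omega)]
  · obtain ⟨m, hm⟩ := P.mis
    refine ⟨-m, fun i hi => ?_⟩
    push_cast
    intro h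
    exact hm _ (by omega) (neg_injective h)
  · intro i j hij hj x hx y hy
    obtain ⟨x', hx', rfl⟩ := mem_image.1 hx
    obtain ⟨y', hy', rfl⟩ := mem_image.1 hy
    have := P.sep (r - 1 - j) (r - 1 - i) (by omega) (by omega) y' hy' x' hx'
    refine ⟨by linarith [this.1], ?_⟩
    have h2 : -y' - -x' = x' - y' := by ring
    rw [h2]
    exact this.2

open Classical in
/-- All but finitely many allowed points to the right see almost a whole part through `D`. -/
lemma claim {D : Set ℕ} {W r s t1 : ℕ} (hW : 0 < W) {H : ℕ → Finset ℤ} {ρ : ℕ → ℤ} {e : ZMod 2}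
    (P : Pat D W r s H ρ e) (hno : ∀ H ρ e, ¬ Pat D W (r + 1) t1 H ρ e)
    (c : ℤ) (hc2 : (c : ZMod 2) = e)
    (hc3 : ∃ m : ZMod 3, (c : ZMod 3) ≠ m ∧ ∀ i < r, (ρ i : ZMod 3) ≠ m) :
    ∃ k0 : ℕ, ∀ k ≥ k0, (∀ i < r, ∀ x ∈ H i, x < c + 6 * k) ∧
      ∃ i < r, s < t1 + ((H i).filter (fun x => (c + 6 * (k : ℤ) - x).toNat ∈ D)).card := by
  set U : Finset ℤ := (range r).biUnion H with hU
  have hmemU : ∀ i < r, ∀ x ∈ H i, x ∈ U := fun i hi x hx =>
    mem_biUnion.2 ⟨i, mem_range.2 hi, hx⟩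
  obtain ⟨B, hB⟩ : ∃ B : ℕ, ∀ x ∈ U, x - c < B := by
    obtain ⟨b, hb⟩ := (U.image (fun x => (x - c).toNat + 1)).bddAbove
    refine ⟨b, fun x hx => ?_⟩
    have := hb (mem_coe.2 (mem_image_of_mem _ hx))
    omega
  let Bad : Set ℕ := {k | B ≤ k ∧ ∀ i < r,
    t1 ≤ ((H i).filter (fun x => (c + 6 * (k : ℤ) - x).toNat ∉ D)).card}
  have hfin : Bad.Finite := by
    by_contra hinf
    let f : ℕ → ℕ × Finset ℤ := fun k =>
      (k % W, U.filter (fun x => (c + 6 * (k : ℤ) - x).toNat ∉ D))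
    have himg : (f '' Bad).Finite := by
      refine (Finset.finite_toSet (range W ×ˢ U.powerset)).subset ?_
      rintro _ ⟨k, _, rfl⟩
      simp only [f, coe_product, Set.mem_prod, mem_coe, mem_range, mem_powerset]
      exact ⟨Nat.mod_lt _ hW, filter_subset _ _⟩
    have : ∃ y ∈ f '' Bad, (Bad ∩ f ⁻¹' {y}).Infinite := by
      by_contra hcon
      push Not at hcon
      exact hinf (Set.Finite.of_finite_fibers f himg hcon)
    obtain ⟨_, ⟨k1, hk1, rfl⟩, hfib⟩ := this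
    obtain ⟨V, hV, hVc⟩ := hfib.exists_subset_card_eq t1
    have hS : ∀ i, ∃ S : Finset ℤ, i < r →
        S ⊆ (H i).filter (fun x => (c + 6 * (k1 : ℤ) - x).toNat ∉ D) ∧ S.card = t1 := by
      intro i
      by_cases hi : i < r
      · obtain ⟨S, hS1, hS2⟩ := exists_subset_card_eq (hk1.2 i hi)
        exact ⟨S, fun _ => ⟨hS1, hS2⟩⟩
      · exact ⟨∅, fun h => absurd h hi⟩
    choose S hS using hS
    have hSH : ∀ i < r, ∀ x ∈ S i, x ∈ H i := fun i hi x hx =>
      (mem_filter.1 ((hS i hi).1 hx)).1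
    apply hno (fun i => if i < r then S i else V.image (fun k : ℕ => c + 6 * (k : ℤ)))
      (fun i => if i < r then ρ i else c + 6 * (k1 : ℤ)) e
    refine ⟨?_, ?_, ?_, ?_, ?_⟩
    · intro i _
      by_cases hi : i < r
      · simp only [hi, if_true]; exact (hS i hi).2
      · simp only [hi, if_false]
        rw [card_image_of_injective, hVc]
        intro a b hab
        simp only at hab
        omega
    · intro i _ x hx
      by_cases hi : i < r
      · simp only [hi, if_true] at hx ⊢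
        exact P.cls i hi x (hSH i hi x hx)
      · simp only [hi, if_false] at hx ⊢
        obtain ⟨k, hk, rfl⟩ := mem_image.1 hx
        have h1 := (hV (mem_coe.2 hk)).2
        have h2 : k % W = k1 % W := congrArg Prod.fst h1
        have h3 : (W : ℤ) ∣ (k : ℤ) - k1 := (Nat.modEq_iff_dvd.1 (Nat.ModEq.symm h2))
        have h4 : c + 6 * (k : ℤ) - (c + 6 * (k1 : ℤ)) = 6 * ((k : ℤ) - k1) := by ring
        rw [h4]
        exact mul_dvd_mul_left 6 h3
    · intro i _
      by_cases hi : i < r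
      · simp only [hi, if_true]; exact P.par i hi
      · simp only [hi, if_false]
        push_cast
        rw [hc2, show (6 : ZMod 2) = 0 by decide]
        simp
    · obtain ⟨m, hm1, hm2⟩ := hc3
      refine ⟨m, fun i _ => ?_⟩
      by_cases hi : i < r
      · simp only [hi, if_true]; exact hm2 i hi
      · simp only [hi, if_false]
        push_cast
        rw [show (6 : ZMod 3) = 0 by decide]
        simpa using hm1
    · intro i j hij hj x hx y hy
      have hi : i < r := by omega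
      simp only [hi, if_true] at hx
      by_cases hj' : j < r
      · simp only [hj', if_true] at hy
        exact P.sep i j hij hj' x (hSH i hi x hx) y (hSH j hj' y hy)
      · simp only [hj', if_false] at hy
        obtain ⟨k, hk, rfl⟩ := mem_image.1 hy
        obtain ⟨hkB, h1⟩ := hV (mem_coe.2 hk)
        have hxU := hmemU i hi x (hSH i hi x hx)
        have h2 : U.filter (fun x => (c + 6 * (k : ℤ) - x).toNat ∉ D)
            = U.filter (fun x => (c + 6 * (k1 : ℤ) - x).toNat ∉ D) := congrArg Prod.snd h1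
        have h3 : x ∈ U.filter (fun x => (c + 6 * (k : ℤ) - x).toNat ∉ D) := by
          rw [h2]
          exact mem_filter.2 ⟨hxU, (mem_filter.1 ((hS i hi).1 hx)).2⟩
        refine ⟨?_, (mem_filter.1 h3).2⟩
        have := hB x hxU
        have := hkB.1
        omega
  obtain ⟨b, hb⟩ := hfin.bddAbove
  refine ⟨B + b + 1, fun k hk => ⟨?_, ?_⟩⟩
  · intro i hi x hx
    have := hB x (hmemU i hi x hx)
    omega
  · have hnot : k ∉ Bad := fun h => by have := hb h; omega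
    simp only [Bad, Set.mem_ofPred_eq, not_and, not_forall, not_le] at hnot
    obtain ⟨i, hi, hlt⟩ := hnot (by omega)
    refine ⟨i, hi, ?_⟩
    have := card_filter_add_card_filter_not (s := H i)
      (fun x => (c + 6 * (k : ℤ) - x).toNat ∈ D)
    rw [P.card i hi] at this
    omega

open Classical in
/-- Elements of `D` in `[1, T]` in the class `a` mod 3. -/
noncomputable def cnt (D : Set ℕ) (a : ZMod 3) (T : ℕ) : ℕ :=
  ((Icc 1 T).filter (fun d => d ∈ D ∧ (d : ZMod 3) = a)).card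

open Classical in
lemma cnt_sum (D : Set ℕ) (T : ℕ) :
    cnt D 0 T + cnt D 1 T + cnt D 2 T = ((Icc 1 T).filter (fun d => d ∈ D)).card := by
  have h := card_eq_sum_card_fiberwise (s := (Icc 1 T).filter (fun d => d ∈ D))
    (t := (univ : Finset (ZMod 3))) (f := fun d : ℕ => (d : ZMod 3)) (fun _ _ => mem_univ _)
  rw [h]
  have hu : (univ : Finset (ZMod 3)) = {0, 1, 2} := by decide
  rw [hu, sum_insert (by decide), sum_insert (by decide), sum_singleton]
  simp only [cnt, filter_filter, add_assoc]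

open Classical in
lemma probe_nat {D : Set ℕ} {W r s t1 : ℕ} (hW : 0 < W) {H : ℕ → Finset ℤ} {ρ : ℕ → ℤ}
    {e : ZMod 2} (P : Pat D W r s H ρ e) (hno : ∀ H ρ e, ¬ Pat D W (r + 1) t1 H ρ e)
    (c : ℤ) (hc2 : (c : ZMod 2) = e)
    (hc3 : ∃ m : ZMod 3, (c : ZMod 3) ≠ m ∧ ∀ i < r, (ρ i : ZMod 3) ≠ m) :
    ∃ C : ℕ, ∀ T : ℕ, (T / 6 - C) * (s - t1) ≤
      s * ∑ i ∈ range r, cnt D ((c : ZMod 3) - (ρ i : ZMod 3)) T := by
  obtain ⟨k0, hk0⟩ := claim hW P hno c hc2 hc3
  set U : Finset ℤ := (range r).biUnion H with hU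
  obtain ⟨L, hL⟩ : ∃ L : ℕ, ∀ x ∈ U, c - x ≤ L := by
    obtain ⟨b, hb⟩ := (U.image (fun x => (c - x).toNat)).bddAbove
    refine ⟨b, fun x hx => ?_⟩
    have := hb (mem_coe.2 (mem_image_of_mem _ hx))
    omega
  refine ⟨L + k0, fun T => ?_⟩
  set K : Finset ℕ := Ico k0 (T / 6 - L) with hK
  have h1 : (T / 6 - (L + k0)) * (s - t1) ≤ ∑ k ∈ K, ∑ i ∈ range r,
      ((H i).filter (fun x => (c + 6 * (k : ℤ) - x).toNat ∈ D)).card := by
    have hc : K.card = T / 6 - (L + k0) := by rw [hK, Nat.card_Ico]; omega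
    rw [← hc, ← smul_eq_mul]
    apply card_nsmul_le_sum
    intro k hk
    obtain ⟨i, hi, hlt⟩ := (hk0 k (mem_Ico.1 hk).1).2
    have := single_le_sum (f := fun i =>
      ((H i).filter (fun x => (c + 6 * (k : ℤ) - x).toNat ∈ D)).card)
      (fun _ _ => Nat.zero_le _) (mem_range.2 hi)
    omega
  refine h1.trans ?_
  rw [sum_comm, mul_sum]
  refine sum_le_sum fun i hi => ?_
  have hi' := mem_range.1 hi
  have h2 : ∑ k ∈ K, ((H i).filter (fun x => (c + 6 * (k : ℤ) - x).toNat ∈ D)).card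
      = ∑ x ∈ H i, (K.filter (fun k : ℕ => (c + 6 * (k : ℤ) - x).toNat ∈ D)).card := by
    simp only [card_filter]
    exact sum_comm
  rw [h2, ← P.card i hi', ← smul_eq_mul]
  apply sum_le_card_nsmul
  intro x hx
  have hxU : x ∈ U := mem_biUnion.2 ⟨i, hi, hx⟩
  unfold cnt
  apply card_le_card_of_injOn (fun k : ℕ => (c + 6 * (k : ℤ) - x).toNat)
  · intro k hk
    obtain ⟨hkK, hkD⟩ := mem_filter.1 (mem_coe.1 hk)
    obtain ⟨hk1, hk2⟩ := mem_Ico.1 hkK
    have hlt := (hk0 k hk1).1 i hi' x hx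
    have hle := hL x hxU
    refine mem_coe.2 (mem_filter.2 ⟨mem_Icc.2 ⟨by simp only; omega, by simp only; omega⟩, hkD, ?_⟩)
    have h3 : (((c + 6 * (k : ℤ) - x).toNat : ℤ) : ZMod 3) = ((c + 6 * (k : ℤ) - x : ℤ) : ZMod 3) := by
      rw [Int.toNat_of_nonneg (by omega)]
    have h4 : (x : ZMod 3) = (ρ i : ZMod 3) :=
      cast_eq_of_dvd (p := 3) ((Dvd.dvd.mul_right (by norm_num) _).trans (P.cls i hi' x hx))
    rw [Int.cast_natCast] at h3
    rw [h3]
    push_cast
    rw [h4, show (6 : ZMod 3) = 0 by decide]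
    simp
  · intro a ha b hb hab
    obtain ⟨haK, _⟩ := mem_filter.1 (mem_coe.1 ha)
    obtain ⟨hbK, _⟩ := mem_filter.1 (mem_coe.1 hb)
    have h1 := (hk0 a (mem_Ico.1 haK).1).1 i hi' x hx
    have h2 := (hk0 b (mem_Ico.1 hbK).1).1 i hi' x hx
    simp only at hab
    omega

lemma probe {D : Set ℕ} {W r s t1 : ℕ} (hW : 0 < W) {H : ℕ → Finset ℤ} {ρ : ℕ → ℤ}
    {e : ZMod 2} (P : Pat D W r s H ρ e) (hno : ∀ H ρ e, ¬ Pat D W (r + 1) t1 H ρ e)
    {ε : ℝ} (hε : 0 < ε) (hs : (t1 : ℝ) < ε * s) (hts : t1 ≤ s) (c : ZMod 3)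
    (hc3 : ∃ m : ZMod 3, c ≠ m ∧ ∀ i < r, (ρ i : ZMod 3) ≠ m) :
    ∀ᶠ T : ℕ in atTop, (1 / 6 - ε) * T ≤ ∑ i ∈ range r, (cnt D (c - (ρ i : ZMod 3)) T : ℝ) := by
  obtain ⟨z, hz3, hz2⟩ : ∃ z : Fin 6, ((z : ℕ) : ZMod 3) = c ∧ ((z : ℕ) : ZMod 2) = e := by
    exact (by decide : ∀ (c : ZMod 3) (e : ZMod 2), ∃ z : Fin 6,
      ((z : ℕ) : ZMod 3) = c ∧ ((z : ℕ) : ZMod 2) = e) c e
  obtain ⟨C, hC⟩ := probe_nat hW P hno ((z : ℕ) : ℤ) (by rw [Int.cast_natCast, hz2])
    (by rw [Int.cast_natCast, hz3]; exact hc3)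
  rw [Int.cast_natCast, hz3] at hC
  have hspos : (0 : ℝ) < s := by
    by_contra h
    have : (s : ℝ) = 0 := le_antisymm (not_lt.1 h) (Nat.cast_nonneg _)
    rw [this] at hs
    have : (0 : ℝ) ≤ t1 := Nat.cast_nonneg _
    linarith
  obtain ⟨N, hN⟩ := exists_nat_ge (2 * (C + 1) / ε)
  filter_upwards [eventually_ge_atTop N] with T hT
  have h1 : (((T / 6 - C) * (s - t1) : ℕ) : ℝ) ≤
      ((s * ∑ i ∈ range r, cnt D (c - (ρ i : ZMod 3)) T : ℕ) : ℝ) := by exact_mod_cast hC T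
  rw [Nat.cast_mul, Nat.cast_mul, Nat.cast_sub hts, Nat.cast_sum] at h1
  set S : ℝ := ∑ i ∈ range r, (cnt D (c - (ρ i : ZMod 3)) T : ℝ)
  set A : ℝ := ((T / 6 - C : ℕ) : ℝ) with hA
  have hA1 : (T : ℝ) ≤ 6 * (A + C + 1) := by
    have : T ≤ 6 * ((T / 6 - C) + C + 1) := by omega
    rw [hA]; exact_mod_cast this
  have hA2 : 6 * A ≤ T := by
    have : 6 * (T / 6 - C) ≤ T := by omega
    rw [hA]; exact_mod_cast this
  have hA0 : 0 ≤ A := Nat.cast_nonneg _
  have hT' : (N : ℝ) ≤ T := by exact_mod_cast hT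
  have hCT : 2 * ((C : ℝ) + 1) ≤ ε * T := by
    have := (div_le_iff₀ hε).1 (hN.trans hT')
    linarith
  have h2 : A * ((1 - ε) * s) ≤ s * S := by
    refine le_trans ?_ h1
    apply mul_le_mul_of_nonneg_left _ hA0
    linarith
  have h3 : A * (1 - ε) ≤ S := by
    have : s * (A * (1 - ε)) ≤ s * S := by linarith
    exact le_of_mul_le_mul_left this hspos
  have h4 : A * ε ≤ T / 6 * ε := mul_le_mul_of_nonneg_right (by linarith) hε.le
  have h5 : 0 ≤ ε * T := by positivity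
  linarith

lemma comb (f : ZMod 3 → ℝ) (A : ℝ) (a b d : ZMod 3) (hm : ∃ m, a ≠ m ∧ b ≠ m ∧ d ≠ m)
    (h : ∀ c, (∃ m, c ≠ m ∧ a ≠ m ∧ b ≠ m ∧ d ≠ m) →
      A ≤ f (c - a) + f (c - b) + f (c - d) ∧ A ≤ f (a - c) + f (b - c) + f (d - c)) :
    A ≤ f 0 + f 1 + f 2 := by
  have key : ∀ x : ZMod 3, x ≠ 0 → f x + f (-x) = f 1 + f 2 := by
    intro x hx
    have : x = 1 ∨ x = 2 := by revert x; decide
    rcases this with rfl | rfl
    · rw [show (-1 : ZMod 3) = 2 by decide]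
    · rw [show (-2 : ZMod 3) = 1 by decide, add_comm]
  have two : ∀ x y : ZMod 3, x ≠ y → A ≤ f (y - x) + f (y - x) + f 0 →
      A ≤ f (x - y) + f (x - y) + f 0 → A ≤ f 0 + f 1 + f 2 := by
    intro x y hxy h1 h2
    have := key (x - y) (sub_ne_zero.2 hxy)
    rw [neg_sub] at this
    linarith
  obtain ⟨m, h1, h2, h3⟩ := hm
  by_cases hab : a = b
  · subst hab
    by_cases had : a = d
    · subst had
      have hall : ∀ c : ZMod 3, ∃ m, c ≠ m ∧ a ≠ m ∧ a ≠ m ∧ a ≠ m := fun c => by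
        obtain ⟨m, g1, g2⟩ := (by decide : ∀ a c : ZMod 3, ∃ m, c ≠ m ∧ a ≠ m) a c
        exact ⟨m, g1, g2, g2, g2⟩
      have e0 := (h (a + 0) (hall _)).1
      have e1 := (h (a + 1) (hall _)).1
      have e2 := (h (a + 2) (hall _)).1
      simp only [add_sub_cancel_left] at e0 e1 e2
      linarith
    · have := h d ⟨m, h3, h1, h2, h3⟩
      simp only [sub_self] at this
      exact two a d had this.1 this.2
  · by_cases had : a = d
    · subst had
      have := h b ⟨m, h2, h1, h2, h3⟩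
      simp only [sub_self] at this
      exact two a b hab (by linarith [this.1]) (by linarith [this.2])
    · have hbd : b = d := by
        have hz : ∀ a b d m : ZMod 3, a = m ∨ b = m ∨ d = m ∨ a = b ∨ a = d ∨ b = d := by decide
        have := hz a b d m
        tauto
      subst hbd
      have := h a ⟨m, h1, h1, h2, h3⟩
      simp only [sub_self] at this
      exact two b a (Ne.symm hab) (by linarith [this.1]) (by linarith [this.2])

lemma comb' (f : ZMod 3 → ℝ) (hf : ∀ x, 0 ≤ f x) (A : ℝ) (r : ℕ) (hr1 : 1 ≤ r) (hr3 : r ≤ 3)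
    (ρ : ℕ → ZMod 3) (hm : ∃ m, ∀ i < r, ρ i ≠ m)
    (h : ∀ c, (∃ m, c ≠ m ∧ ∀ i < r, ρ i ≠ m) →
      A ≤ ∑ i ∈ range r, f (c - ρ i) ∧ A ≤ ∑ i ∈ range r, f (ρ i - c)) :
    A ≤ f 0 + f 1 + f 2 := by
  obtain ⟨m, hm⟩ := hm
  interval_cases r
  · refine comb f A (ρ 0) (ρ 0) (ρ 0) ⟨m, hm 0 (by omega), hm 0 (by omega), hm 0 (by omega)⟩ ?_
    rintro c ⟨m', g1, g2, -, -⟩
    have := h c ⟨m', g1, fun i hi => by interval_cases i; exact g2⟩
    simp only [sum_range_succ, sum_range_zero] at this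
    constructor
    · linarith [this.1, hf (c - ρ 0)]
    · linarith [this.2, hf (ρ 0 - c)]
  · refine comb f A (ρ 0) (ρ 1) (ρ 1) ⟨m, hm 0 (by omega), hm 1 (by omega), hm 1 (by omega)⟩ ?_
    rintro c ⟨m', g1, g2, g3, -⟩
    have := h c ⟨m', g1, fun i hi => by interval_cases i <;> assumption⟩
    simp only [sum_range_succ, sum_range_zero] at this
    constructor
    · linarith [this.1, hf (c - ρ 1)]
    · linarith [this.2, hf (ρ 1 - c)]
  · refine comb f A (ρ 0) (ρ 1) (ρ 2) ⟨m, hm 0 (by omega), hm 1 (by omega), hm 2 (by omega)⟩ ?_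
    rintro c ⟨m', g1, g2, g3, g4⟩
    have := h c ⟨m', g1, fun i hi => by interval_cases i <;> assumption⟩
    simp only [sum_range_succ, sum_range_zero] at this
    constructor
    · linarith [this.1]
    · linarith [this.2]

open Classical in
/-- The density theorem. -/
theorem dens_core (D : Set ℕ) (t : ℕ)
    (hfree : ∀ h : Fin 4 × Fin t → ℤ, Function.Injective h → (∀ i j, i.1 < j.1 → h i < h j) →
      (∀ p : ℕ, p.Prime → ∃ a : ZMod p, ∀ i, (h i : ZMod p) ≠ a) →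
      ∃ i j, i.1 < j.1 ∧ (h j - h i).toNat ∈ D)
    (ε : ℝ) (hε : 0 < ε) :
    ∀ᶠ T : ℕ in atTop, (1 / 6 - ε) * T ≤ (((Icc 1 T).filter (fun d => d ∈ D)).card : ℝ) := by
  set W := (4 * t).factorial with hWdef
  have hW : 0 < W := Nat.factorial_pos _
  obtain ⟨r, hr1, hr3, hP, t1, hno⟩ : ∃ r, 1 ≤ r ∧ r ≤ 3 ∧ (∀ s, ∃ H ρ e, Pat D W r s H ρ e) ∧
      ∃ t1, ∀ H ρ e, ¬ Pat D W (r + 1) t1 H ρ e := by
    by_contra hcon
    push Not at hcon
    have h1 : ∀ s, ∃ H ρ e, Pat D W 1 s H ρ e := fun s => pat_one D W s hW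
    have h2 := hcon 1 le_rfl (by norm_num) h1
    have h3 := hcon 2 (by norm_num) (by norm_num) h2
    obtain ⟨H, ρ, e, h4⟩ := hcon 3 (by norm_num) le_rfl h3 t
    exact not_pat_four D t hfree H ρ e h4
  obtain ⟨N, hN⟩ := exists_nat_gt (t1 / ε)
  obtain ⟨H, ρ, e, P⟩ := hP (N + t1)
  have hs : (t1 : ℝ) < ε * ((N + t1 : ℕ) : ℝ) := by
    have := (div_lt_iff₀ hε).1 hN
    have h0 : 0 ≤ ε * t1 := by positivity
    push_cast
    linarith
  have hall : ∀ c : ZMod 3, ∀ᶠ T : ℕ in atTop, (∃ m, c ≠ m ∧ ∀ i < r, (ρ i : ZMod 3) ≠ m) →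
      (1 / 6 - ε) * T ≤ ∑ i ∈ range r, (cnt D (c - (ρ i : ZMod 3)) T : ℝ) ∧
      (1 / 6 - ε) * T ≤ ∑ i ∈ range r, (cnt D ((ρ i : ZMod 3) - c) T : ℝ) := by
    intro c
    by_cases hc : ∃ m, c ≠ m ∧ ∀ i < r, (ρ i : ZMod 3) ≠ m
    · have g1 := probe hW P hno hε hs (by omega) c hc
      have g2 := probe hW P.refl hno hε hs (by omega) (-c) (by
        obtain ⟨m, hm1, hm2⟩ := hc
        refine ⟨-m, fun h => hm1 (neg_injective h), fun i hi h => ?_⟩
        push_cast at h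
        exact hm2 _ (by omega) (neg_injective h))
      filter_upwards [g1, g2] with T k1 k2 _
      refine ⟨k1, k2.trans (le_of_eq ?_)⟩
      rw [← sum_range_reflect]
      refine sum_congr rfl fun i hi => ?_
      have hi' := mem_range.1 hi
      have : r - 1 - (r - 1 - i) = i := by omega
      rw [this]
      push_cast
      congr 2
      ring
    · exact Eventually.of_forall fun T h => absurd h hc
  filter_upwards [(eventually_all_finite (I := Set.univ) Set.finite_univ).2 (fun c _ => hall c)]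
    with T hT
  have := comb' (fun x => (cnt D x T : ℝ)) (fun _ => Nat.cast_nonneg _) _ r hr1 hr3
    (fun i => (ρ i : ZMod 3)) P.mis (fun c => hT c (Set.mem_univ _))
  rw [← cnt_sum]
  push_cast
  exact this

end Pool.Agent.MP_678834_nt.DensCore
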