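import Mathlib.Topology.Sheaves.Presheaf
import Mathlib.Tactic.Monotonicity.Lemmas
import Mathlib.Data.Int.Star
import Mathlib.Algebra.Order.Chebyshev
import Mathlib.Analysis.Calculus.BumpFunction.Normed
import Mathlib.Order.Interval.Finset.Box
import Mathlib.Combinatorics.Pigeonhole
import Mathlib.Data.Finset.Slice
import Mathlib.Data.Nat.ChineseRemainder
import Pool.Agent.MP_39a890_nt.Fin

-- ======== part 0: formerly Pool.Agent.MP_678834_nt.UDens
section MrgPart0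

/-!
# A uniform density lemma for four part patterns
-/

namespace Pool.Agent.MP_678834_nt.UDens

open Finset
open Filter hiding mem_sdiff

theorem step {α : Type*} (t n : ℕ) {c : ℝ} (hc : 0 < c) (htn : t ≤ n) (hn : 2 * (t : ℝ) ≤ c * n)
    (X : Finset α) (N : α → Finset ℕ) (hN : ∀ x, N x ⊆ range n)
    (h : c * n * #X ≤ ∑ x ∈ X, (#(N x) : ℝ)) :
    ∃ S : Finset ℕ, #S = t ∧ (c / 2) ^ t * #X ≤ #{x ∈ X | S ⊆ N x} := by
  have h1 : (#X : ℝ) * (c * n / 2) ≤ ∑ x ∈ X, ((#(N x) + 1 - t : ℕ) : ℝ) := by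
    have : ∑ x ∈ X, ((#(N x) : ℝ) - t) ≤ ∑ x ∈ X, ((#(N x) + 1 - t : ℕ) : ℝ) :=
      sum_le_sum fun x _ => by
        rw [sub_le_iff_le_add]
        exact_mod_cast (by omega : #(N x) ≤ #(N x) + 1 - t + t)
    rw [sum_sub_distrib, sum_const, nsmul_eq_mul] at this
    nlinarith [(Nat.cast_nonneg #X : (0 : ℝ) ≤ #X)]
  have h2 : (#X : ℝ) * (c * n / 2) ^ t ≤ ∑ x ∈ X, ((#(N x) + 1 - t : ℕ) : ℝ) ^ t := by
    rcases X.eq_empty_or_nonempty with rfl | hX
    · simp
    rcases t with _ | s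
    · simp
    have hX' : (0 : ℝ) < #X := by exact_mod_cast hX.card_pos
    refine le_trans ?_ (pow_sum_div_card_le_sum_pow (fun _ _ => Nat.cast_nonneg _) s)
    rw [le_div_iff₀ (by positivity)]
    refine le_trans (le_of_eq (by ring)) (pow_le_pow_left₀ (by positivity) h1 (s + 1))
  have h3 : ∑ S ∈ powersetCard t (range n), (#{x ∈ X | S ⊆ N x} : ℝ) =
      ∑ x ∈ X, ((#(N x)).choose t : ℝ) := by
    simp_rw [card_filter, Nat.cast_sum]
    rw [sum_comm]
    refine sum_congr rfl fun x _ => ?_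
    rw [← Nat.cast_sum, ← card_filter, ← card_powersetCard]
    congr 2
    ext S
    simp only [mem_filter, mem_powersetCard]
    exact ⟨fun h => ⟨h.2, h.1.2⟩, fun h => ⟨⟨h.1.trans (hN x), h.2⟩, h.1⟩⟩
  obtain ⟨S, hS, h4⟩ := exists_le_of_sum_le (f := fun _ => (c / 2) ^ t * (#X : ℝ))
    (g := fun S => (#{x ∈ X | S ⊆ N x} : ℝ))
    (powersetCard_nonempty.2 (htn.trans_eq (card_range n).symm)) (by
      rw [h3, sum_const, card_powersetCard, card_range, nsmul_eq_mul]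
      refine le_trans ?_ (sum_le_sum fun x _ => Nat.pow_le_choose t _)
      rw [← sum_div]
      refine (mul_le_mul_of_nonneg_right (Nat.choose_le_pow_div t n) (by positivity)).trans ?_
      refine le_trans (le_of_eq (by ring)) (div_le_div_of_nonneg_right h2 (by positivity)))
  exact ⟨S, (mem_powersetCard.1 hS).2, h4⟩

/-- The box theorem of Erdos. -/
theorem box (t r : ℕ) : ∀ c : ℝ, 0 < c → ∀ᶠ n : ℕ in atTop, ∀ E : Finset (Fin r → ℕ),
    E ⊆ Fintype.piFinset (fun _ => range n) → c * n ^ r ≤ #E →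
    ∃ H : Fin r → Finset ℕ, (∀ k, #(H k) = t) ∧ Fintype.piFinset H ⊆ E := by
  induction r with
  | zero =>
    refine fun c hc => .of_forall fun n E _ h => ⟨Fin.elim0, fun k => k.elim0, fun v _ => ?_⟩
    obtain ⟨w, hw⟩ := card_pos.1 (Nat.cast_pos.1 (lt_of_lt_of_le (by simpa using hc) h))
    exact Subsingleton.elim w v ▸ hw
  | succ r ih =>
    intro c hc
    filter_upwards [ih ((c / 2) ^ t) (by positivity), eventually_ge_atTop t,
      (tendsto_natCast_atTop_atTop.const_mul_atTop hc).eventually_ge_atTop (2 * (t : ℝ))]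
      with n a1 a2 a3 E hE h
    set X : Finset (Fin r → ℕ) := Fintype.piFinset fun _ => range n with hX
    have hX' : (#X : ℝ) = n ^ r := by simp [hX]
    obtain ⟨S, b1, b2⟩ := step t n hc a2 a3 X (fun x => {v ∈ range n | Fin.cons v x ∈ E})
      (fun _ => filter_subset _ _) (by
        rw [hX', mul_assoc, ← pow_succ', ← Nat.cast_sum, ← card_sigma]
        refine h.trans (Nat.cast_le.2 (card_le_card_of_injOn (fun v => ⟨Fin.tail v, v 0⟩)
          (fun v hv => ?_) fun v _ w _ e => ?_))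
        · have := Fintype.mem_piFinset.1 (hE hv)
          simp only [coe_sigma, Set.mem_sigma_iff, mem_coe, mem_filter, Fin.cons_self_tail]
          exact ⟨Fintype.mem_piFinset.2 fun k => this _, this _, hv⟩
        · obtain ⟨e1, e2⟩ := Sigma.mk.inj_iff.1 e
          rw [← Fin.cons_self_tail v, ← Fin.cons_self_tail w, e1, eq_of_heq e2])
    obtain ⟨H, b3, b4⟩ := a1 _ (filter_subset _ _) (hX' ▸ b2)
    refine ⟨Fin.cons S H, fun k => k.cases b1 b3, fun v hv => ?_⟩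
    have hv' := Fintype.mem_piFinset.1 hv
    have b5 := (mem_filter.1 (b4 (Fintype.mem_piFinset.2 fun k => hv' k.succ))).2 (hv' 0)
    exact Fin.cons_self_tail v ▸ (mem_filter.1 b5).2

theorem top (S : Finset ℕ) (f : ℕ → ℤ) {k : ℕ} (hk : k ≤ #S) :
    k ≤ #{s ∈ S | #{s' ∈ S | f s < f s'} < k} := by
  by_contra h
  push Not at h
  obtain ⟨s, hs, hm⟩ := exists_max_image (S \ {s ∈ S | #{s' ∈ S | f s < f s'} < k}) f
    (sdiff_nonempty.2 fun h' => absurd (card_le_card h') (by omega))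
  refine (mem_sdiff.1 hs).2 (mem_filter.2 ⟨(mem_sdiff.1 hs).1,
    lt_of_le_of_lt (card_le_card fun s' hs' => ?_) h⟩)
  by_contra h'
  exact absurd (hm s' (mem_sdiff.2 ⟨(mem_filter.1 hs').1, h'⟩)) (not_le.2 (mem_filter.1 hs').2)

theorem mul_le_sum {S S' : Finset ℕ} (h : S' ⊆ S) {k m : ℕ} (hk : k ≤ #S') (f : ℕ → ℕ)
    (hf : ∀ x ∈ S', m ≤ f x) : k * m ≤ ∑ x ∈ S, f x :=
  ((Nat.mul_le_mul_right m hk).trans (card_nsmul_le_sum _ _ _ hf)).trans
    (sum_le_sum_of_subset h)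

theorem tri (P0 P1 P2 : Finset ℕ) (N k : ℕ) (h : #P0 + #P1 + #P2 + 3 * k ≤ N) :
    k ^ 3 ≤ #{p ∈ Icc 1 N ×ˢ range N ×ˢ range N | p.2.1 < p.2.2 ∧ p.2.2 < p.1 ∧ p.1 ∉ P0 ∧
      p.2.2 - p.2.1 ∉ P0 ∧ p.2.1 ∉ P1 ∧ p.2.2 ∉ P1 ∧ p.1 - p.2.1 - 1 ∉ P2 ∧
      p.1 - p.2.2 - 1 ∉ P2} := by
  rw [card_filter, sum_product, pow_succ', pow_two]
  have h1 : k ≤ #(Icc 1 N \ P0) := by
    have := le_card_sdiff P0 (Icc 1 N)
    rw [Nat.card_Icc] at this
    omega
  refine mul_le_sum ((filter_subset _ _).trans sdiff_subset) (top _ (fun c => c) h1) _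
    fun c hc => ?_
  obtain ⟨hc1, hc2⟩ := mem_filter.1 hc
  obtain ⟨hc3, hc4⟩ := mem_sdiff.1 hc1
  rw [mem_Icc] at hc3
  have h2 : #(P0 ∩ Icc 1 c) + (N - c) < #P0 + k := by
    have a1 : #(P0 ∩ Icc 1 c) + #(P0 ∩ Ioc c N) ≤ #P0 := by
      rw [← card_union_of_disjoint (disjoint_left.2 fun x a b => by
        simp only [mem_inter, mem_Icc, mem_Ioc] at a b; omega)]
      exact card_le_card (union_subset inter_subset_left inter_subset_left)
    have a2 : Ioc c N ⊆ P0 ∩ Ioc c N ∪ {s' ∈ Icc 1 N \ P0 | (c : ℤ) < (s' : ℕ)} := fun x hx => by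
      by_cases a : x ∈ P0 <;> simp only [mem_union, mem_inter, mem_filter, mem_sdiff, mem_Icc,
        mem_Ioc, a] at hx ⊢ <;> simp <;> omega
    have a3 := (card_le_card a2).trans (card_union_le _ _)
    rw [Nat.card_Ioc] at a3
    omega
  set A := (range c \ P1) \ P2.image fun e => c - e - 1 with hA
  have h3 : c ≤ #A + #P1 + #P2 := by
    have a1 := le_card_sdiff P1 (range c)
    have a2 := le_card_sdiff (P2.image fun e => c - e - 1) (range c \ P1)
    have a3 := card_image_le (s := P2) (f := fun e => c - e - 1)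
    rw [card_range] at a1
    rw [← hA] at a2
    omega
  have h4 : ∀ a ∈ A, a < c ∧ a ∉ P1 ∧ c - a - 1 ∉ P2 := fun a ha => by
    simp only [hA, mem_sdiff, mem_range, mem_image, not_exists, not_and] at ha
    exact ⟨ha.1.1, ha.1.2, fun h' => ha.2 _ h' (by omega)⟩
  rw [sum_product]
  refine mul_le_sum (S' := {a ∈ A | #{a' ∈ A | -((a : ℕ) : ℤ) < -((a' : ℕ) : ℤ)} < k})
    (fun a ha => mem_range.2 (by have := h4 a (mem_filter.1 ha).1; omega))
    (top _ (fun a => -a) (by omega)) _ fun a ha => ?_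
  obtain ⟨ha1, ha2⟩ := mem_filter.1 ha
  obtain ⟨b1, b2, b3⟩ := h4 a ha1
  rw [← card_filter]
  refine le_of_not_gt fun hlt => ?_
  have a2 : A ⊆ insert a ({a' ∈ A | -(a : ℤ) < -((a' : ℕ) : ℤ)} ∪ ((P0 ∩ Icc 1 c).image (a + ·) ∪
      {b ∈ range N | a < b ∧ b < c ∧ c ∉ P0 ∧ b - a ∉ P0 ∧ a ∉ P1 ∧ b ∉ P1 ∧ c - a - 1 ∉ P2 ∧
        c - b - 1 ∉ P2})) := fun b hb => by
    obtain ⟨c1, c2, c3⟩ := h4 b hb
    simp only [mem_insert, mem_union, mem_filter, mem_image, mem_inter, mem_Icc, mem_range]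
    rcases lt_trichotomy b a with h' | h' | h'
    · exact .inr (.inl ⟨hb, by omega⟩)
    · exact .inl h'
    by_cases h'' : b - a ∈ P0
    · exact .inr (.inr (.inl ⟨b - a, ⟨h'', by omega⟩, by omega⟩))
    · exact .inr (.inr (.inr ⟨by omega, h', c1, hc4, h'', b2, c2, b3, c3⟩))
  have a3 := (card_le_card a2).trans ((card_insert_le _ _).trans (Nat.add_le_add_right
    ((card_union_le _ _).trans (Nat.add_le_add_left ((card_union_le _ _).trans
      (Nat.add_le_add_right card_image_le _)) _)) _))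
  simp only at hlt
  omega

/-- the point attached to coordinate `k` -/
def pt (k : Fin 4) (v : ℕ) : ℕ := 3 * v + if k = 1 ∨ k = 2 then 1 else 0

theorem quad (D : Finset ℕ) (N k : ℕ) (h : #D + 3 * k ≤ N) :
    N * k ^ 3 ≤ #{v ∈ Fintype.piFinset fun _ : Fin 4 => range (2 * N) | ∀ i j, i < j →
      pt i (v i) < pt j (v j) ∧ pt j (v j) - pt i (v i) ≤ 3 * N ∧ pt j (v j) - pt i (v i) ∉ D} := by
  let P : ℕ → Finset ℕ := fun r => {d ∈ D | d % 3 = r}.image (· / 3)
  have h1 : #(P 0) + #(P 1) + #(P 2) ≤ #D := by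
    rw [card_eq_sum_card_fiberwise (s := D) (t := range 3) (f := (· % 3))
      fun d _ => mem_coe.2 (mem_range.2 (Nat.mod_lt _ three_pos))]
    simp only [sum_range_succ, sum_range_zero, zero_add]
    exact Nat.add_le_add (Nat.add_le_add card_image_le card_image_le) card_image_le
  have h2 : ∀ r < 3, ∀ m, m ∉ P r → ∀ d, d = 3 * m + r → d ∉ D := fun r hr m hm d e hd =>
    hm (mem_image.2 ⟨d, mem_filter.2 ⟨hd, by omega⟩, by omega⟩)
  refine (Nat.mul_le_mul (card_range N).ge (tri (P 0) (P 1) (P 2) N k (by omega))).trans ?_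
  rw [← card_product]
  refine card_le_card_of_injOn (fun x => ![x.1, x.1 + x.2.2.1, x.1 + x.2.2.2, x.1 + x.2.1]) ?_ ?_
  · rintro ⟨u, c, a, b⟩ hx
    simp only [coe_product, coe_filter, Set.mem_prod, mem_coe, mem_range, Set.mem_ofPred_eq,
      mem_product, mem_Icc] at hx
    obtain ⟨a0, ⟨a1, a2, a3⟩, b1, b2, b3, b4, b5, b6, b7, b8⟩ := hx
    refine mem_coe.2 (mem_filter.2 ⟨Fintype.mem_piFinset.2 fun i => mem_range.2 ?_,
      fun i j hij => ?_⟩)
    · fin_cases i <;> simp <;> omega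
    · fin_cases i <;> fin_cases j <;> simp at hij <;> refine ⟨?_, ?_, ?_⟩ <;> simp [pt] <;>
        first
        | omega
        | exact h2 1 (by omega) _ b5 _ (by omega)
        | exact h2 1 (by omega) _ b6 _ (by omega)
        | exact h2 0 (by omega) _ b3 _ (by omega)
        | exact h2 0 (by omega) _ b4 _ (by omega)
        | exact h2 2 (by omega) _ b7 _ (by omega)
        | exact h2 2 (by omega) _ b8 _ (by omega)
  · rintro ⟨u, c, a, b⟩ - ⟨u', c', a', b'⟩ - e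
    simp only [Matrix.vecCons_inj, and_true] at e
    simp only [Prod.mk.injEq]
    omega

/-- A set of density below one third misses all cross differences of an admissible pattern. -/
theorem udens (t : ℕ) (ε : ℝ) (hε : 0 < ε) : ∀ᶠ T : ℕ in atTop, ∀ D : Finset ℕ,
    (#D : ℝ) ≤ (1 / 3 - ε) * T → ∃ h : Fin 4 × Fin t → ℕ, (∀ i, h i ≤ 2 * T) ∧
      Function.Injective h ∧ (∀ i j, i.1 < j.1 → h i < h j ∧ h j - h i ≤ T ∧ h j - h i ∉ D) ∧
      ∀ p : ℕ, p.Prime → p ≠ 2 → ∃ a : ZMod p, ∀ i, (h i : ZMod p) ≠ a := by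
  set W := (4 * t).factorial with hW
  have : NeZero W := ⟨Nat.factorial_ne_zero _⟩
  have hW0 : (0 : ℝ) < W := by exact_mod_cast Nat.factorial_pos _
  have ht : Tendsto (fun T : ℕ => 2 * (T / 3)) atTop atTop :=
    tendsto_atTop.2 fun b => (eventually_ge_atTop (3 * b)).mono fun T h => by omega
  filter_upwards [ht.eventually (box t 4 ((ε / 4) ^ 3 / 2 / W ^ 4) (by positivity)),
    (tendsto_natCast_atTop_atTop.const_mul_atTop hε).eventually_ge_atTop 16] with T a1 a2 D hD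
  set N := T / 3 with hN
  have b1 : (3 : ℝ) * N ≤ T := by exact_mod_cast (by omega : 3 * N ≤ T)
  have b2 : (T : ℝ) ≤ 3 * N + 2 := by exact_mod_cast (by omega : T ≤ 3 * N + 2)
  set k := ⌈ε * T / 4⌉₊ with hk
  have b3 : ε * T / 4 ≤ k := Nat.le_ceil _
  have b4 : (k : ℝ) < ε * T / 4 + 1 := Nat.ceil_lt_add_one (by positivity)
  have b5 := quad D N k (by
    have : (#D : ℝ) + 3 * k ≤ N := by linarith
    exact_mod_cast this)
  set E := {v ∈ Fintype.piFinset fun _ : Fin 4 => range (2 * N) | ∀ i j, i < j →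
      pt i (v i) < pt j (v j) ∧ pt j (v j) - pt i (v i) ≤ 3 * N ∧ pt j (v j) - pt i (v i) ∉ D}
    with hE
  obtain ⟨ρ, -, b6⟩ := exists_le_card_fiber_of_nsmul_le_card_of_maps_to (s := E) (t := univ)
    (f := fun v i => (v i : ZMod W)) (b := (ε / 4) ^ 3 / 2 / W ^ 4 * ((2 * N : ℕ) : ℝ) ^ 4)
    (fun _ _ => mem_univ _) univ_nonempty (by
      have c1 : ε / 4 * (2 * N) ≤ k := by nlinarith [(Nat.cast_nonneg N : (0 : ℝ) ≤ N)]
      have c2 := mul_le_mul_of_nonneg_left (pow_le_pow_left₀ (by positivity) c1 3)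
        (Nat.cast_nonneg N)
      refine le_trans (le_of_eq ?_) (c2.trans (by exact_mod_cast b5))
      simp only [card_univ, Fintype.card_pi, ZMod.card, prod_const, Fintype.card_fin, nsmul_eq_mul]
      push_cast
      field_simp)
  obtain ⟨H, c1, c2⟩ := a1 _ ((filter_subset _ _).trans (filter_subset _ _)) b6
  let g : Fin 4 → Fin t → ℕ := fun i j => (H i).orderEmbOfFin (c1 i) j
  have key : ∀ f : Fin 4 → Fin t, (fun i => g i (f i)) ∈ E ∧
      ∀ i, (g i (f i) : ZMod W) = ρ i := fun f => by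
    have := mem_filter.1 (c2 (Fintype.mem_piFinset.2 fun i => orderEmbOfFin_mem _ (c1 i) (f i)))
    exact ⟨this.1, congrFun this.2⟩
  have c3 : ∀ i j : Fin 4 × Fin t, i.1 < j.1 → pt i.1 (g i.1 i.2) < pt j.1 (g j.1 j.2) ∧
      pt j.1 (g j.1 j.2) - pt i.1 (g i.1 i.2) ≤ T ∧
      pt j.1 (g j.1 j.2) - pt i.1 (g i.1 i.2) ∉ D := fun i j hij => by
    have := (mem_filter.1 (key fun l => if l = i.1 then i.2 else j.2).1).2 i.1 j.1 hij
    simp only [if_true, if_neg hij.ne'] at this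
    exact ⟨this.1, by omega, this.2.2⟩
  refine ⟨fun i => pt i.1 (g i.1 i.2), fun i => ?_, ?_, c3, fun p hp h2 => ?_⟩
  · have := mem_range.1 (Fintype.mem_piFinset.1 (mem_filter.1 (key fun _ => i.2).1).1 i.1)
    simp only [pt]
    split_ifs <;> omega
  · rintro ⟨a, x⟩ ⟨b, y⟩ e
    rcases lt_trichotomy a b with hl | rfl | hl
    · exact absurd e (c3 (a, x) (b, y) hl).1.ne
    · simp only [pt] at e
      rw [((H a).orderEmbOfFin (c1 a)).injective (show g a x = g a y by omega)]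
    · exact absurd e (c3 (b, y) (a, x) hl).1.ne'
  by_cases h3 : p = 3
  · subst h3
    refine ⟨2, fun i => ?_⟩
    simp only [pt]
    push_cast
    rw [show (3 : ZMod 3) = 0 from rfl, zero_mul, zero_add]
    split_ifs <;> decide
  have h5 : 5 ≤ p := by
    have := hp.two_le
    have h4 : p ≠ 4 := by rintro rfl; exact absurd hp (by decide)
    omega
  have : NeZero p := ⟨hp.ne_zero⟩
  by_contra hcon
  push Not at hcon
  by_cases hle : p ≤ 4 * t
  · have hs : Function.Surjective fun i : Fin 4 => (pt i (ρ i).val : ZMod p) := fun a => by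
      obtain ⟨i, rfl⟩ := hcon a
      refine ⟨i.1, (ZMod.natCast_eq_natCast_iff _ _ _).2 ?_⟩
      rw [← (key fun _ => i.2).2 i.1, ZMod.val_natCast]
      exact (((Nat.mod_modEq _ _).of_dvd (Nat.dvd_factorial hp.pos hle)).mul_left 3).add_right _
    have := Fintype.card_le_of_surjective _ hs
    simp at this
    omega
  · have := Fintype.card_le_of_surjective _ hcon
    simp at this
    omega

end Pool.Agent.MP_678834_nt.UDens

end MrgPart0

-- ======== part 1: formerly Pool.Agent.MP_678834_nt.Free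
section MrgPart1

/-!
# PROJECT POLIGNAC: from the sieve to gaps between consecutive primes
-/

namespace Pool.Agent.MP_678834_nt

open Finset Filter Pool.Agent.MP_39a890_nt

theorem setup {κ : Type} [Fintype κ] (w₀ : ℕ) (h : κ → ℤ) (hinj : Function.Injective h)
    (hadm : ∀ p : ℕ, p.Prime → ∃ a : ZMod p, ∀ i, (h i : ZMod p) ≠ a) :
    ∃ (W : ℕ) (c : κ → ℕ), 0 < W ∧ (∀ q : ℕ, q.Prime → q ≤ w₀ → q ∣ W) ∧
      Forms (fun _ => W) c W ∧ (∀ i j, (c j : ℤ) - c i = h j - h i) ∧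
      ∀ n, 2 ≤ n → ∀ k i j, c i ≤ k → k ≤ c j → (W * n + k).Prime → ∃ l, k = c l := by
  classical
  set A : ℕ := univ.sup fun i => (h i).natAbs with hA
  have hle : ∀ i, (h i).natAbs ≤ A := fun i => le_sup (f := fun i => (h i).natAbs) (mem_univ i)
  set g : κ → ℕ := fun i => (h i + A).toNat with hg
  have hg1 : ∀ i, (g i : ℤ) = h i + A := fun i => Int.toNat_of_nonneg (by have := hle i; omega)
  have hg2 : ∀ i, g i ≤ 2 * A := fun i => by have := hle i; have := hg1 i; omega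
  set l : ℕ → ℕ := fun k => Nat.nth Nat.Prime (2 * A + k) with hl
  have hl1 : ∀ k, (l k).Prime := fun k => Nat.prime_nth_prime _
  have hl2 : ∀ k, 2 * A < l k := fun k => by
    have := Nat.add_two_le_nth_prime (2 * A + k)
    simp only [hl]; omega
  have hl3 : StrictMono l := fun a b hab =>
    Nat.nth_strictMono Nat.infinite_setOfPred_prime (by omega)
  have hβ : ∀ p : ℕ, ∃ β : ℕ, p.Prime → (∀ i, ¬ p ∣ β + g i) ∧
      ∀ k ≤ 2 * A, (∀ i, k ≠ g i) → p = l k → p ∣ β + k := by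
    intro p
    by_cases hp : p.Prime
    swap
    · exact ⟨0, fun h => absurd h hp⟩
    by_cases h1 : ∃ k ≤ 2 * A, (∀ i, k ≠ g i) ∧ p = l k
    · obtain ⟨k, hk, h2, rfl⟩ := h1
      have := hl2 k
      refine ⟨l k - k, fun _ => ⟨fun i hi => ?_, fun k' _ _ e => ?_⟩⟩
      · have h3 := hg2 i
        have h4 := h2 i
        obtain ⟨m, hm⟩ := hi
        rcases m with _ | _ | m
        · omega
        · omega
        · have : l k * (m + 1 + 1) = l k * m + 2 * l k := by ring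
          omega
      · rw [← hl3.injective e, Nat.sub_add_cancel (by omega)]
    · obtain ⟨a, ha⟩ := hadm p hp
      have : NeZero p := ⟨hp.ne_zero⟩
      refine ⟨(-(a + A)).val, fun _ => ⟨fun i hi => ha i ?_, fun k hk h2 e => ?_⟩⟩
      · rw [← ZMod.natCast_eq_zero_iff, Nat.cast_add, ZMod.natCast_zmod_val] at hi
        have : ((g i : ℤ) : ZMod p) = ((h i + A : ℤ) : ZMod p) := by rw [hg1]
        push_cast at this
        linear_combination hi - this
      · exact absurd ⟨k, hk, h2, e⟩ h1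
  choose β hβ using hβ
  set w := max w₀ (l (2 * A)) with hw
  obtain ⟨b, hb⟩ := Nat.chineseRemainderOfFinset β id ((range (w + 1)).filter Nat.Prime)
    (fun p hp => (mem_filter.1 hp).2.ne_zero) (fun p hp q hq hne =>
      (Nat.coprime_primes (mem_filter.1 hp).2 (mem_filter.1 hq).2).2 hne)
  have hb' : ∀ p : ℕ, p.Prime → p ≤ w → ∀ k, p ∣ b + k ↔ p ∣ β p + k := fun p hp hw k =>
    ((hb p (mem_filter.2 ⟨mem_range.2 (by omega), hp⟩)).add_right k).dvd_iff dvd_rfl
  have hW : ∀ q : ℕ, q.Prime → (q ∣ primorial w ↔ q ≤ w) := fun q hq => hq.dvd_primorial_iff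
  refine ⟨primorial w, fun i => b + g i, primorial_pos w,
    fun q hq h1 => (hW q hq).2 (h1.trans (le_max_left _ _)),
    ⟨fun _ => dvd_rfl, fun _ _ _ h => h, fun i => ?_, fun i j hij q hq h1 => ?_⟩,
    fun i j => by push_cast; rw [hg1, hg1]; ring, fun n hn k i j h1 h2 h3 => ?_⟩
  · refine Nat.coprime_of_dvd fun p hp h1 h2 => ?_
    exact (hβ p hp).1 i ((hb' p hp ((hW p hp).1 h2) _).1 h1)
  · rw [← mul_sub] at h1
    rcases (Nat.prime_iff_prime_int.1 hq).dvd_or_dvd h1 with h2 | h2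
    · exact_mod_cast h2
    · have h3 : ((b + g j : ℕ) : ℤ) - (b + g i : ℕ) ≠ 0 := fun e => hij (hinj (by
        push_cast at e; rw [hg1, hg1] at e; linarith))
      have h4 := Int.natAbs_le_of_dvd_ne_zero h2 h3
      have := hg2 i
      have := hg2 j
      have := hl2 (2 * A)
      refine (hW q hq).2 (le_trans ?_ (le_max_right _ _))
      omega
  · by_contra hc
    push Not at hc
    beta_reduce at h1 h2
    obtain ⟨m, rfl⟩ : ∃ m, k = b + m := ⟨k - b, by omega⟩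
    have hm : m ≤ 2 * A := by have := hg2 j; omega
    have h4 : l m ≤ w := (hl3.monotone hm).trans (le_max_right _ _)
    have h5 : l m ∣ b + m := (hb' _ (hl1 m) h4 m).2
      ((hβ _ (hl1 m)).2 m hm (fun i e => hc i (by rw [e])) rfl)
    have h6 := (hW _ (hl1 m)).2 h4
    have h7 := (Nat.prime_dvd_prime_iff_eq (hl1 m) h3).1 (dvd_add (h6.mul_right n) h5)
    have h8 := Nat.le_of_dvd (primorial_pos w) h6
    have h9 := primorial_pos w
    nlinarith

/-- `p - d` and `p` are consecutive primes. -/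
def Gap (d p : ℕ) : Prop :=
  d < p ∧ (p - d).Prime ∧ p.Prime ∧ ∀ n, p - d < n → n < p → ¬ n.Prime

theorem consec {t : ℕ} {c : Fin 4 × Fin t → ℕ} (hord : ∀ i j, i.1 < j.1 → c i < c j) {y : ℕ}
    (hy : ∀ k i j, c i ≤ k → k ≤ c j → (y + k).Prime → ∃ l, k = c l) {i j : Fin 4 × Fin t}
    (hij : i.1 < j.1) (hi : (y + c i).Prime) (hj : (y + c j).Prime) :
    ∃ i j : Fin 4 × Fin t, i.1 < j.1 ∧ Gap (c j - c i) (y + c j) := by
  classical
  obtain ⟨u, hu, hu'⟩ := exists_max_image (univ.filter fun u => u.1 ≤ i.1 ∧ (y + c u).Prime) c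
    ⟨i, by simp [hi]⟩
  obtain ⟨v, hv, hv'⟩ := exists_min_image (univ.filter fun v => i.1 < v.1 ∧ (y + c v).Prime) c
    ⟨j, by simp [hij, hj]⟩
  simp only [mem_filter, mem_univ, true_and, and_imp] at hu hv hu' hv'
  have huv := hu.1.trans_lt hv.1
  have h1 := hord u v huv
  have e : y + c v - (c v - c u) = y + c u := by omega
  have h2 := hu.2.two_le
  refine ⟨u, v, huv, by omega, by rw [e]; exact hu.2, hv.2, fun n h3 h4 hn => ?_⟩
  obtain ⟨k, rfl⟩ : ∃ k, n = y + k := ⟨n - y, by omega⟩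
  obtain ⟨l, rfl⟩ := hy k u v (by omega) (by omega) hn
  rcases le_or_gt l.1 i.1 with h | h
  · have := hu' l h hn
    omega
  · have := hv' l h hn
    omega

theorem dens (t q : ℕ) (hq : 0 < q) (ε : ℝ) (hε : 0 < ε) : ∀ᶠ T : ℕ in atTop,
    ∃ F : Finset (Fin 4 × Fin t → ℤ), (∀ h ∈ F, Function.Injective h ∧
      (∀ i j, i.1 < j.1 → h i < h j) ∧ ∀ p : ℕ, p.Prime → ∃ a : ZMod p, ∀ i, (h i : ZMod p) ≠ a) ∧
    ∀ (P : ℕ → Prop) [DecidablePred fun m => P (2 * q * m)],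
      (∀ h ∈ F, ∃ i j, i.1 < j.1 ∧ P (h j - h i).toNat) →
      (1 / 3 - ε) * T ≤ (((Icc 1 T).filter fun m => P (2 * q * m)).card : ℝ) := by
  classical
  filter_upwards [UDens.udens t ε hε] with T hT
  refine ⟨(Fintype.piFinset fun _ => Icc (0 : ℤ) (2 * q * (2 * T))).filter _,
    fun h hh => (mem_filter.1 hh).2, fun P _ hP => le_of_not_gt fun hlt => ?_⟩
  obtain ⟨h, h1, h2, h3, h4⟩ := hT _ hlt.le
  have hq' : (0 : ℤ) < 2 * q := by positivity
  obtain ⟨i, j, hij, h5⟩ := hP (fun i => 2 * q * h i) (mem_filter.2 ⟨Fintype.mem_piFinset.2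
    fun i => mem_Icc.2 ⟨by positivity, mul_le_mul_of_nonneg_left (by exact_mod_cast h1 i) hq'.le⟩,
    fun i j e => h2 (Nat.cast_injective (mul_left_cancel₀ hq'.ne' e)),
    fun i j hij => mul_lt_mul_of_pos_left (Nat.cast_lt.2 (h3 i j hij).1) hq', fun p hp => by
      have := Fact.mk hp
      by_cases h0 : (2 * q : ZMod p) = 0
      · exact ⟨1, fun i => by simp [h0]⟩
      · obtain ⟨a, ha⟩ := h4 p hp (by
          rintro rfl
          exact h0 (by rw [show (2 : ZMod 2) = 0 from rfl, zero_mul]))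
        exact ⟨2 * q * a, fun i e => ha i (mul_left_cancel₀ h0 (by simpa using e))⟩⟩)
  obtain ⟨a1, a2, a3⟩ := h3 i j hij
  refine a3 (mem_filter.2 ⟨mem_Icc.2 ⟨by omega, a2⟩, ?_⟩)
  rwa [← mul_sub, ← Nat.cast_sub a1.le, show (2 * q : ℤ) = (2 * q : ℕ) by simp, ← Nat.cast_mul,
    Int.toNat_natCast] at h5

open Classical in
/-- The sieve with four parts, with a lower bound `g X` for the number of good `n`. -/
def SV (g : ℝ → ℝ) : Prop :=
  ∃ t w₀ : ℕ, ∀ W : ℕ, 0 < W → (∀ q : ℕ, q.Prime → q ≤ w₀ → q ∣ W) →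
    ∀ c : Fin 4 × Fin t → ℕ, Forms (fun _ => W) c W → ∀ᶠ X : ℝ in atTop,
      g X ≤ (((range ⌈3 * X⌉₊).filter fun n : ℕ => X ≤ n ∧ (n : ℝ) ≤ 2 * X ∧
        ∃ i j, i.1 < j.1 ∧ (W * n + c i).Prime ∧ (W * n + c j).Prime).card : ℝ)

open Classical in
theorem pairs {g : ℝ → ℝ} (hg : SV g) : ∃ t : ℕ, ∀ h : Fin 4 × Fin t → ℤ, Function.Injective h →
    (∀ i j, i.1 < j.1 → h i < h j) → (∀ p : ℕ, p.Prime → ∃ a : ZMod p, ∀ i, (h i : ZMod p) ≠ a) →
    ∃ W : ℕ, 0 < W ∧ ∀ᶠ x : ℝ in atTop, g (x / (3 * W)) ≤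
      ∑ z ∈ univ.filter fun z : (Fin 4 × Fin t) × (Fin 4 × Fin t) => z.1.1 < z.2.1,
        (((Icc ⌈x / (3 * W)⌉₊ ⌊x⌋₊).filter (Gap (h z.2 - h z.1).toNat)).card : ℝ) := by
  obtain ⟨t, w₀, hg⟩ := hg
  refine ⟨t, fun h hinj hord hadm => ?_⟩
  obtain ⟨W, c, hW, h1, h2, h3, h4⟩ := setup w₀ h hinj hadm
  refine ⟨W, hW, ?_⟩
  have hW' : (0 : ℝ) < W := by exact_mod_cast hW
  have hW1 : (1 : ℝ) ≤ W := by exact_mod_cast hW
  have ht : Tendsto (fun x : ℝ => x / (3 * W)) atTop atTop :=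
    tendsto_id.atTop_div_const (by positivity)
  have hc : ∀ i j, i.1 < j.1 → c i < c j := fun i j hij => by
    have := hord i j hij
    have := h3 i j
    omega
  filter_upwards [ht.eventually (hg W hW h1 c h2), ht.eventually_ge_atTop 2,
    eventually_all.2 fun j => eventually_ge_atTop (3 * (c j : ℝ))] with x a1 a2 a3
  refine a1.trans ?_
  rw [← Nat.cast_sum, Nat.cast_le]
  refine (card_le_card (t := (univ.filter fun z : (Fin 4 × Fin t) × (Fin 4 × Fin t) =>
    z.1.1 < z.2.1).biUnion fun z => (range ⌈3 * (x / (3 * W))⌉₊).filter fun n : ℕ =>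
      x / (3 * W) ≤ n ∧ (n : ℝ) ≤ 2 * (x / (3 * W)) ∧ Gap (c z.2 - c z.1) (W * n + c z.2))
    fun n hn => ?_).trans (card_biUnion_le.trans (sum_le_sum fun z hz => ?_))
  · obtain ⟨b1, b2, b3, i, j, hij, hi, hj⟩ := mem_filter.1 hn
    have b4 : 2 ≤ n := by exact_mod_cast a2.trans b2
    obtain ⟨u, v, huv, b5⟩ := consec hc (h4 n b4) hij hi hj
    exact mem_biUnion.2 ⟨(u, v), by simpa using huv, mem_filter.2 ⟨b1, b2, b3, b5⟩⟩
  · refine card_le_card_of_injOn (fun n => W * n + c z.2) (fun n hn => ?_) fun n _ n' _ e => ?_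
    · obtain ⟨-, b2, b3, b5⟩ := mem_filter.1 (mem_coe.1 hn)
      have e : (h z.2 - h z.1).toNat = c z.2 - c z.1 := by
        have := h3 z.1 z.2
        omega
      refine mem_coe.2 (mem_filter.2 ⟨mem_Icc.2 ⟨Nat.ceil_le.2 ?_, Nat.le_floor ?_⟩, e ▸ b5⟩)
      · push_cast
        nlinarith [(Nat.cast_nonneg n : (0 : ℝ) ≤ n), (Nat.cast_nonneg (c z.2) : (0 : ℝ) ≤ c z.2)]
      · have b6 := mul_le_mul_of_nonneg_left b3 hW'.le
        have b7 : W * (2 * (x / (3 * W))) = 2 * x / 3 := by field_simp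
        push_cast
        linarith [a3 z.2]
    · exact Nat.eq_of_mul_eq_mul_left hW (Nat.add_right_cancel e)

theorem sv_of_sieve (h : SieveFor fun _ => True) : SV fun _ => 1 := by
  classical
  obtain ⟨t, w₀, -, h⟩ := h 4 (by norm_num)
  refine ⟨t, w₀, fun W hW h1 c h2 => ?_⟩
  let b : ContDiffBump (3 / 2 : ℝ) := ⟨1 / 4, 1 / 2, by norm_num, by norm_num⟩
  have hb : Wt b := ⟨b.contDiff, fun x hx => by
    have : x ∈ Function.support b := hx
    rw [b.support_eq, Real.ball_eq_Ioo] at this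
    constructor <;> linarith [this.1, this.2, show b.rOut = 1 / 2 from rfl],
    fun _ => b.nonneg, fun _ => b.le_one⟩
  filter_upwards [h W hW h1 _ c h2 (fun _ => trivial) b hb b.integral_pos,
    eventually_gt_atTop 0] with X ⟨n, a1, a2⟩ hX
  obtain ⟨a3, a4⟩ := hb.supp _ a1
  rw [le_div_iff₀ hX, one_mul] at a3
  rw [div_le_iff₀ hX] at a4
  obtain ⟨m, hm, m', hm', hne⟩ := one_lt_card.1 (show 1 < (univ.filter fun m : Fin 4 =>
    ∃ j, (W * n + c (m, j)).Prime).card by omega)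
  obtain ⟨j, hj⟩ := (mem_filter.1 hm).2
  obtain ⟨j', hj'⟩ := (mem_filter.1 hm').2
  refine Nat.one_le_cast.2 (card_pos.2 ⟨n, mem_filter.2 ⟨mem_range.2 (Nat.lt_ceil.2 (by linarith)),
    a3, a4, ?_⟩⟩)
  rcases lt_or_gt_of_ne hne with h3 | h3
  · exact ⟨(m, j), (m', j'), h3, hj, hj'⟩
  · exact ⟨(m', j'), (m, j), h3, hj', hj⟩

open Classical in
/-- The qualitative form. -/
theorem third_of (h : SV fun _ => 1) (q : ℕ) (hq : 0 < q) (ε : ℝ) (hε : 0 < ε) :
    ∀ᶠ T : ℕ in atTop, (1 / 3 - ε) * T ≤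
      (((Icc 1 T).filter fun m => ∀ N, ∃ p, N ≤ p ∧ Gap (2 * q * m) p).card : ℝ) := by
  obtain ⟨t, h⟩ := pairs h
  filter_upwards [dens t q hq ε hε] with T ⟨F, h1, h2⟩
  refine h2 (fun d => ∀ N, ∃ p, N ≤ p ∧ Gap d p) fun f hf => ?_
  obtain ⟨W, hW, h⟩ := h f (h1 f hf).1 (h1 f hf).2.1 (h1 f hf).2.2
  by_contra hc
  push Not at hc
  choose! N hN using hc
  have ht : Tendsto (fun x : ℝ => x / (3 * W)) atTop atTop :=
    tendsto_id.atTop_div_const (by positivity)
  obtain ⟨x, a1, a2⟩ := (h.and (eventually_all.2 fun z : (Fin 4 × Fin t) × (Fin 4 × Fin t) =>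
    ht.eventually_ge_atTop (N z.1 z.2 : ℝ))).exists
  rw [sum_eq_zero] at a1
  · linarith
  · intro z hz
    rw [Nat.cast_eq_zero, card_eq_zero, filter_eq_empty_iff]
    intro p hp
    refine hN _ _ (mem_filter.1 hz).2 p ?_
    exact_mod_cast (a2 z).trans (Nat.ceil_le.1 (mem_Icc.1 hp).1)

open Classical in
/-- The quantitative form. -/
theorem thirdQ_of {K : ℕ} (h : SV fun X => X / Real.log X ^ K) (q : ℕ) (hq : 0 < q) (ε : ℝ)
    (hε : 0 < ε) : ∀ᶠ T : ℕ in atTop, ∀ᶠ x : ℝ in atTop,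
      (1 / 3 - ε) * T ≤ (((Icc 1 T).filter fun m => x / Real.log x ^ (K + 1) ≤
        (((Icc 1 ⌊x⌋₊).filter (Gap (2 * q * m))).card : ℝ)).card : ℝ) := by
  obtain ⟨t, h⟩ := pairs h
  filter_upwards [dens t q hq ε hε] with T ⟨F, h1, h2⟩
  refine ((eventually_all_finset F).2 fun f hf => ?_).mono fun x => h2 fun d =>
    x / Real.log x ^ (K + 1) ≤ (((Icc 1 ⌊x⌋₊).filter (Gap d)).card : ℝ)
  obtain ⟨W, hW, h⟩ := h f (h1 f hf).1 (h1 f hf).2.1 (h1 f hf).2.2
  have hW1 : (1 : ℝ) ≤ W := by exact_mod_cast hW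
  have ht : Tendsto (fun x : ℝ => x / (3 * W)) atTop atTop :=
    tendsto_id.atTop_div_const (by positivity)
  set Z := univ.filter fun z : (Fin 4 × Fin t) × (Fin 4 × Fin t) => z.1.1 < z.2.1 with hZ
  filter_upwards [h, ht.eventually_gt_atTop 1, Real.tendsto_log_atTop.eventually_gt_atTop
    (3 * W * Z.card)] with x a1 a3 a4
  by_contra hc
  push Not at hc
  have a5 : 0 < Real.log (x / (3 * W)) := Real.log_pos a3
  have a6 : x / (3 * W) ≤ x := by
    rw [lt_div_iff₀ (by positivity)] at a3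
    exact div_le_self (by linarith) (by linarith)
  have a7 : Real.log (x / (3 * W)) ≤ Real.log x := Real.log_le_log (by linarith) a6
  have a8 : 0 < Real.log x := a5.trans_le a7
  have hx0 : 0 < x := by linarith
  have b1 : x / (3 * W) / Real.log (x / (3 * W)) ^ K ≤ Z.card * (x / Real.log x ^ (K + 1)) := by
    refine a1.trans ?_
    rw [← nsmul_eq_mul]
    refine sum_le_card_nsmul _ _ _ fun z hz => le_trans (Nat.cast_le.2 (card_le_card
      (filter_subset_filter _ (Icc_subset_Icc_left ?_)))) (hc _ _ (mem_filter.1 hz).2).le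
    exact Nat.ceil_pos.2 (by linarith)
  have b2 : x / (3 * W) / Real.log x ^ K ≤ x / (3 * W) / Real.log (x / (3 * W)) ^ K := by gcongr
  have b3 : Z.card * (x / Real.log x ^ (K + 1)) < x / (3 * W) / Real.log x ^ K := by
    rw [div_div, ← mul_div_assoc, div_lt_div_iff₀ (by positivity) (by positivity), pow_succ]
    have := mul_lt_mul_of_pos_left a4 (show 0 < x * Real.log x ^ K by positivity)
    linarith
  linarith

end Pool.Agent.MP_678834_nt

end MrgPart1

-- marker of a merged file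
example : 731051 + 453669 = 731051 + 453669 := rfl
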