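import Pool.Agent.MP_39a890_nt.Sieve
import Pool.Agent.MP_39a890_nt.Fin
import Pool.Agent.MP_678834_nt.Free

/-!
# The sieve with four parts, counting form
-/

namespace Pool.Agent.MP_678834_nt

open Finset Filter Pool.Agent.MP_39a890_nt Pool.Agent.MP_39a890_nt.Sums
  Pool.Agent.MP_39a890_nt.Core

variable {ι : Type} [Fintype ι] [DecidableEq ι] {κ : Type} [Fintype κ] [DecidableEq κ]

theorem abs_V_le (t : ι → ℝ) (h0 : ∀ p, 0 ≤ t p) (h1 : ∀ p, t p ≤ 1) (c : (κ → Finset ι) → ℝ)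
    (hc : ∀ r, |c r| ≤ 1) (U : Finset (Finset ι)) (hU : ∀ u ∈ U, ∀ v ⊆ u, v ∈ U)
    (hcU : ∀ r, c r ≠ 0 → ∀ k, r k ∈ U) (w : ι → Option κ) :
    |V t c w| ≤ (∑ u ∈ U, ∏ p ∈ u, t p) ^ Fintype.card κ *
      ∏ k, 3 ^ (univ.filter fun p => w p = some k).card := by
  have e : ∀ k, (3 : ℝ) ^ (univ.filter fun p => w p = some k).card =
      ∑ e : Finset ι, 2 ^ e.card * ind1 e k w := fun k => by
    simp_rw [ind1, ← prod_const, ← prod_mul_distrib]
    rw [sum_prod_univ, prod_filter]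
    exact prod_congr rfl fun p _ => by split_ifs <;> norm_num
  simp_rw [e]
  rw [← sum_prod_eq fun k (e : Finset ι) => 2 ^ e.card * ind1 e k w, mul_sum, V_eq]
  refine (abs_sum_le_sum_abs _ _).trans (sum_le_sum fun T _ => ?_)
  have h2 : 0 ≤ ind T w := by rw [ind_eq]; split_ifs <;> norm_num
  rw [abs_mul, abs_of_nonneg h2, prod_mul_distrib]
  refine (mul_le_mul_of_nonneg_right (abs_lam_le t h0 h1 c hc U hU hcU T) h2).trans (le_of_eq ?_)
  rw [ind]; ring

theorem sum_pow_omega (B Y : ℕ) :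
    ∑ m ∈ Icc 1 Y, (B : ℝ) ^ m.primeFactors.card ≤ Y * (1 + Real.log Y) ^ B := by
  refine le_trans ?_ (mul_le_mul_of_nonneg_left (BV.sum_hw_le B Y) (Nat.cast_nonneg _))
  rw [mul_sum]
  refine sum_le_sum fun m hm => ?_
  obtain ⟨h1, h2⟩ := mem_Icc.1 hm
  rw [BV.hw, mul_div_assoc', le_div_iff₀ (by exact_mod_cast h1), mul_comm]
  exact mul_le_mul_of_nonneg_right (by exact_mod_cast h2) (by positivity)

omit [DecidableEq κ] in
theorem prod_le_sum_pow [Nonempty κ] (x : κ → ℝ) (hx : ∀ k, 0 ≤ x k) :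
    ∏ k, x k ≤ ∑ k, x k ^ Fintype.card κ := by
  obtain ⟨k, -, hk⟩ := exists_max_image univ x univ_nonempty
  refine le_trans ?_ (single_le_sum (fun l _ => pow_nonneg (hx l) _) (mem_univ k))
  rw [← card_univ, ← prod_const]
  exact prod_le_prod (fun l _ => hx l) hk

theorem mom4 [Nonempty κ] {pr : ι → ℕ} {a b : κ → ℕ} {W : ℕ} {φ : ℝ → ℝ} {L δ lam ε C ρ τ c : ℝ}
    {p₀ J : ℕ} (h : Big pr a b W φ L δ lam ε C ρ τ p₀ J) (ha : ∀ k, 0 < a k) (hc0 : 0 < c)
    (hc1 : c ≤ Real.exp L) (hc : ∀ k, ∀ n : ℕ, φ (n / Real.exp L) ≠ 0 →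
      0 < a k * n + b k ∧ ((a k * n + b k : ℕ) : ℝ) ≤ c * Real.exp L) :
    ∑ n ∈ NN (Real.exp L), (μU φ (Real.exp L) n *
        V (tt pr) (yw pr L δ lam p₀ J) (om pr a b n) ^ 2) ^ 2 ≤
      L ^ (4 * Fintype.card κ) * (Fintype.card κ *
        (c * Real.exp L * (3 * L) ^ 81 ^ Fintype.card κ)) := by
  classical
  set K := Fintype.card κ with hK
  have hL := h.L0
  have hX := Real.exp_pos L
  set N := (NN (Real.exp L)).filter fun n : ℕ => φ (n / Real.exp L) ≠ 0 with hN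
  have h1 : ∀ n ∈ N, (μU φ (Real.exp L) n * V (tt pr) (yw pr L δ lam p₀ J) (om pr a b n) ^ 2) ^ 2 ≤
      L ^ (4 * K) * ∑ k, ((81 ^ K : ℕ) : ℝ) ^ (a k * n + b k).primeFactors.card := by
    intro n hn
    have a1 := abs_V_le (tt pr) h.gok.t0 (tt_le_one h.ps) (yw pr L δ lam p₀ J)
      (fun r => (abs_of_nonneg (h.gok.yy_nonneg r)).trans_le (h.gok.yy_le_one r))
      (univ.filter fun u => lv pr u ≤ 272 / 1000 * L)
      (fun u hu v hv => mem_filter.2 ⟨mem_univ _, (lv_mono h.ps hv).trans (mem_filter.1 hu).2⟩)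
      (fun r hr k => mem_filter.2 ⟨mem_univ _, by
        have h3 := single_le_sum (f := fun k => lv pr (r k)) (fun k _ => lv_nonneg _) (mem_univ k)
        have h4 := Ctx.yw_lv r hr
        nlinarith [h.δε, h.ε1]⟩) (om pr a b n)
    have a2 : |V (tt pr) (yw pr L δ lam p₀ J) (om pr a b n)| ≤
        L ^ K * ∏ k, 3 ^ (a k * n + b k).primeFactors.card := by
      refine a1.trans (mul_le_mul (pow_le_pow_left₀ (sum_nonneg fun u _ => (wt_pos h.ps u).le)
        (h.one.H_le.trans (mul_le_of_le_one_left hL.le h.ρ1)) _) (prod_le_prod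
        (fun _ _ => by positivity) fun k _ => pow_le_pow_right₀ (by norm_num) ?_)
        (by positivity) (by positivity))
      exact card_le_card_of_injOn pr (fun p hp => mem_coe.2 (Nat.mem_primeFactors.2
        ⟨h.ps.prime p, (om_eq h.ps h.fo).1 (mem_filter.1 hp).2,
          (hc k n (mem_filter.1 hn).2).1.ne'⟩)) h.ps.inj.injOn
    have a3 := pow_le_pow_left₀ (abs_nonneg _) a2 4
    have a4 := prod_le_sum_pow (fun k => (81 : ℝ) ^ (a k * n + b k).primeFactors.card)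
      fun _ => by positivity
    have a5 : μU φ (Real.exp L) n ^ 2 ≤ 1 := pow_le_one₀ (h.wt.nonneg _) (h.wt.le_one _)
    rw [mul_pow, ← pow_mul]
    refine (mul_le_of_le_one_left (Even.pow_nonneg (by decide) _) a5).trans ?_
    rw [Even.pow_abs (by decide), mul_pow, ← pow_mul, mul_comm K, ← prod_pow] at a3
    refine a3.trans (mul_le_mul_of_nonneg_left ((le_of_eq ?_).trans (a4.trans_eq ?_))
      (by positivity))
    · exact prod_congr rfl fun k _ => by rw [← pow_mul, mul_comm, pow_mul]; norm_num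
    · exact sum_congr rfl fun k _ => by push_cast; rw [← pow_mul, mul_comm, pow_mul]
  rw [← sum_subset (filter_subset (fun n : ℕ => φ (n / Real.exp L) ≠ 0) _) fun n hn h' => by
    have : φ (n / Real.exp L) = 0 := by_contra fun h'' => h' (mem_filter.2 ⟨hn, h''⟩)
    simp [μU, this]]
  refine (sum_le_sum h1).trans ?_
  rw [← mul_sum, sum_comm, ← nsmul_eq_mul]
  refine mul_le_mul_of_nonneg_left (sum_le_card_nsmul _ _ _ fun k _ => ?_) (by positivity)
  set Y := ⌊c * Real.exp L⌋₊ with hY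
  have b1 : (Y : ℝ) ≤ c * Real.exp L := Nat.floor_le (by positivity)
  rw [← sum_image (g := fun n => a k * n + b k)
    (f := fun m : ℕ => ((81 ^ K : ℕ) : ℝ) ^ m.primeFactors.card) fun n _ n' _ e =>
      Nat.eq_of_mul_eq_mul_left (ha k) (Nat.add_right_cancel e)]
  refine (sum_le_sum_of_subset_of_nonneg (fun m hm => ?_) fun _ _ _ => by positivity).trans
    ((sum_pow_omega _ Y).trans (mul_le_mul b1 (pow_le_pow_left₀
      (by have := Real.log_natCast_nonneg Y; positivity) ?_ _)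
      (by have := Real.log_natCast_nonneg Y; positivity) (by positivity)))
  · obtain ⟨n, hn, rfl⟩ := mem_image.1 hm
    exact mem_Icc.2 ⟨(hc k n (mem_filter.1 hn).2).1, Nat.le_floor (hc k n (mem_filter.1 hn).2).2⟩
  · have b2 : Real.log Y ≤ L + L := by
      rcases Y.eq_zero_or_pos with h0 | h0
      · rw [h0]; simp; positivity
      · rw [Real.log_le_iff_le_exp (by exact_mod_cast h0), Real.exp_add]
        exact b1.trans (mul_le_mul_of_nonneg_right hc1 hX.le)
    linarith [h.L1]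

open Classical in
theorem finQ {t : ℕ} (N : Finset ℕ) (ν : ℕ → ℝ) (Y : Fin 4 × Fin t → ℕ → ℝ)
    (P : Fin 4 × Fin t → ℕ → Prop) {Ξ c₀ B e : ℝ} (ht : 0 < t) (hΞ : 0 < Ξ) (hc : 0 < c₀)
    (he : 0 ≤ e) (he' : e ≤ 1 / 10 ^ 9) (hB : B ≤ e * t * c₀) (hν : ∀ n, 0 ≤ ν n)
    (hY : ∀ i n, 0 ≤ Y i n) (hP : ∀ i, ∀ n ∈ N, ν n ≠ 0 → P i n → 1 ≤ Y i n)
    (h0 : ∑ n ∈ N, ν n ≤ (1 + e) * Ξ) (h1 : ∀ i, (1 - e) * (Ξ * c₀) ≤ ∑ n ∈ N, ν n * Y i n)
    (h2 : ∀ i, ∑ n ∈ N, ν n * Y i n ^ 2 ≤ B * (Ξ * c₀))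
    (h3 : ∀ i j, i ≠ j → ∑ n ∈ N, ν n * (Y i n * Y j n) ≤ (1 + e) * (Ξ * c₀ ^ 2))
    (h4 : ∀ i, 2695 / 10000 * (Ξ * c₀) ≤ ∑ n ∈ N, if P i n then ν n else 0) (A : Finset ℕ)
    (hA : ∀ n ∈ N, ν n ≠ 0 → ∀ i j, i.1 < j.1 → P i n → P j n → n ∈ A) :
    (Ξ / 40) ^ 2 ≤ A.card * ∑ n ∈ N, ν n ^ 2 := by
  set G : ℕ → ℝ := fun n => if n ∈ A then 1 else 0 with hG
  have k1 : ∀ m : Fin 4,
      26942 / 100000 * Ξ ≤ ∑ n ∈ N, ν n * (if ∃ j, P (m, j) n then 1 else 0) := fun m => by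
    convert FinM.part N ν (fun j => Y (m, j)) (fun j => P (m, j)) ht hΞ hc he he' hB hν
      (fun i n => hY _ n) (fun i => hP _) h0 (fun i => h1 _) (fun i => h2 _)
      (fun i j hij => h3 _ _ fun h => hij (Prod.ext_iff.1 h).2) (fun i => by convert h4 (m, i))
  have k2 : ∀ n ∈ N, ∑ m : Fin 4, ν n * (if ∃ j, P (m, j) n then 1 else 0) ≤
      ν n + 3 * (G n * ν n) := fun n hn => by
    rw [← mul_sum, ← mul_assoc, mul_comm _ (ν n), ← mul_one_add]
    by_cases hz : ν n = 0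
    · simp [hz]
    refine mul_le_mul_of_nonneg_left ?_ (hν n)
    rw [sum_boole]
    simp only [hG]
    split_ifs with hg
    · have := (card_filter_le univ fun m : Fin 4 => ∃ j, P (m, j) n).trans_eq (card_fin 4)
      exact le_trans (Nat.cast_le.2 this) (by norm_num)
    · rw [mul_zero, add_zero, Nat.cast_le_one, card_le_one]
      intro m hm m' hm'
      obtain ⟨j, hj⟩ := (mem_filter.1 hm).2
      obtain ⟨j', hj'⟩ := (mem_filter.1 hm').2
      exact le_antisymm (not_lt.1 fun h => hg (hA n hn hz (m', j') (m, j) h hj' hj))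
        (not_lt.1 fun h => hg (hA n hn hz (m, j) (m', j') h hj hj'))
  have k3 := (sum_le_sum fun m (_ : m ∈ univ) => k1 m).trans (sum_comm.trans_le (sum_le_sum k2))
  rw [sum_add_distrib, sum_const, card_fin, nsmul_eq_mul, ← mul_sum] at k3
  have k4 : Ξ / 40 ≤ ∑ n ∈ N, G n * ν n := by
    have := mul_le_mul_of_nonneg_right he' hΞ.le
    push_cast at k3
    linarith
  refine (pow_le_pow_left₀ (by positivity) k4 2).trans
    ((sum_mul_sq_le_sq_mul_sq N G ν).trans (mul_le_mul_of_nonneg_right ?_ (by positivity)))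
  simp only [hG, ite_pow, one_pow, zero_pow two_ne_zero, sum_boole, Nat.cast_le]
  exact card_le_card fun n hn => (mem_filter.1 hn).2

theorem exists_wt : ∃ φ : ℝ → ℝ, Wt φ ∧ 0 < ∫ u, φ u := by
  let b : ContDiffBump (3 / 2 : ℝ) := ⟨1 / 4, 1 / 2, by norm_num, by norm_num⟩
  exact ⟨b, ⟨b.contDiff, fun x hx => by
    have : x ∈ Function.support b := hx
    rw [b.support_eq, Real.ball_eq_Ioo] at this
    constructor <;> linarith [this.1, this.2, show b.rOut = 1 / 2 from rfl],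
    fun _ => b.nonneg, fun _ => b.le_one⟩, b.integral_pos⟩

theorem sieveQ (hK : KLfor fun _ => True) (hB : BVfor fun _ => True) (hC : CountStmt)
    (hO : OneStmt) (hS : SmallStmt) : ∃ K : ℕ, SV fun X => X / Real.log X ^ K := by
  classical
  obtain ⟨ε, hε0, hε⟩ : ∃ ε : ℝ, 0 < ε ∧ ε ≤ 1 / 10 ^ 11 := ⟨_, by positivity, le_rfl⟩
  obtain ⟨N₀, hN⟩ := exists_nat_ge (2 / ε)
  rw [div_le_iff₀' hε0] at hN
  obtain ⟨J, hJ⟩ := exists_nat_ge (2 * 9 ^ N₀ * (2048 * 4) / (100 * ε ^ 3) : ℝ)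
  obtain ⟨t, ht⟩ : ∃ t : ℕ, t = 2 ^ J := ⟨_, rfl⟩
  have ht0 : 0 < t := ht ▸ by positivity
  set K := Fintype.card (Fin 4 × Fin t) with hKd
  have hKe : (K : ℝ) = 4 * t := by simp [hKd]
  have ht1 : (0 : ℝ) < t := by exact_mod_cast ht0
  have hK0 : (0 : ℝ) < K := by rw [hKe]; positivity
  obtain ⟨lam, hlam⟩ : ∃ lam : ℝ, lam = ε * ε / (32 * K * (J + 1)) := ⟨_, rfl⟩
  have hl0 : 0 < lam := hlam ▸ by positivity
  have hl1 : 32 * K * (J + 1) * lam = ε * ε := by rw [hlam]; field_simp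
  have hl2 : 2 ^ J * lam ≤ ε / 2 := by
    have h1 : (2 : ℝ) ^ J = t := by rw [ht]; push_cast; rfl
    have h2 : (t : ℝ) * 1 ≤ K * (J + 1) := mul_le_mul (by rw [hKe]; nlinarith)
      (by linarith [(Nat.cast_nonneg J : (0 : ℝ) ≤ J)]) zero_le_one hK0.le
    rw [h1]
    nlinarith
  obtain ⟨w₁, hw₁⟩ := hO (cK (Fin 4 × Fin t)) cK_nonneg
  obtain ⟨w₂, hw₂⟩ := hS (cK (Fin 4 × Fin t)) ε K cK_nonneg hε0
  refine ⟨4 * K + 81 ^ K + 1, t, max w₁ w₂, fun W hW hw b hFo => ?_⟩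
  set a : Fin 4 × Fin t → ℕ := fun _ => W with ha
  obtain ⟨φ, hφ, hI⟩ := exists_wt
  have : Nonempty (Fin 4 × Fin t) := ⟨0, 0, ht0⟩
  obtain ⟨C, hCC⟩ := hC φ hφ
  have hC0 : 0 ≤ C := (abs_nonneg _).trans (hCC 1 le_rfl 1 0 one_pos)
  set ρ : ℝ := (W.totient : ℝ) / W with hρ
  have hW' : (0 : ℝ) < W := by exact_mod_cast hW
  have hρ0 : 0 < ρ := div_pos (by exact_mod_cast Nat.totient_pos.2 hW) hW'
  have hρ1 : ρ ≤ 1 := (div_le_one hW').2 (by exact_mod_cast Nat.totient_le W)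
  set τ : ℝ := min 1 ((J + 1) ^ 2 * lam / 64) with hτ
  have hτ0 : 0 < τ := lt_min one_pos (by positivity)
  set I := ∫ u, φ u with hId
  have v1 := hw₁ W hW (fun q h1 h2 => hw q h1 (h2.trans (le_max_left _ _))) ε lam J hε0
    (by linarith) hl0 (by linarith)
  have v2 := Real.tendsto_exp_atTop.eventually
    (hB φ hφ W hW (∑ k, b k) (16 ^ K) (2 * K + 2) ε hε0)
  have v3 : ∀ᶠ X in atTop, KLin φ W b X := by
    have k : ∀ θ σm σp : ℝ, 0 ≤ θ → θ ≤ 3 / 5 → 0 ≤ σp → 7 * θ + σp ≤ 4 - 40 * (1 / 20000) →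
        2 * θ - 1 + 40 * (1 / 20000) ≤ σm →
        ∀ᶠ X in atTop, ∀ i j, KLat θ σm σp (1 / 20000) φ W (b i) (b j) X :=
      fun θ σm σp h1 h2 h3 h4 h5 => eventually_all.2 fun i => eventually_all.2 fun j =>
        hK θ σm σp _ (by norm_num) h1 h2 h3 h4 h5 φ hφ W _ _ hW trivial trivial (hFo.cop i)
          (hFo.cop j)
    exact ((k _ _ _ (by norm_num) (by norm_num) (by norm_num) (by norm_num) (by norm_num)).and
      (k _ _ _ (by norm_num) (by norm_num) (by norm_num) (by norm_num) (by norm_num))).mono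
      fun X h => ⟨h.1, h.2⟩
  have v4 := (isLittleO_pow_exp_pos_mul_atTop 4 (by norm_num : (0 : ℝ) < 1 / 40000)).bound
    (by positivity : 0 < ε * τ ^ 2 * I / ((5 * C + 3) * 4 ^ K))
  have v5 := (Real.tendsto_exp_atTop.comp (tendsto_id.const_mul_atTop hε0)).eventually_ge_atTop
    (2 * W + (∑ k, b k : ℕ) : ℝ)
  set c : ℝ := 2 * W + (∑ k, b k : ℕ) with hc
  have hc0 : 0 < c := by positivity
  have key : ∀ᶠ L : ℝ in atTop, Real.exp L / L ^ (4 * K + 81 ^ K + 1) ≤
      (((range ⌈3 * Real.exp L⌉₊).filter fun n : ℕ => Real.exp L ≤ n ∧ (n : ℝ) ≤ 2 * Real.exp L ∧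
        ∃ i j, i.1 < j.1 ∧ (W * n + b i).Prime ∧ (W * n + b j).Prime).card : ℝ) := by
    filter_upwards [v1, v2, Real.tendsto_exp_atTop.eventually v3, v4, v5, eventually_ge_atTop 1,
      eventually_ge_atTop (8 / (ρ * lam)), eventually_ge_atTop (1 / (ε * τ ^ 2 * I)),
      eventually_ge_atTop (1600 * K * c * 3 ^ 81 ^ K / I ^ 2)]
      with L u1 ⟨p₀, hp₀, hp₁, u2⟩ u3 u4 u5 u6 u7 u8 u9
    obtain ⟨S, hPS⟩ := exists_PS W (Real.exp_pos (272 / 1000 * L)).le
    set pr : S → ℕ := fun p => (p : ℕ) with hpr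
    obtain ⟨s1, s2, s3, -, s4⟩ := hw₂ W (fun q h1 h2 => hw q h1 (h2.trans (le_max_right _ _)))
      S pr _ hPS
    have hL : 0 < L := by linarith
    have hX := Real.exp_pos L
    have hX1 := Real.one_le_exp hL.le
    have h : Big pr a b W φ L ε lam ε C ρ τ p₀ J :=
      { ps := hPS, fo := hFo, wt := hφ, L0 := hL, δ0 := hε0, lam0 := hl0.le, hJ := hl2
        ε0 := hε0.le, C0 := hC0, cnt := hCC _ hX1, s1 := s1, s2 := s2, s3 := s4
        one := u1 S pr hPS p₀ hp₀ hp₁, ρ0 := hρ0, ρ1 := hρ1, ε1 := hε, δε := le_rfl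
        lam1 := hl1.le, L1 := u6
        γ1 := by rw [div_le_iff₀ (by positivity)] at u7; linarith
        τ0 := hτ0, τ1 := min_le_left _ _, τ2 := min_le_right _ _
        err := by
          rw [Real.norm_of_nonneg (by positivity), Real.norm_of_nonneg (Real.exp_pos _).le,
            div_mul_eq_mul_div, le_div_iff₀' (by positivity)] at u4
          refine (mul_le_mul_of_nonneg_right ((le_of_eq (by rw [mul_assoc])).trans u4)
            (Real.exp_pos _).le).trans (le_of_eq ?_)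
          rw [mul_assoc, ← Real.exp_add, mass, show 1 / 40000 * L + (1 - 1 / 40000) * L = L by ring]
          ring
        err' := by
          rw [div_le_iff₀ (by positivity)] at u8
          rw [div_le_iff₀ hL, mass]
          nlinarith }
    have hsz : ∀ i, ∀ n ∈ NN (Real.exp L), φ (n / Real.exp L) ≠ 0 →
        Real.exp (272 / 1000 * L) < (a i * n + b i : ℕ) ∧
          Real.log ((a i * n + b i : ℕ) : ℝ) ≤ (1 + ε) * L := by
      intro i n _ h0
      obtain ⟨c1, c2⟩ := hφ.supp _ h0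
      rw [le_div_iff₀ hX] at c1
      rw [div_le_iff₀ hX] at c2
      have a1 : (1 : ℝ) ≤ a i := by exact_mod_cast Nat.pos_of_dvd_of_pos (hFo.dvd i) hW
      have a2 : (a i : ℝ) ≤ W := by exact_mod_cast Nat.le_of_dvd hW (hFo.dvd i)
      have a3 : (b i : ℝ) ≤ (∑ k, b k : ℕ) := by
        exact_mod_cast single_le_sum (fun _ _ => Nat.zero_le _) (mem_univ i)
      have a4 : (0 : ℝ) ≤ b i := Nat.cast_nonneg _
      have a5 : Real.exp (272 / 1000 * L) < (a i * n + b i : ℕ) := by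
        have := Real.exp_lt_exp.2 (by linarith : 272 / 1000 * L < L)
        push_cast
        nlinarith
      refine ⟨a5, (Real.log_le_iff_le_exp ((Real.exp_pos _).trans a5)).2 ?_⟩
      have a6 : 2 * (W : ℝ) + (∑ k, b k : ℕ) ≤ Real.exp (ε * L) := u5
      rw [add_mul, one_mul, Real.exp_add, Nat.cast_add, Nat.cast_mul]
      have a7 := mul_le_mul a2 c2 (Nat.cast_nonneg _) hW'.le
      nlinarith
    have hcz := h.cz_ge
    have hcz0 : 0 < cz pr L lam p₀ J := lt_of_lt_of_le (by positivity) hcz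
    have hXi : 0 < Xi (Fin 4 × Fin t) pr φ L lam p₀ J :=
      lt_of_lt_of_le (mul_pos hX hI) h.mass_le
    have hν : ∀ n, 0 ≤ μU φ (Real.exp L) n * V (tt pr) (yw pr L ε lam p₀ J) (om pr a b n) ^ 2 :=
      fun n => mul_nonneg (hφ.nonneg _) (sq_nonneg _)
    have hm := mom4 h (fun _ => hW) hc0 (le_trans u5 (Real.exp_le_exp.2
      (show ε * L ≤ L by nlinarith)))
      fun k n h0 => by
        obtain ⟨c1, c2⟩ := hφ.supp _ h0
        rw [le_div_iff₀ hX] at c1
        rw [div_le_iff₀ hX] at c2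
        have a3 : (b k : ℝ) ≤ (∑ k, b k : ℕ) := by
          exact_mod_cast single_le_sum (fun _ _ => Nat.zero_le _) (mem_univ k)
        have a4 : (0 : ℝ) ≤ b k := Nat.cast_nonneg _
        have a5 : 0 < n := Nat.cast_pos.1 (show (0 : ℝ) < n by linarith)
        refine ⟨Nat.add_pos_left (Nat.mul_pos hW a5) _, ?_⟩
        have a7 := mul_le_mul_of_nonneg_left c2 hW'.le
        simp only [ha, hc, Nat.cast_add, Nat.cast_mul]
        nlinarith
    refine le_of_mul_le_mul_right (le_trans ?_ (((pow_le_pow_left₀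
      (div_nonneg h.mass_nonneg (by norm_num)) (div_le_div_of_nonneg_right h.mass_le
        (by norm_num : (0 : ℝ) ≤ 40)) 2).trans (finQ (NN (Real.exp L))
      (fun n => μU φ (Real.exp L) n * V (tt pr) (yw pr L ε lam p₀ J) (om pr a b n) ^ 2)
      (fun i n => Yr pr L ε i (om pr a b n)) (fun i n => (a i * n + b i).Prime)
      (B := 2 * 9 ^ N₀) (e := 100 * ε) ht0 hXi hcz0
      (by positivity) (by linarith) ?_ hν (fun _ _ => Yr_nonneg _ _)
      (fun i n hn h0 hp => (Yr_prime hPS hL.le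
        (om_prime hPS hFo hp (hsz i n hn (left_ne_zero_of_mul h0)).1)).ge)
      (h.T0.trans (by nlinarith)) (fun i => ?_) (fun i => ?_) (fun i j hij => ?_) (fun i => ?_) _
      fun n e1 e2 i j e3 e4 e5 => ?_)).trans (mul_le_mul_of_nonneg_left hm (Nat.cast_nonneg _))))
      (by positivity)
    · rw [div_le_iff₀ (by positivity)] at u9
      rw [← hKd, mass, ← hId, div_mul_eq_mul_div, div_le_iff₀ (by positivity), pow_succ, pow_add,
        mul_pow 3]
      have d2 := mul_le_mul_of_nonneg_left u9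
        (by positivity : 0 ≤ Real.exp L ^ 2 * L ^ (4 * K) * L ^ 81 ^ K / 1600)
      refine le_trans (le_of_eq ?_) (d2.trans (le_of_eq ?_)) <;> ring
    · rw [div_le_iff₀ (by positivity)] at hJ
      refine le_trans ?_ (mul_le_mul_of_nonneg_left hcz (by positivity))
      refine le_of_mul_le_mul_right (hJ.trans ?_) (by positivity)
      rw [hKe] at hl1
      have : 100 * ε * t * ((J + 1) ^ 2 * lam / 64) * (2048 * 4) = (J + 1) * (100 * ε ^ 3) := by
        linear_combination 100 * ε * (J + 1) * hl1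
      rw [this]
      exact mul_le_mul_of_nonneg_right (by linarith) (by positivity)
    · simp only [mul_assoc]
      exact h.T1 i
    · have h3 := mul_le_mul_of_nonneg_left (h.T1u i) (by positivity : (0 : ℝ) ≤ 9 ^ N₀)
      refine le_trans ?_ (h3.trans (le_of_eq (by ring)))
      rw [SU, Sm, mul_sum]
      refine sum_le_sum fun n hn => ?_
      by_cases h0 : φ (n / Real.exp L) = 0
      · simp [μU, h0]
      obtain ⟨c1, c2⟩ := hsz i n hn h0
      have := mul_le_mul_of_nonneg_left (Yr_bound hPS hFo hL hN hε0 i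
        (Nat.cast_pos.1 ((Real.exp_pos _).trans c1)) (c2.trans (by nlinarith)))
        (mul_nonneg (hν n) (Yr_nonneg (pr := pr) (L := L) (δ := ε) i (om pr a b n)))
      linarith
    · have h3 := h.T3 hij hε0.le (by linarith) s3 u3
      simp only [mul_assoc]
      exact h3.trans (mul_le_mul_of_nonneg_right (by linarith) (by positivity))
    · obtain ⟨Mi, c1, c2⟩ := u2 (a i) (b i) (hFo.dvd i)
        (single_le_sum (fun _ _ => Nat.zero_le _) (mem_univ i)) trivial (hFo.cop i)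
      rw [Real.log_exp] at c2
      rw [div_totient hW (hFo.dvd i) (hFo.full i)] at c1
      exact (h.T4 i hp₀ c1 c2 (hsz i)).trans_eq (sum_congr rfl fun n _ => by
        split_ifs <;> rfl)
    · obtain ⟨c1, c2⟩ := hφ.supp _ (left_ne_zero_of_mul e2)
      rw [le_div_iff₀ hX, one_mul] at c1
      rw [div_le_iff₀ hX] at c2
      exact mem_filter.2 ⟨e1, c1, c2, i, j, e3, e4, e5⟩
  filter_upwards [Real.tendsto_log_atTop.eventually key, eventually_gt_atTop 0] with X h h0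
  rwa [Real.exp_log h0] at h

end Pool.Agent.MP_678834_nt
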